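import Pool.Agent.MP_a5f24b_gt.Flat
import Mathlib

-- part MP_a5f24b_gt.Tube
section

/-! Local charts along an immersed closed plane curve: left and right sides of a strand. -/

namespace Pool.Agent.MP_a5f24b_gt
open Set Filter Topology Complex

/-- The linear map `(a, b) ↦ a τ + b ν`. -/
noncomputable def lin (τ ν : ℂ) : ℝ × ℝ →L[ℝ] ℂ :=
  (ContinuousLinearMap.fst ℝ ℝ ℝ).smulRight τ + (ContinuousLinearMap.snd ℝ ℝ ℝ).smulRight ν

theorem lin_apply (τ ν : ℂ) (y : ℝ × ℝ) : lin τ ν y = y.1 * τ + y.2 * ν := by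
  simp [lin]

/-- The determinant of the pair `τ, ν`. -/
def cr (τ ν : ℂ) : ℝ := τ.re * ν.im - τ.im * ν.re

theorem exists_equiv {τ ν : ℂ} (h : cr τ ν ≠ 0) :
    ∃ e : (ℝ × ℝ) ≃L[ℝ] ℂ, (e : ℝ × ℝ →L[ℝ] ℂ) = lin τ ν := by
  have hinj : Function.Injective (lin τ ν).toLinearMap := by
    rw [← LinearMap.ker_eq_bot, LinearMap.ker_eq_bot']
    rintro ⟨a, b⟩ hm
    have hm' : (a : ℂ) * τ + b * ν = 0 := by simpa [lin_apply] using hm
    have h1 := congrArg Complex.re hm'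
    have h2 := congrArg Complex.im hm'
    simp at h1 h2
    have ha : a * cr τ ν = 0 := by unfold cr; linear_combination ν.im * h1 - ν.re * h2
    have hb : b * cr τ ν = 0 := by unfold cr; linear_combination τ.re * h2 - τ.im * h1
    simp [h] at ha hb
    simp [ha, hb]
  refine ⟨(LinearMap.linearEquivOfInjective _ hinj (by simp)).toContinuousLinearEquiv, ?_⟩
  ext <;> simp

theorem chart_exists {E : ℝ × ℝ → ℂ} {x : ℝ × ℝ} {τ ν : ℂ} (hE : HasStrictFDerivAt E (lin τ ν) x)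
    (hκ : cr τ ν ≠ 0) :
    (∃ W, IsOpen W ∧ x ∈ W ∧ InjOn E W ∧ ∀ y ∈ W, map E (𝓝 y) = 𝓝 (E y)) ∧
    ∀ (η : ℝ → ℂ) (α β t₀ : ℝ), HasDerivAt η (α * τ + β * ν) t₀ → η t₀ = E x →
      ∃ ζ : ℝ → ℝ × ℝ, HasDerivAt ζ (α, β) t₀ ∧ ζ t₀ = x ∧ ∀ᶠ r in 𝓝 t₀, E (ζ r) = η r := by
  obtain ⟨e, he⟩ := exists_equiv hκ
  rw [← he] at hE
  refine ⟨⟨_, (hE.toOpenPartialHomeomorph E).open_source, hE.mem_toOpenPartialHomeomorph_source,
    (hE.toOpenPartialHomeomorph E).injOn, fun y hy => (hE.toOpenPartialHomeomorph E).map_nhds_eq hy⟩,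
    fun η α β t₀ hη h0 => ⟨fun r => hE.localInverse E e x (η r), ?_, ?_, ?_⟩⟩
  · have h1 := hE.to_localInverse.hasFDerivAt
    rw [← h0] at h1
    have h2 := h1.comp_hasDerivAt t₀ hη
    have h3 : (e.symm : ℂ →L[ℝ] ℝ × ℝ) (α * τ + β * ν) = (α, β) := by
      have : e (α, β) = α * τ + β * ν := by
        have := congrArg (fun f : ℝ × ℝ →L[ℝ] ℂ => f (α, β)) he
        simpa [lin_apply] using this
      simp [← this]
    rw [h3] at h2
    exact h2
  · simp only [h0]; exact hE.localInverse_apply_image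
  · have h1 := hE.eventually_right_inverse
    rw [← h0] at h1
    exact hη.continuousAt.eventually h1

theorem sign_of_deriv {ρ : ℝ → ℝ} {κ t : ℝ} (h : HasDerivAt ρ κ t) (h0 : ρ t = 0) (hκ : κ ≠ 0) :
    ∀ᶠ r in 𝓝 t, (0 < ρ r ↔ 0 < κ * (r - t)) ∧ (ρ r < 0 ↔ κ * (r - t) < 0) := by
  have h1 := hasDerivAt_iff_tendsto_slope.1 h
  have h2 : ∀ᶠ r in 𝓝[≠] t, 0 < κ * slope ρ t r := by
    have : Tendsto (fun r => κ * slope ρ t r) (𝓝[≠] t) (𝓝 (κ * κ)) := h1.const_mul κ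
    exact this.eventually (lt_mem_nhds (mul_self_pos.2 hκ))
  rw [eventually_nhdsWithin_iff] at h2
  filter_upwards [h2] with r hr
  by_cases hrt : r = t
  · subst hrt; simp [h0]
  · have h3 := hr hrt
    have hne : r - t ≠ 0 := sub_ne_zero.2 hrt
    have h4 : ρ r = slope ρ t r * (r - t) := by
      rw [slope_def_field, h0]; field_simp; ring
    have h5 : ρ r * (κ * (r - t)) = κ * slope ρ t r * ((r - t) * (r - t)) := by rw [h4]; ring
    have h6 : 0 < ρ r * (κ * (r - t)) := by rw [h5]; exact mul_pos h3 (mul_self_pos.2 hne)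
    constructor
    · exact ⟨fun h => (pos_iff_pos_of_mul_pos h6).1 h, fun h => (pos_iff_pos_of_mul_pos h6).2 h⟩
    · exact ⟨fun h => (neg_iff_neg_of_mul_pos h6).1 h, fun h => (neg_iff_neg_of_mul_pos h6).2 h⟩

/-- A closed immersed curve. -/
structure Imm where
  γ : ℝ → ℂ
  smooth : ContDiff ℝ 2 γ
  per : Function.Periodic γ 1
  imm : ∀ s, deriv γ s ≠ 0

namespace Imm
variable (c : Imm)

/-- The normal exponential map. -/
noncomputable def N (y : ℝ × ℝ) : ℂ := c.γ y.1 + y.2 * (I * deriv c.γ y.1)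

theorem cont : Continuous c.γ := c.smooth.continuous

theorem hasDeriv (s : ℝ) : HasDerivAt c.γ (deriv c.γ s) s :=
  (c.smooth.differentiable (by norm_num) s).hasDerivAt

theorem contDiff_deriv : ContDiff ℝ 1 (deriv c.γ) := by
  have : ContDiff ℝ (1 + 1) c.γ := by simpa [one_add_one_eq_two] using c.smooth
  exact (contDiff_succ_iff_deriv.1 this).2.2

theorem γ_int (s : ℝ) (n : ℤ) : c.γ (s + n) = c.γ s := by
  simpa using c.per.int_mul n s

theorem deriv_int (s : ℝ) (n : ℤ) : deriv c.γ (s + n) = deriv c.γ s := by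
  have : (fun x => c.γ (x + n)) = c.γ := funext fun x => c.γ_int x n
  rw [← deriv_comp_add_const, this]

theorem N_int (y : ℝ × ℝ) (n : ℤ) : c.N (y.1 + n, y.2) = c.N y := by
  simp [N, c.γ_int, c.deriv_int]

theorem N_zero (s : ℝ) : c.N (s, 0) = c.γ s := by simp [N]

theorem contDiff_N : ContDiff ℝ 1 c.N := by
  have h1 : ContDiff ℝ 1 c.γ := c.smooth.of_le (by norm_num)
  have h2 := c.contDiff_deriv
  have h3 : ContDiff ℝ 1 (fun y : ℝ × ℝ => (y.2 : ℂ)) := ofRealCLM.contDiff.comp contDiff_snd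
  exact (h1.comp contDiff_fst).add (h3.mul (contDiff_const.mul (h2.comp contDiff_fst)))

theorem cont_N : Continuous c.N := c.contDiff_N.continuous

theorem strict_N (s : ℝ) :
    HasStrictFDerivAt c.N (lin (deriv c.γ s) (I * deriv c.γ s)) (s, 0) := by
  refine c.contDiff_N.contDiffAt.hasStrictFDerivAt' ?_ one_ne_zero
  have h1 : HasFDerivAt (fun y : ℝ × ℝ => c.γ y.1) _ (s, 0) :=
    (c.hasDeriv s).hasFDerivAt.comp (s, (0 : ℝ)) hasFDerivAt_fst
  have h0 : HasDerivAt (deriv c.γ) (deriv (deriv c.γ) s) s :=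
    ((c.contDiff_deriv.differentiable one_ne_zero) s).hasDerivAt
  have h2' : HasFDerivAt (fun y : ℝ × ℝ => deriv c.γ y.1) _ (s, 0) :=
    HasFDerivAt.comp (f := Prod.fst) (g := deriv c.γ) (s, (0 : ℝ)) h0.hasFDerivAt hasFDerivAt_fst
  have h2 := h2'.const_mul I
  have h3 : HasFDerivAt (fun y : ℝ × ℝ => (y.2 : ℂ)) _ (s, 0) :=
    ofRealCLM.hasFDerivAt.comp (s, (0 : ℝ)) hasFDerivAt_snd
  have h4 := h1.add (h3.mul h2)
  refine HasFDerivAt.congr_fderiv h4 ?_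
  ext <;> simp [lin_apply]

theorem cr_N (s : ℝ) : cr (deriv c.γ s) (I * deriv c.γ s) ≠ 0 := by
  have := normSq_pos.2 (c.imm s)
  rw [normSq_apply] at this
  simp [cr]; linarith

theorem exists_δ : ∃ δ : ℝ, 0 < δ ∧ ∀ s, InjOn c.N (Metric.ball (s, 0) δ) ∧
    ∀ y ∈ Metric.ball (s, (0 : ℝ)) δ, map c.N (𝓝 y) = 𝓝 (c.N y) := by
  choose W hWo hWm hWi hWn using fun s => (chart_exists (c.strict_N s) (c.cr_N s)).1
  have hK : IsCompact ((fun s : ℝ => (s, (0 : ℝ))) '' Icc 0 1) :=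
    isCompact_Icc.image (by fun_prop)
  obtain ⟨δ, hδ, hb⟩ := lebesgue_number_lemma_of_metric hK hWo (by
    rintro _ ⟨s, -, rfl⟩
    exact mem_iUnion.2 ⟨s, hWm s⟩)
  refine ⟨δ, hδ, fun s => ?_⟩
  obtain ⟨i, hi⟩ := hb (Int.fract s, 0) ⟨_, ⟨Int.fract_nonneg s, (Int.fract_lt_one s).le⟩, rfl⟩
  have hsh : ∀ y ∈ Metric.ball (s, (0 : ℝ)) δ, (y.1 + (-⌊s⌋ : ℤ), y.2) ∈ W i := by
    intro y hy
    apply hi
    simp only [Metric.mem_ball, Prod.dist_eq, Real.dist_eq, Int.fract] at hy ⊢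
    convert hy using 3
    push_cast; ring
  refine ⟨fun y hy y' hy' h => ?_, fun y hy => ?_⟩
  · have := hWi i (hsh y hy) (hsh y' hy') (by rw [c.N_int, c.N_int, h])
    simp only [Prod.mk.injEq, add_left_inj] at this
    exact Prod.ext this.1 this.2
  · have h1 := hWn i _ (hsh y hy)
    rw [c.N_int] at h1
    rw [← h1]
    have h2 : map (fun z : ℝ × ℝ => z + (((-⌊s⌋ : ℤ) : ℝ), 0)) (𝓝 y) =
        𝓝 (y + (((-⌊s⌋ : ℤ) : ℝ), 0)) := map_add_right_nhds _ _
    have h3 : (y.1 + ((-⌊s⌋ : ℤ) : ℝ), y.2) = y + (((-⌊s⌋ : ℤ) : ℝ), 0) := by ext <;> simp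
    rw [h3, ← h2, map_map]
    congr 1
    funext z
    have h4 : (z.1 + ((-⌊s⌋ : ℤ) : ℝ), z.2) = z + (((-⌊s⌋ : ℤ) : ℝ), 0) := by ext <;> simp
    simp only [Function.comp, ← h4, c.N_int]

/-- Width of the tube. -/
noncomputable def δ : ℝ := c.exists_δ.choose

theorem δ_pos : 0 < c.δ := c.exists_δ.choose_spec.1
theorem N_inj (s : ℝ) : InjOn c.N (Metric.ball (s, 0) c.δ) := (c.exists_δ.choose_spec.2 s).1
theorem N_map (s : ℝ) {y : ℝ × ℝ} (hy : y ∈ Metric.ball (s, (0 : ℝ)) c.δ) :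
    map c.N (𝓝 y) = 𝓝 (c.N y) := (c.exists_δ.choose_spec.2 s).2 y hy

theorem ev_N (s : ℝ) {y : ℝ × ℝ} (hy : y ∈ Metric.ball (s, (0 : ℝ)) c.δ) {P : ℂ → Prop} :
    (∀ᶠ p in 𝓝 (c.N y), P p) ↔ ∀ᶠ z in 𝓝 y, P (c.N z) := by
  rw [← c.N_map s hy, eventually_map]

theorem ev_γ (s : ℝ) {P : ℂ → Prop} :
    (∀ᶠ p in 𝓝 (c.γ s), P p) ↔ ∀ᶠ z in 𝓝 (s, (0 : ℝ)), P (c.N z) := by
  rw [← c.N_zero, c.ev_N s (Metric.mem_ball_self c.δ_pos)]

/-- Left of the strand through `s`. -/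
def L (s : ℝ) (p : ℂ) : Prop := ∃ y ∈ Metric.ball (s, (0 : ℝ)) c.δ, 0 < y.2 ∧ c.N y = p
/-- Right of the strand through `s`. -/
def R (s : ℝ) (p : ℂ) : Prop := ∃ y ∈ Metric.ball (s, (0 : ℝ)) c.δ, y.2 < 0 ∧ c.N y = p
/-- On the strand through `s`. -/
def On (s : ℝ) (p : ℂ) : Prop := ∃ t, |t - s| < c.δ ∧ c.γ t = p

theorem mem_ball_zero {s t : ℝ} : (t, (0 : ℝ)) ∈ Metric.ball (s, (0 : ℝ)) c.δ ↔ |t - s| < c.δ := by
  have := c.δ_pos
  simp [Prod.dist_eq, Real.dist_eq]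

theorem L_N {s : ℝ} {y : ℝ × ℝ} (hy : y ∈ Metric.ball (s, (0 : ℝ)) c.δ) :
    c.L s (c.N y) ↔ 0 < y.2 :=
  ⟨fun ⟨z, hz, h1, h2⟩ => by rw [← c.N_inj s hz hy h2]; exact h1, fun h => ⟨y, hy, h, rfl⟩⟩

theorem R_N {s : ℝ} {y : ℝ × ℝ} (hy : y ∈ Metric.ball (s, (0 : ℝ)) c.δ) :
    c.R s (c.N y) ↔ y.2 < 0 :=
  ⟨fun ⟨z, hz, h1, h2⟩ => by rw [← c.N_inj s hz hy h2]; exact h1, fun h => ⟨y, hy, h, rfl⟩⟩

theorem On_N {s : ℝ} {y : ℝ × ℝ} (hy : y ∈ Metric.ball (s, (0 : ℝ)) c.δ) :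
    c.On s (c.N y) ↔ y.2 = 0 := by
  constructor
  · rintro ⟨t, ht, h2⟩
    rw [← c.N_inj s (c.mem_ball_zero.2 ht) hy (by rw [c.N_zero, h2])]
  · intro h
    obtain ⟨a, b⟩ := y
    simp only at h
    subst h
    exact ⟨a, c.mem_ball_zero.1 hy, (c.N_zero a).symm⟩

theorem L_int (s : ℝ) (n : ℤ) : c.L (s + n) = c.L s := by
  have : ∀ (s : ℝ) (n : ℤ) p, c.L s p → c.L (s + n) p := by
    rintro s n p ⟨y, hy, h1, h2⟩
    refine ⟨(y.1 + n, y.2), ?_, h1, by rw [c.N_int, h2]⟩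
    simpa [Prod.dist_eq] using hy
  funext p
  refine propext ⟨fun h => ?_, this s n p⟩
  simpa using this _ (-n) p h

theorem L_open {s : ℝ} {p : ℂ} (h : c.L s p) : ∀ᶠ p' in 𝓝 p, c.L s p' := by
  obtain ⟨y, hy, h1, rfl⟩ := h
  rw [c.ev_N s hy]
  filter_upwards [Metric.isOpen_ball.mem_nhds hy,
    continuous_snd.continuousAt.eventually (lt_mem_nhds h1)] with z hz hz'
  exact (c.L_N hz).2 hz'

theorem R_open {s : ℝ} {p : ℂ} (h : c.R s p) : ∀ᶠ p' in 𝓝 p, c.R s p' := by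
  obtain ⟨y, hy, h1, rfl⟩ := h
  rw [c.ev_N s hy]
  filter_upwards [Metric.isOpen_ball.mem_nhds hy,
    continuous_snd.continuousAt.eventually (gt_mem_nhds h1)] with z hz hz'
  exact (c.R_N hz).2 hz'

theorem not_L_of_R {s : ℝ} {p : ℂ} (h : c.R s p) : ¬ c.L s p := by
  obtain ⟨y, hy, h1, rfl⟩ := h
  rw [c.L_N hy]; linarith

theorem not_L_of_On {s : ℝ} {p : ℂ} (h : c.On s p) : ¬ c.L s p := by
  rintro ⟨y, hy, h1, rfl⟩
  rw [c.On_N hy] at h; linarith

theorem not_R_of_On {s : ℝ} {p : ℂ} (h : c.On s p) : ¬ c.R s p := by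
  rintro ⟨y, hy, h1, rfl⟩
  rw [c.On_N hy] at h; linarith

theorem On_self (s : ℝ) : c.On s (c.γ s) := ⟨s, by simp [c.δ_pos], rfl⟩

theorem tri (s : ℝ) : ∀ᶠ p in 𝓝 (c.γ s), c.L s p ∨ c.R s p ∨ c.On s p := by
  rw [c.ev_γ]
  filter_upwards [Metric.ball_mem_nhds _ c.δ_pos] with z hz
  rw [c.L_N hz, c.R_N hz, c.On_N hz]
  rcases lt_trichotomy 0 z.2 with h | h | h <;> simp [h]

/-- Off the strand the side is locally constant. -/
theorem L_loc (s : ℝ) : ∀ᶠ p in 𝓝 (c.γ s), ¬ c.On s p → ∀ᶠ p' in 𝓝 p, (c.L s p' ↔ c.L s p) := by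
  filter_upwards [c.tri s] with p hp hn
  rcases hp with h | h | h
  · filter_upwards [c.L_open h] with p' h'
    simp [h, h']
  · filter_upwards [c.R_open h] with p' h'
    simp [c.not_L_of_R h, c.not_L_of_R h']
  · exact absurd h hn

theorem L_near {s t : ℝ} (h : |t - s| < c.δ) : ∀ᶠ p in 𝓝 (c.γ t), (c.L t p ↔ c.L s p) := by
  rw [c.ev_γ]
  filter_upwards [Metric.ball_mem_nhds _ c.δ_pos,
    Metric.isOpen_ball.mem_nhds (c.mem_ball_zero.2 h)] with z hz hz'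
  rw [c.L_N hz, c.L_N hz']

theorem On_near (s : ℝ) {ε : ℝ} (hε : 0 < ε) :
    ∀ᶠ p in 𝓝 (c.γ s), ∀ t, |t - s| < c.δ → c.γ t = p → |t - s| < ε := by
  rw [c.ev_γ]
  filter_upwards [Metric.ball_mem_nhds _ c.δ_pos, Metric.ball_mem_nhds _ hε] with z hz hz' t ht h
  have := c.N_inj s (c.mem_ball_zero.2 ht) hz (by rw [c.N_zero, h])
  subst this
  simpa [Prod.dist_eq, Real.dist_eq, hε] using hz'

theorem γ_inj_near {s t t' : ℝ} (ht : |t - s| < c.δ) (ht' : |t' - s| < c.δ)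
    (h : c.γ t = c.γ t') : t = t' := by
  have := c.N_inj s (c.mem_ball_zero.2 ht) (c.mem_ball_zero.2 ht') (by rw [c.N_zero, c.N_zero, h])
  simpa using this

/-- The side of a transversal curve. -/
theorem side_curve {s t₀ : ℝ} {η : ℝ → ℂ} {v : ℂ} (hη : HasDerivAt η v t₀) (h0 : η t₀ = c.γ s)
    (hv : cr (deriv c.γ s) v ≠ 0) :
    ∀ᶠ r in 𝓝 t₀, (c.L s (η r) ↔ 0 < cr (deriv c.γ s) v * (r - t₀)) ∧
      (c.R s (η r) ↔ cr (deriv c.γ s) v * (r - t₀) < 0) := by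
  obtain ⟨τ, hτ⟩ : ∃ τ, τ = deriv c.γ s := ⟨_, rfl⟩
  obtain ⟨m, hm⟩ : ∃ m, m = τ.re * τ.re + τ.im * τ.im := ⟨_, rfl⟩
  have hn : 0 < m := by
    have := normSq_pos.2 (c.imm s)
    rwa [normSq_apply, ← hτ, ← hm] at this
  have hdec : v = ((τ.re * v.re + τ.im * v.im) / m : ℝ) * τ + (cr τ v / m : ℝ) * (I * τ) := by
    apply Complex.ext
    · simp only [add_re, mul_re, ofReal_re, ofReal_im, I_re, I_im, mul_im, cr]
      field_simp; rw [hm]; ring
    · simp only [add_im, mul_re, ofReal_re, ofReal_im, I_re, I_im, mul_im, cr]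
      field_simp; rw [hm]; ring
  rw [← hτ] at hv ⊢
  obtain ⟨ζ, h1, h2, h3⟩ := (chart_exists (c.strict_N s) (c.cr_N s)).2 η _ _ t₀
    (by rw [← hτ, ← hdec]; exact hη) (by rw [h0, c.N_zero])
  have h4 : HasDerivAt (fun r => (ζ r).2) (cr τ v / m) t₀ :=
    (ContinuousLinearMap.snd ℝ ℝ ℝ).hasFDerivAt.comp_hasDerivAt t₀ h1
  have h5 := sign_of_deriv h4 (by rw [h2]) (div_ne_zero hv hn.ne')
  have h6 : ∀ᶠ r in 𝓝 t₀, ζ r ∈ Metric.ball (s, (0 : ℝ)) c.δ :=
    h1.continuousAt.eventually (by rw [h2]; exact Metric.ball_mem_nhds _ c.δ_pos)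
  filter_upwards [h3, h5, h6] with r e1 e2 e3
  rw [← e1, c.L_N e3, c.R_N e3, e2.1, e2.2, div_mul_eq_mul_div, div_pos_iff_of_pos_right hn,
    div_neg_iff]
  refine ⟨Iff.rfl, ⟨fun h => ?_, fun h => Or.inr ⟨h, hn⟩⟩⟩
  rcases h with h | h
  · linarith [h.2]
  · exact h.1

end Imm

end Pool.Agent.MP_a5f24b_gt

end

-- part MP_a5f24b_gt.Cross
section

/-! The chart at a transverse double point. -/

namespace Pool.Agent.MP_a5f24b_gt
open Set Filter Topology Complex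

theorem freq_pos {κ : ℝ} (h : κ ≠ 0) (t : ℝ) : ∃ᶠ r in 𝓝 t, 0 < κ * (r - t) := by
  rcases lt_or_gt_of_ne h with h | h
  · exact (frequently_lt_nhds t).mono fun r hr => mul_pos_of_neg_of_neg h (by linarith)
  · exact (frequently_gt_nhds t).mono fun r hr => mul_pos h (by linarith)

theorem freq_neg {κ : ℝ} (h : κ ≠ 0) (t : ℝ) : ∃ᶠ r in 𝓝 t, κ * (r - t) < 0 :=
  (freq_pos (neg_ne_zero.2 h) t).mono fun r hr => by linarith

theorem cr_swap (τ ν : ℂ) : cr ν τ = - cr τ ν := by unfold cr; ring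

namespace Imm
variable (c : Imm)

theorem compare {s : ℝ} {E : ℝ × ℝ → ℂ} (hE : Continuous E) (h0 : ∀ a, E (a, 0) = c.γ (s + a))
    {W : Set (ℝ × ℝ)} (hW : W ∈ 𝓝 (0 : ℝ × ℝ)) (hi : InjOn E W) {ν : ℂ}
    (hν : HasDerivAt (fun r => E (0, r)) ν 0) (hκ : cr (deriv c.γ s) ν ≠ 0) :
    ∀ᶠ y in 𝓝 (0 : ℝ × ℝ), (c.L s (E y) ↔ 0 < cr (deriv c.γ s) ν * y.2) ∧
      (c.R s (E y) ↔ cr (deriv c.γ s) ν * y.2 < 0) ∧ (c.On s (E y) ↔ y.2 = 0) := by
  obtain ⟨κ, hκ'⟩ : ∃ κ, κ = cr (deriv c.γ s) ν := ⟨_, rfl⟩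
  have hE0 : E 0 = c.γ s := (h0 0).trans (by rw [add_zero])
  have hT : Tendsto E (𝓝 0) (𝓝 (c.γ s)) := hE0 ▸ hE.continuousAt
  have hOn : ∀ᶠ y in 𝓝 (0 : ℝ × ℝ), (c.On s (E y) ↔ y.2 = 0) := by
    obtain ⟨ε, hε, hb⟩ := Metric.mem_nhds_iff.1 hW
    filter_upwards [hT.eventually (c.On_near s hε), hW, Metric.ball_mem_nhds _ c.δ_pos]
      with y h1 h2 h3
    constructor
    · rintro ⟨t, ht, h4⟩
      have h5 := h1 t ht h4
      have h6 : (t - s, (0 : ℝ)) ∈ W := hb (by simpa [Prod.norm_def, hε] using h5)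
      rw [← hi h6 h2 (by rw [h0, ← h4]; simp)]
    · intro h4
      obtain ⟨a, b⟩ := y
      simp only at h4
      subst h4
      exact ⟨s + a, by simpa [Prod.norm_def, c.δ_pos] using h3, (h0 a).symm⟩
  have hloc : ∀ᶠ y in 𝓝 (0 : ℝ × ℝ), y.2 ≠ 0 → ∀ᶠ y' in 𝓝 y, c.L s (E y') = c.L s (E y) := by
    filter_upwards [hT.eventually (c.L_loc s), hOn] with y h1 h2 h3
    exact (hE.continuousAt.eventually (h1 (fun h => h3 (h2.1 h)))).mono fun _ h => propext h
  have hcv : ∀ k : ℝ, Convex ℝ {y : ℝ × ℝ | 0 < k * y.2} := fun k =>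
    convex_halfSpace_gt ⟨fun x y => by simp [mul_add], fun a x => by simp; ring⟩ 0
  have hsc := c.side_curve hν hE0 hκ
  rw [← hκ'] at hκ hsc ⊢
  have hT2 : Tendsto (fun r : ℝ => ((0 : ℝ), r)) (𝓝 0) (𝓝 0) :=
    Continuous.tendsto' (by fun_prop) _ _ rfl
  obtain ⟨kp, hkp⟩ := const_on_convex (F := fun y => c.L s (E y)) (hcv κ)
    (hloc.mono fun y h hy => h (by rintro h'; simp [h'] at hy))
  obtain ⟨km, hkm⟩ := const_on_convex (F := fun y => c.L s (E y)) (hcv (-κ))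
    (hloc.mono fun y h hy => h (by rintro h'; simp [h'] at hy))
  have ep : kp := by
    obtain ⟨r, h1, h2, h3⟩ := ((freq_pos hκ 0).and_eventually (hsc.and (hT2.eventually hkp))).exists
    rw [← h3 (by simpa using h1)]
    exact h2.1.2 h1
  have em : ¬ km := by
    obtain ⟨r, h1, h2, h3⟩ := ((freq_neg hκ 0).and_eventually (hsc.and (hT2.eventually hkm))).exists
    rw [← h3 (by simpa using h1)]
    intro h4
    linarith [h2.1.1 h4]
  filter_upwards [hOn, hkp, hkm, hT.eventually (c.tri s)] with y h1 h2 h3 h4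
  rcases lt_trichotomy 0 (κ * y.2) with h | h | h
  · have h5 : c.L s (E y) := (h2 h).symm ▸ ep
    exact ⟨by simp [h, h5], ⟨fun h6 => absurd h5 (c.not_L_of_R h6), fun h6 => by linarith⟩, h1⟩
  · have h5 : y.2 = 0 := by
      rcases mul_eq_zero.1 h.symm with h | h
      · exact absurd h hκ
      · exact h
    have h6 := h1.2 h5
    exact ⟨by simp [c.not_L_of_On h6, h5], by simp [c.not_R_of_On h6, h5], h1⟩
  · have h5 : ¬ c.L s (E y) := fun h6 => em ((h3 (by simpa using h)) ▸ h6)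
    have h6 : ¬ c.On s (E y) := fun h6 => by simp [h1.1 h6] at h
    refine ⟨⟨fun h7 => absurd h7 h5, fun h7 => by linarith⟩, ?_, h1⟩
    have : c.R s (E y) := by tauto
    simp [this, h]

/-- The chart at a double point. -/
def Q (s t : ℝ) (y : ℝ × ℝ) : ℂ := c.γ (s + y.1) + c.γ (t + y.2) - c.γ s

theorem cont_Q (s t : ℝ) : Continuous (c.Q s t) := by
  have := c.cont
  unfold Q; fun_prop

theorem Q_fst {s t : ℝ} (h : c.γ s = c.γ t) (a : ℝ) : c.Q s t (a, 0) = c.γ (s + a) := by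
  simp [Q, h]

theorem Q_snd (s t : ℝ) (b : ℝ) : c.Q s t (0, b) = c.γ (t + b) := by
  simp [Q]

theorem strict_Q (s t : ℝ) :
    HasStrictFDerivAt (c.Q s t) (lin (deriv c.γ s) (deriv c.γ t)) (0, 0) := by
  have h1 : ContDiff ℝ 1 c.γ := c.smooth.of_le (by norm_num)
  have h2 : ContDiff ℝ 1 (c.Q s t) := by unfold Q; fun_prop
  refine h2.contDiffAt.hasStrictFDerivAt' ?_ one_ne_zero
  have a1 : HasDerivAt (fun a => c.γ (s + a)) (deriv c.γ s) 0 := by
    have := c.hasDeriv (s + 0)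
    simpa using this.comp_const_add s 0
  have a2 : HasDerivAt (fun a => c.γ (t + a)) (deriv c.γ t) 0 := by
    have := c.hasDeriv (t + 0)
    simpa using this.comp_const_add t 0
  have b1 : HasFDerivAt (fun y : ℝ × ℝ => c.γ (s + y.1)) _ (0, 0) :=
    HasFDerivAt.comp (f := Prod.fst) (g := fun a => c.γ (s + a)) ((0 : ℝ), (0 : ℝ))
      a1.hasFDerivAt hasFDerivAt_fst
  have b2 : HasFDerivAt (fun y : ℝ × ℝ => c.γ (t + y.2)) _ (0, 0) :=
    HasFDerivAt.comp (f := Prod.snd) (g := fun a => c.γ (t + a)) ((0 : ℝ), (0 : ℝ))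
      a2.hasFDerivAt hasFDerivAt_snd
  refine HasFDerivAt.congr_fderiv ((b1.add b2).sub_const (c.γ s)) ?_
  ext <;> simp [lin_apply]

theorem Q_map {s t : ℝ} (h : c.γ s = c.γ t) (hκ : cr (deriv c.γ s) (deriv c.γ t) ≠ 0) :
    map (c.Q s t) (𝓝 0) = 𝓝 (c.γ s) := by
  obtain ⟨W, -, h1, -, h2⟩ := (chart_exists (c.strict_Q s t) hκ).1
  have := h2 _ h1
  rwa [c.Q_fst h, add_zero] at this

theorem Q_sides {s t : ℝ} (h : c.γ s = c.γ t) (hκ : cr (deriv c.γ s) (deriv c.γ t) ≠ 0) :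
    ∀ᶠ y in 𝓝 (0 : ℝ × ℝ),
      ((c.L s (c.Q s t y) ↔ 0 < cr (deriv c.γ s) (deriv c.γ t) * y.2) ∧
      (c.R s (c.Q s t y) ↔ cr (deriv c.γ s) (deriv c.γ t) * y.2 < 0) ∧
      (c.On s (c.Q s t y) ↔ y.2 = 0)) ∧
      ((c.L t (c.Q s t y) ↔ cr (deriv c.γ s) (deriv c.γ t) * y.1 < 0) ∧
      (c.R t (c.Q s t y) ↔ 0 < cr (deriv c.γ s) (deriv c.γ t) * y.1) ∧
      (c.On t (c.Q s t y) ↔ y.1 = 0)) := by
  obtain ⟨W, hWo, h1, hi, -⟩ := (chart_exists (c.strict_Q s t) hκ).1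
  have a1 : HasDerivAt (fun a => c.γ (s + a)) (deriv c.γ s) 0 := by
    have := c.hasDeriv (s + 0)
    simpa using this.comp_const_add s 0
  have a2 : HasDerivAt (fun a => c.γ (t + a)) (deriv c.γ t) 0 := by
    have := c.hasDeriv (t + 0)
    simpa using this.comp_const_add t 0
  have e1 := c.compare (c.cont_Q s t) (c.Q_fst h) (hWo.mem_nhds h1) hi (ν := deriv c.γ t)
    (by simpa only [c.Q_snd] using a2) hκ
  have e2 := c.compare (s := t) (E := fun y => c.Q s t y.swap)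
    ((c.cont_Q s t).comp continuous_swap) (fun a => c.Q_snd s t a)
    (W := Prod.swap ⁻¹' W) (continuous_swap.continuousAt.preimage_mem_nhds (hWo.mem_nhds h1))
    (fun x hx y hy hxy => Prod.swap_injective (hi hx hy hxy)) (ν := deriv c.γ s)
    (by simpa only [Prod.swap_prod_mk, c.Q_fst h] using a1)
    (by rw [cr_swap]; exact neg_ne_zero.2 hκ)
  have hT : Tendsto (Prod.swap : ℝ × ℝ → ℝ × ℝ) (𝓝 0) (𝓝 0) :=
    continuous_swap.tendsto' _ _ rfl
  filter_upwards [e1, hT.eventually e2] with y h2 h3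
  refine ⟨h2, ?_⟩
  rw [cr_swap] at h3
  simpa using h3

end Imm

end Pool.Agent.MP_a5f24b_gt

end

-- part MP_a5f24b_gt.Diag
section

/-! Knot diagrams, colourings of their arcs by a group, and the flat cocycle of a colouring. -/

namespace Pool.Agent.MP_a5f24b_gt
open Set Filter Topology Complex

/-- Congruence modulo integers. -/
def Zq (s t : ℝ) : Prop := ∃ n : ℤ, t = s + n

theorem Zq.refl (s : ℝ) : Zq s s := ⟨0, by simp⟩
theorem Zq.symm {s t : ℝ} : Zq s t → Zq t s := fun ⟨n, h⟩ => ⟨-n, by simp [h]⟩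
theorem Zq.trans {s t r : ℝ} : Zq s t → Zq t r → Zq s r :=
  fun ⟨n, h⟩ ⟨m, h'⟩ => ⟨n + m, by simp [h, h', add_assoc]⟩
theorem Zq.fract (s : ℝ) : Zq (Int.fract s) s := ⟨⌊s⌋, by simp⟩
theorem Zq.per {α : Type*} {f : ℝ → α} (hf : Function.Periodic f 1) {s t : ℝ} (h : Zq s t) :
    f t = f s := by
  obtain ⟨n, rfl⟩ := h
  simpa using hf.int_mul n s
theorem Zq.eq {s t : ℝ} (h : Zq s t) (hs : s ∈ Ico (0 : ℝ) 1) (ht : t ∈ Ico (0 : ℝ) 1) : s = t := by
  obtain ⟨n, rfl⟩ := h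
  have h1 : (n : ℝ) < 1 := by linarith [hs.1, ht.2]
  have h2 : (-1 : ℝ) < n := by linarith [hs.2, ht.1]
  have h3 : n < 1 := by exact_mod_cast h1
  have h4 : -1 < n := by exact_mod_cast h2
  have : n = 0 := by omega
  simp [this]

theorem fract_mem (s : ℝ) : Int.fract s ∈ Ico (0 : ℝ) 1 := ⟨Int.fract_nonneg s, Int.fract_lt_one s⟩

open Classical in
/-- `g` if `P` holds and `1` otherwise. -/
noncomputable def pw {G : Type*} [Group G] (P : Prop) (g : G) : G := if P then g else 1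

theorem pw_pos {G : Type*} [Group G] {P : Prop} (h : P) (g : G) : pw P g = g := if_pos h
theorem pw_neg {G : Type*} [Group G] {P : Prop} (h : ¬ P) (g : G) : pw P g = 1 := if_neg h
theorem pw_congr {G : Type*} [Group G] {P Q : Prop} (h : P ↔ Q) (g : G) : pw P g = pw Q g := by
  rw [propext h]
theorem map_pw {G G' : Type*} [Group G] [Group G'] (φ : G →* G') (P : Prop) (g : G) :
    φ (pw P g) = pw P (φ g) := by
  unfold pw; split_ifs <;> simp
theorem pw_conj {G : Type*} [Group G] (P : Prop) (a g : G) :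
    pw P (a * g * a⁻¹) = a * pw P g * a⁻¹ := by
  unfold pw; split_ifs <;> simp

/-- A knot diagram whose base point `0` is not a double point. -/
structure Dg (ι : Type) extends Imm where
  h : ℝ → ℝ
  o : ι → ℝ
  u : ι → ℝ
  hc : Continuous h
  hper : Function.Periodic h 1
  o_mem : ∀ i, o i ∈ Ioo (0 : ℝ) 1
  u_mem : ∀ i, u i ∈ Ioo (0 : ℝ) 1
  ou : ∀ i, γ (o i) = γ (u i)
  lt : ∀ i, h (u i) < h (o i)
  inj : Function.Injective fun i => γ (o i)
  dbl : ∀ s ∈ Ico (0 : ℝ) 1, ∀ t ∈ Ico (0 : ℝ) 1, γ s = γ t →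
    s = t ∨ ∃ i, (s = o i ∧ t = u i) ∨ (s = u i ∧ t = o i)
  tr : ∀ i, cr (deriv γ (o i)) (deriv γ (u i)) ≠ 0

namespace Dg
variable {ι : Type} (D : Dg ι) {G : Type*} [Group G]

theorem dbl' {s t : ℝ} (h : D.γ s = D.γ t) :
    Zq s t ∨ ∃ i, (Zq (D.o i) s ∧ Zq (D.u i) t) ∨ (Zq (D.u i) s ∧ Zq (D.o i) t) := by
  have := D.dbl _ (fract_mem s) _ (fract_mem t)
    (by rw [← (Zq.fract s).per D.per, ← (Zq.fract t).per D.per, h])
  rcases this with h | ⟨i, ⟨h1, h2⟩ | ⟨h1, h2⟩⟩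
  · exact Or.inl ((Zq.fract s).symm.trans (h ▸ Zq.fract t))
  · exact Or.inr ⟨i, Or.inl ⟨h1 ▸ Zq.fract s, h2 ▸ Zq.fract t⟩⟩
  · exact Or.inr ⟨i, Or.inr ⟨h1 ▸ Zq.fract s, h2 ▸ Zq.fract t⟩⟩

theorem at_cross {i : ι} {t : ℝ} (h : D.γ t = D.γ (D.o i)) : Zq (D.o i) t ∨ Zq (D.u i) t := by
  rcases D.dbl' h.symm with h1 | ⟨j, ⟨h1, h2⟩ | ⟨h1, h2⟩⟩
  · exact Or.inl h1
  · have : j = i := D.inj (h1.per D.per).symm
    exact Or.inr (this ▸ h2)
  · have : j = i := D.inj ((D.ou j).trans (h1.per D.per).symm)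
    exact Or.inl (this ▸ h2)

theorem o_not_under (i j : ι) : ¬ Zq (D.u j) (D.o i) := by
  intro h
  have : j = i := D.inj ((D.ou j).trans (h.per D.per).symm)
  subst this
  linarith [h.per D.hper, D.lt j]

theorem zero_not_under (j : ι) : ¬ Zq (D.u j) 0 := fun h =>
  (D.u_mem j).1.ne' (h.eq (Ioo_subset_Ico_self (D.u_mem j)) ⟨le_rfl, one_pos⟩)

theorem zero_simple {t : ℝ} (h : D.γ t = D.γ 0) : Zq 0 t := by
  rcases D.dbl' h.symm with h1 | ⟨j, ⟨h1, -⟩ | ⟨h1, -⟩⟩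
  · exact h1
  · exact absurd (h1.eq (Ioo_subset_Ico_self (D.o_mem j)) ⟨le_rfl, one_pos⟩) (D.o_mem j).1.ne'
  · exact absurd h1 (D.zero_not_under j)

/-- The knot. -/
def K : Set (ℂ × ℝ) := range fun s => (D.γ s, D.h s)
/-- No strand above `w`. -/
def Zero (w : ℂ × ℝ) : Prop := ∀ s, D.γ s = w.1 → D.h s < w.2
/-- Exactly one strand above `w`. -/
def One (w : ℂ × ℝ) (s : ℝ) : Prop :=
  D.γ s = w.1 ∧ w.2 < D.h s ∧ ∀ t, D.γ t = w.1 → w.2 ≤ D.h t → Zq s t
/-- `w` is below the crossing `i`. -/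
def Two (w : ℂ × ℝ) (i : ι) : Prop := D.γ (D.o i) = w.1 ∧ w.2 < D.h (D.u i)

variable {D}

theorem Zero.notMem {w : ℂ × ℝ} (h : D.Zero w) : w ∉ D.K := by
  rintro ⟨s, rfl⟩; exact lt_irrefl _ (h s rfl)

theorem One.notMem {w : ℂ × ℝ} {s : ℝ} (h : D.One w s) : w ∉ D.K := by
  rintro ⟨t, rfl⟩
  have := (h.2.2 t rfl le_rfl).per D.hper
  linarith [h.2.1]

theorem Two.notMem {w : ℂ × ℝ} {i : ι} (h : D.Two w i) : w ∉ D.K := by
  rintro ⟨t, rfl⟩
  have h2 : D.h t < D.h (D.u i) := h.2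
  rcases D.at_cross h.1.symm with h1 | h1
  · linarith [h1.per D.hper, D.lt i]
  · linarith [h1.per D.hper]

theorem One.not_two {w : ℂ × ℝ} {s : ℝ} (h : D.One w s) (i : ι) : ¬ D.Two w i := by
  intro h2
  have h3 := (h.2.2 _ h2.1 (by linarith [h2.2, D.lt i])).per D.hper
  have h4 := (h.2.2 _ ((D.ou i).symm.trans h2.1) h2.2.le).per D.hper
  linarith [D.lt i]

theorem One.not_under {w : ℂ × ℝ} {s : ℝ} (h : D.One w s) (i : ι) : ¬ Zq (D.u i) s := by
  intro h2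
  refine h.not_two i ⟨?_, ?_⟩
  · rw [D.ou, ← h2.per D.per, h.1]
  · rw [← h2.per D.hper]; exact h.2.1

theorem cases_of_notMem {w : ℂ × ℝ} (h : w ∉ D.K) :
    D.Zero w ∨ (∃ s, D.One w s) ∨ ∃ i, D.Two w i := by
  have hne : ∀ s, D.γ s = w.1 → w.2 ≤ D.h s → w.2 < D.h s := fun s h1 h2 =>
    lt_of_le_of_ne h2 fun h3 => h ⟨s, Prod.ext h1 h3.symm⟩
  by_cases h0 : D.Zero w
  · exact Or.inl h0
  right
  simp only [Zero, not_forall, not_lt] at h0
  obtain ⟨s, h1, h2⟩ := h0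
  by_cases h3 : ∀ t, D.γ t = w.1 → w.2 ≤ D.h t → Zq s t
  · exact Or.inl ⟨s, h1, hne s h1 h2, h3⟩
  right
  simp only [not_forall] at h3
  obtain ⟨t, h4, h5, h6⟩ := h3
  rcases D.dbl' (h1.trans h4.symm) with h7 | ⟨i, ⟨h7, h8⟩ | ⟨h7, h8⟩⟩
  · exact absurd h7 h6
  · exact ⟨i, by rw [← h7.per D.per, h1], by rw [← h8.per D.hper]; exact hne t h4 h5⟩
  · exact ⟨i, by rw [← h8.per D.per, h4], by rw [← h7.per D.hper]; exact hne s h1 h2⟩

variable (D)

theorem near (w : ℂ × ℝ) {ε : ℝ} (hε : 0 < ε) : ∀ᶠ v in 𝓝 w, ∀ t, D.γ t = v.1 → v.2 ≤ D.h t →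
    ∃ s, D.γ s = w.1 ∧ w.2 ≤ D.h s ∧ |t - s| < ε := by
  have h1 : ∀ᶠ v in 𝓝 w, ∀ t ∈ Icc (0 : ℝ) 1, D.γ t = v.1 → v.2 ≤ D.h t →
      ∃ s, D.γ s = w.1 ∧ w.2 ≤ D.h s ∧ |t - s| < ε := by
    refine isCompact_Icc.eventually_forall_of_forall_eventually fun t _ => ?_
    by_cases h : D.γ t = w.1 ∧ w.2 ≤ D.h t
    · have : ∀ᶠ z : (ℂ × ℝ) × ℝ in 𝓝 (w, t), |z.2 - t| < ε := by
        have h2 : Continuous fun z : (ℂ × ℝ) × ℝ => |z.2 - t| := by fun_prop
        exact h2.continuousAt.eventually (gt_mem_nhds (by simpa using hε))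
      filter_upwards [this] with z hz _ _
      exact ⟨t, h.1, h.2, hz⟩
    · have h2 : IsClosed {z : (ℂ × ℝ) × ℝ | D.γ z.2 = z.1.1 ∧ z.1.2 ≤ D.h z.2} := by
        have := D.cont
        have := D.hc
        have a1 : IsClosed {z : (ℂ × ℝ) × ℝ | D.γ z.2 = z.1.1} :=
          isClosed_eq (by fun_prop) (by fun_prop)
        have a2 : IsClosed {z : (ℂ × ℝ) × ℝ | z.1.2 ≤ D.h z.2} :=
          isClosed_le (by fun_prop) (by fun_prop)
        exact a1.inter a2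
      filter_upwards [h2.isOpen_compl.mem_nhds (show (w, t) ∈ _ from h)] with z hz h3 h4
      exact absurd ⟨h3, h4⟩ hz
  filter_upwards [h1] with v hv t h2 h3
  obtain ⟨s, h4, h5, h6⟩ := hv (Int.fract t) (Ico_subset_Icc_self (fract_mem t))
    (by rw [← (Zq.fract t).per D.per, h2]) (by rw [← (Zq.fract t).per D.hper]; exact h3)
  refine ⟨s + ⌊t⌋, by rw [D.γ_int, h4], by rw [Zq.per D.hper ⟨⌊t⌋, rfl⟩]; exact h5, ?_⟩
  convert h6 using 2
  rw [Int.fract]; ring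

theorem above {w : ℂ × ℝ} {s : ℝ} (hs : w.2 < D.h s) :
    ∃ ε, 0 < ε ∧ ∀ᶠ v in 𝓝 w, ∀ t, |t - s| < ε → v.2 < D.h t := by
  have h1 : ∀ᶠ t in 𝓝 s, (w.2 + D.h s) / 2 < D.h t :=
    D.hc.continuousAt.eventually (lt_mem_nhds (by linarith))
  have h2 : ∀ᶠ v in 𝓝 w, v.2 < (w.2 + D.h s) / 2 :=
    continuous_snd.continuousAt.eventually (gt_mem_nhds (by linarith))
  obtain ⟨ε, hε, hb⟩ := Metric.eventually_nhds_iff.1 h1
  exact ⟨ε, hε, h2.mono fun v hv t ht => hv.trans (hb ht)⟩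

variable {D}

theorem Zero.ev {w : ℂ × ℝ} (h : D.Zero w) : ∀ᶠ v in 𝓝 w, D.Zero v := by
  filter_upwards [D.near w one_pos] with v hv t ht
  by_contra h1
  obtain ⟨s, h2, h3, -⟩ := hv t ht (not_lt.1 h1)
  linarith [h s h2]

theorem ev_fst {w : ℂ × ℝ} {p : ℂ} (h : p = w.1) {P : ℂ → Prop} (hP : ∀ᶠ q in 𝓝 p, P q) :
    ∀ᶠ v in 𝓝 w, P v.1 := by
  subst h; exact continuous_fst.continuousAt.eventually hP

theorem One.ev {w : ℂ × ℝ} {s : ℝ} (h : D.One w s) {ε : ℝ} (hε : 0 < ε) :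
    ∀ᶠ v in 𝓝 w, (D.Zero v ∧ ¬ D.On s v.1) ∨ ∃ s', |s' - s| < ε ∧ |s' - s| < D.δ ∧ D.One v s' := by
  obtain ⟨ε', hε', h1⟩ := D.above h.2.1
  filter_upwards [D.near w D.δ_pos, h1, ev_fst h.1 (D.On_near s (lt_min hε hε'))] with v h2 h3 h4
  have h5 : ∀ t, D.γ t = v.1 → v.2 ≤ D.h t → ∃ t', |t' - s| < D.δ ∧ Zq t' t := by
    intro t h6 h7
    obtain ⟨r, h8, h9, h10⟩ := h2 t h6 h7
    obtain ⟨n, rfl⟩ := h.2.2 r h8 h9
    exact ⟨t - n, by convert h10 using 2; ring, n, by ring⟩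
  by_cases hon : D.On s v.1
  · obtain ⟨t, h6, h7⟩ := hon
    have h8 := lt_min_iff.1 (h4 t h6 h7)
    refine Or.inr ⟨t, h8.1, h6, h7, h3 t h8.2, fun r h9 h10 => ?_⟩
    obtain ⟨t', h11, h12⟩ := h5 r h9 h10
    rwa [D.γ_inj_near h6 h11 (by rw [h7, ← h12.per D.per, h9])]
  · refine Or.inl ⟨fun t h6 => ?_, hon⟩
    by_contra h7
    obtain ⟨t', h11, h12⟩ := h5 t h6 (not_lt.1 h7)
    exact hon ⟨t', h11, by rw [← h12.per D.per, h6]⟩

theorem both_on (i : ι) :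
    ∀ᶠ p in 𝓝 (D.γ (D.o i)), D.On (D.o i) p → D.On (D.u i) p → D.γ (D.o i) = p := by
  rw [← D.Q_map (D.ou i) (D.tr i), eventually_map]
  filter_upwards [D.Q_sides (D.ou i) (D.tr i)] with y hy h1 h2
  obtain ⟨a, b⟩ := y
  have h3 : b = 0 := hy.1.2.2.1 h1
  have h4 : a = 0 := hy.2.2.2.1 h2
  rw [h3, h4, D.Q_fst (D.ou i), add_zero]

theorem Two.ev {w : ℂ × ℝ} {i : ι} (h : D.Two w i) {ε : ℝ} (hε : 0 < ε) :
    ∀ᶠ v in 𝓝 w, (D.Zero v ∧ ¬ D.On (D.o i) v.1 ∧ ¬ D.On (D.u i) v.1) ∨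
      (∃ s', |s' - D.o i| < ε ∧ |s' - D.o i| < D.δ ∧ D.One v s' ∧ ¬ D.On (D.u i) v.1) ∨
      (∃ s', |s' - D.u i| < ε ∧ |s' - D.u i| < D.δ ∧ D.One v s' ∧ ¬ D.On (D.o i) v.1) ∨
      D.Two v i := by
  obtain ⟨ε1, hε1, h1⟩ := D.above (h.2.trans (D.lt i))
  obtain ⟨ε2, hε2, h1'⟩ := D.above h.2
  filter_upwards [D.near w D.δ_pos, h1, h1', ev_fst h.1 (D.On_near _ (lt_min hε hε1)),
    ev_fst ((D.ou i).symm.trans h.1) (D.On_near _ (lt_min hε hε2)), ev_fst h.1 (both_on i)]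
    with v h2 h3 h3' h4 h4' hb
  have h5 : ∀ t, D.γ t = v.1 → v.2 ≤ D.h t →
      ∃ t', (|t' - D.o i| < D.δ ∨ |t' - D.u i| < D.δ) ∧ Zq t' t := by
    intro t h6 h7
    obtain ⟨r, h8, -, h10⟩ := h2 t h6 h7
    rcases D.at_cross (h8.trans h.1.symm) with ⟨n, rfl⟩ | ⟨n, rfl⟩
    · exact ⟨t - n, Or.inl (by convert h10 using 2; ring), n, by ring⟩
    · exact ⟨t - n, Or.inr (by convert h10 using 2; ring), n, by ring⟩
  by_cases ho : D.On (D.o i) v.1 <;> by_cases hu : D.On (D.u i) v.1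
  · exact Or.inr (Or.inr (Or.inr ⟨hb ho hu, h3' _ (by simpa using hε2)⟩))
  · obtain ⟨t, h6, h7⟩ := ho
    have h8 := lt_min_iff.1 (h4 t h6 h7)
    refine Or.inr (Or.inl ⟨t, h8.1, h6, ⟨h7, h3 t h8.2, fun r h9 h10 => ?_⟩, hu⟩)
    obtain ⟨t', h11 | h11, h12⟩ := h5 r h9 h10
    · rwa [D.γ_inj_near h6 h11 (by rw [h7, ← h12.per D.per, h9])]
    · exact absurd ⟨t', h11, by rw [← h12.per D.per, h9]⟩ hu
  · obtain ⟨t, h6, h7⟩ := hu
    have h8 := lt_min_iff.1 (h4' t h6 h7)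
    refine Or.inr (Or.inr (Or.inl ⟨t, h8.1, h6, ⟨h7, h3' t h8.2, fun r h9 h10 => ?_⟩, ho⟩))
    obtain ⟨t', h11 | h11, h12⟩ := h5 r h9 h10
    · exact absurd ⟨t', h11, by rw [← h12.per D.per, h9]⟩ ho
    · rwa [D.γ_inj_near h6 h11 (by rw [h7, ← h12.per D.per, h9])]
  · refine Or.inl ⟨fun t h6 => ?_, ho, hu⟩
    by_contra h7
    obtain ⟨t', h11 | h11, h12⟩ := h5 t h6 (not_lt.1 h7)
    · exact ho ⟨t', h11, by rw [← h12.per D.per, h6]⟩
    · exact hu ⟨t', h11, by rw [← h12.per D.per, h6]⟩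

variable (D)

/-- The determinant of the two tangent vectors at a crossing. -/
noncomputable def κ (i : ι) : ℝ := cr (deriv D.γ (D.o i)) (deriv D.γ (D.u i))

/-- The Wirtinger relation at the crossing `i`. -/
def C2 (col : ℝ → G) (i : ι) : Prop :=
  ∀ᶠ s in 𝓝 (D.u i), col s = pw (0 < D.κ i * (s - D.u i)) (col (D.o i)) * col (D.u i) *
    (pw (0 < D.κ i * (s - D.u i)) (col (D.o i)))⁻¹

/-- A colouring of the diagram cut open at the base point. -/
structure IsLong (col : ℝ → G) : Prop where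
  per : Function.Periodic col 1
  c1 : ∀ s, ¬ Zq 0 s → (∀ i, ¬ Zq (D.u i) s) → ∀ᶠ s' in 𝓝 s, col s' = col s
  c2 : ∀ i, D.C2 col i

/-- A colouring of the diagram. -/
structure IsCol (col : ℝ → G) : Prop where
  per : Function.Periodic col 1
  c1 : ∀ s, (∀ i, ¬ Zq (D.u i) s) → ∀ᶠ s' in 𝓝 s, col s' = col s
  c2 : ∀ i, D.C2 col i

open Classical in
/-- The cocycle of a colouring. -/
noncomputable def cc (col : ℝ → G) (w v : ℂ × ℝ) : G :=
  if h : ∃ i, D.Two w i then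
    pw (D.L (D.o h.choose) v.1) (col (D.o h.choose)) * pw (D.L (D.u h.choose) v.1) (col (D.u h.choose))
  else if h : ∃ s, D.One w s then pw (D.L h.choose v.1) (col h.choose) else 1

variable {D}

theorem cc_two (col : ℝ → G) {w : ℂ × ℝ} {i : ι} (h : D.Two w i) (v : ℂ × ℝ) :
    D.cc col w v = pw (D.L (D.o i) v.1) (col (D.o i)) * pw (D.L (D.u i) v.1) (col (D.u i)) := by
  have h1 : ∃ i, D.Two w i := ⟨i, h⟩
  have h2 : h1.choose = i := D.inj (h1.choose_spec.1.trans h.1.symm)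
  rw [cc, dif_pos h1, h2]

theorem cc_one {col : ℝ → G} (hp : Function.Periodic col 1) {w : ℂ × ℝ} {s : ℝ} (h : D.One w s)
    (v : ℂ × ℝ) : D.cc col w v = pw (D.L s v.1) (col s) := by
  have h1 : ∃ s, D.One w s := ⟨s, h⟩
  have h2 := h.2.2 _ h1.choose_spec.1 h1.choose_spec.2.1.le
  rw [cc, dif_neg (fun ⟨i, hi⟩ => h.not_two i hi), dif_pos h1, h2.per hp]
  obtain ⟨n, hn⟩ := h2
  rw [hn, D.L_int]

theorem cc_zero (col : ℝ → G) {w : ℂ × ℝ} (h : D.Zero w) (v : ℂ × ℝ) : D.cc col w v = 1 := by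
  rw [cc, dif_neg, dif_neg]
  · rintro ⟨s, hs⟩; linarith [h s hs.1, hs.2.1]
  · rintro ⟨i, hi⟩; linarith [h _ hi.1, hi.2, D.lt i]

theorem map_cc {G' : Type*} [Group G'] (φ : G →* G') (col : ℝ → G) (w v : ℂ × ℝ) :
    φ (D.cc col w v) = D.cc (fun s => φ (col s)) w v := by
  unfold cc
  split_ifs <;> simp [map_pw]

theorem flat_zero (col : ℝ → G) {w : ℂ × ℝ} (h : D.Zero w) : FlatAt (D.cc col) w := by
  filter_upwards [h.ev] with v hv
  exact Eventually.of_forall fun u => by simp [cc_zero col h, cc_zero col hv]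

theorem flat_one {col : ℝ → G} (hp : Function.Periodic col 1) {w : ℂ × ℝ} {s : ℝ} (h : D.One w s)
    (h1 : ∀ᶠ s' in 𝓝 s, col s' = col s) : FlatAt (D.cc col) w := by
  obtain ⟨ε, hε, hb⟩ := Metric.eventually_nhds_iff.1 h1
  filter_upwards [h.ev hε, ev_fst h.1 (D.L_loc s)] with v hv hl
  rcases hv with ⟨h2, h3⟩ | ⟨s', h2, h3, h4⟩
  · filter_upwards [ev_fst rfl (hl h3)] with u hu
    rw [cc_zero col h2, cc_one hp h, cc_one hp h, pw_congr hu, one_mul]
  · filter_upwards [ev_fst h4.1 (D.L_near h3)] with u hu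
    rw [cc_one hp h4, cc_one hp h, cc_one hp h, pw_congr hu, hb h2,
      pw_neg (D.not_L_of_On ⟨s', h3, h4.1⟩), mul_one]

theorem side_under (i : ι) :
    ∀ᶠ s in 𝓝 (D.u i), (D.L (D.o i) (D.γ s) ↔ 0 < D.κ i * (s - D.u i)) :=
  (D.side_curve (D.hasDeriv (D.u i)) (D.ou i).symm (D.tr i)).mono fun _ h => h.1

theorem flat_two {col : ℝ → G} (hp : Function.Periodic col 1) {w : ℂ × ℝ} {i : ι} (h : D.Two w i)
    (h1 : ∀ᶠ s' in 𝓝 (D.o i), col s' = col (D.o i)) (h2 : D.C2 col i) : FlatAt (D.cc col) w := by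
  obtain ⟨ε1, hε1, hb1⟩ := Metric.eventually_nhds_iff.1 h1
  obtain ⟨ε2, hε2, hb2⟩ := Metric.eventually_nhds_iff.1 (h2.and (side_under i))
  filter_upwards [h.ev (lt_min hε1 hε2), ev_fst h.1 (D.L_loc _),
    ev_fst ((D.ou i).symm.trans h.1) (D.L_loc _)] with v hv hl hl'
  rcases hv with ⟨h2, h3, h3'⟩ | ⟨s', h2, h3, h4, h5⟩ | ⟨s', h2, h3, h4, h5⟩ | h2
  · filter_upwards [ev_fst rfl (hl h3), ev_fst rfl (hl' h3')] with u hu hu'
    rw [cc_zero col h2, cc_two col h, cc_two col h, pw_congr hu, pw_congr hu', one_mul]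
  · filter_upwards [ev_fst h4.1 (D.L_near h3), ev_fst rfl (hl' h5)] with u hu hu'
    rw [cc_one hp h4, cc_two col h, cc_two col h, pw_congr hu, pw_congr hu',
      hb1 (lt_min_iff.1 h2).1, pw_neg (D.not_L_of_On ⟨s', h3, h4.1⟩), one_mul]
  · filter_upwards [ev_fst h4.1 (D.L_near h3), ev_fst rfl (hl h5)] with u hu hu'
    obtain ⟨h6, h7⟩ := hb2 (lt_min_iff.1 h2).2
    rw [cc_one hp h4, cc_two col h, cc_two col h, pw_congr hu, pw_congr hu', h6,
      pw_neg (D.not_L_of_On ⟨s', h3, h4.1⟩), mul_one, ← pw_congr h7, h4.1, pw_conj]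
    group
  · refine Eventually.of_forall fun u => ?_
    rw [cc_two col h2, cc_two col h, cc_two col h, ← h2.1, pw_neg (D.not_L_of_On (D.On_self _)),
      D.ou i, pw_neg (D.not_L_of_On (D.On_self _)), mul_one, mul_one]

theorem IsCol.flat {col : ℝ → G} (hc : D.IsCol col) {w : ℂ × ℝ} (hw : w ∉ D.K) :
    FlatAt (D.cc col) w := by
  rcases cases_of_notMem hw with h | ⟨s, h⟩ | ⟨i, h⟩
  · exact flat_zero col h
  · exact flat_one hc.per h (hc.c1 s h.not_under)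
  · exact flat_two hc.per h (hc.c1 _ (D.o_not_under i)) (hc.c2 i)

theorem IsLong.flat {col : ℝ → G} (hc : D.IsLong col) {w : ℂ × ℝ} (hw : w ∉ D.K)
    (h0 : w.1 ≠ D.γ 0) : FlatAt (D.cc col) w := by
  rcases cases_of_notMem hw with h | ⟨s, h⟩ | ⟨i, h⟩
  · exact flat_zero col h
  · exact flat_one hc.per h (hc.c1 s (fun h1 => h0 (by rw [← h.1, h1.per D.per])) h.not_under)
  · exact flat_two hc.per h (hc.c1 _ (fun h1 => h0 (by rw [← h.1, h1.per D.per]))
      (D.o_not_under i)) (hc.c2 i)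

theorem IsCol.map {G' : Type*} [Group G'] {col : ℝ → G} (hc : D.IsCol col) (φ : G →* G') :
    D.IsCol fun s => φ (col s) where
  per := fun s => by simp only [hc.per s]
  c1 := fun s hs => (hc.c1 s hs).mono fun _ h => by rw [h]
  c2 := fun i => (hc.c2 i).mono fun _ h => by simp only [h, map_mul, map_inv, map_pw]

end Dg

end Pool.Agent.MP_a5f24b_gt

end

-- part MP_a5f24b_gt.Wirt
section

/-! The Wirtinger theorem in cocycle form: flat cocycles on the knot complement correspond to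
colourings of the diagram. -/

namespace Pool.Agent.MP_a5f24b_gt
open Set Filter Topology Complex

namespace Dg
variable {ι : Type} {D : Dg ι} {G : Type*} [Group G]

theorem compact_K : IsCompact D.K := by
  have h1 := D.cont
  have h2 := D.hc
  refine Function.Periodic.compact_of_continuous (c := 1) (fun s => ?_) one_ne_zero (by fun_prop)
  simp only [D.per s, D.hper s]

theorem ev_notMem {w : ℂ × ℝ} (h : w ∉ D.K) : ∀ᶠ v in 𝓝 w, v ∉ D.K :=
  compact_K.isClosed.isOpen_compl.mem_nhds h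

theorem exists_M : ∃ M, ∀ s, |D.h s| < M := by
  obtain ⟨M, hM⟩ := (D.hper.isBounded_of_continuous one_ne_zero D.hc).exists_norm_le
  exact ⟨M + 1, fun s => by linarith [hM _ ⟨s, rfl⟩, Real.norm_eq_abs (D.h s)]⟩

theorem exists_R : ∃ R, ∀ s, ‖D.γ s‖ ≤ R := by
  obtain ⟨M, hM⟩ := (D.per.isBounded_of_continuous one_ne_zero D.cont).exists_norm_le
  exact ⟨M, fun s => hM _ ⟨s, rfl⟩⟩

theorem freq_zero (w : ℂ × ℝ) : ∃ᶠ v in 𝓝 w, D.Zero v := by
  have h1 : Dense (range D.γ)ᶜ :=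
    (D.smooth.of_le (by norm_num)).dense_compl_range_of_finrank_lt_finrank (by simp)
  have h2 : Dense ((range D.γ)ᶜ ×ˢ (univ : Set ℝ)) := h1.prod dense_univ
  exact (mem_closure_iff_frequently.1 (h2 w)).mono fun v hv s hs => absurd ⟨s, hs⟩ hv.1

theorem Zero.not_one {w : ℂ × ℝ} (h : D.Zero w) (s : ℝ) : ¬ D.One w s :=
  fun hs => by linarith [h s hs.1, hs.2.1]

theorem Zero.not_two {w : ℂ × ℝ} (h : D.Zero w) (i : ι) : ¬ D.Two w i :=
  fun hi => by linarith [h _ hi.1, hi.2, D.lt i]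

theorem One.zero_iff {w : ℂ × ℝ} {s : ℝ} (h : D.One w s) :
    ∀ᶠ v in 𝓝 w, (D.Zero v ↔ ¬ D.On s v.1) := by
  filter_upwards [h.ev one_pos] with v hv
  rcases hv with ⟨h1, h2⟩ | ⟨s', -, h1, h2⟩
  · simp [h1, h2]
  · exact ⟨fun h3 => absurd h2 (h3.not_one _), fun h3 => absurd ⟨s', h1, h2.1⟩ h3⟩

theorem Two.zero_iff {w : ℂ × ℝ} {i : ι} (h : D.Two w i) :
    ∀ᶠ v in 𝓝 w, (D.Zero v ↔ ¬ D.On (D.o i) v.1 ∧ ¬ D.On (D.u i) v.1) := by
  filter_upwards [h.ev one_pos] with v hv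
  rcases hv with ⟨h1, h2⟩ | ⟨s', -, h1, h2, -⟩ | ⟨s', -, h1, h2, -⟩ | h2
  · simp [h1, h2]
  · exact ⟨fun h3 => absurd h2 (h3.not_one _), fun h3 => absurd ⟨s', h1, h2.1⟩ h3.1⟩
  · exact ⟨fun h3 => absurd h2 (h3.not_one _), fun h3 => absurd ⟨s', h1, h2.1⟩ h3.2⟩
  · exact ⟨fun h3 => absurd h2 (h3.not_two _), fun h3 => absurd (h2.1 ▸ D.On_self _) h3.1⟩

theorem ev_chart {E : ℝ × ℝ → ℂ} {x : ℝ × ℝ} {w : ℂ × ℝ} (h : map E (𝓝 x) = 𝓝 w.1)
    {P : ℂ × ℝ → Prop} : (∀ᶠ v in 𝓝 w, P v) ↔ ∀ᶠ y in 𝓝 (x, w.2), P (E y.1, y.2) := by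
  have : 𝓝 w = map (fun y : (ℝ × ℝ) × ℝ => (E y.1, y.2)) (𝓝 (x, w.2)) := by
    rw [nhds_prod_eq (x := x), show 𝓝 w = 𝓝 w.1 ×ˢ 𝓝 w.2 from nhds_prod_eq, ← h]
    conv_lhs => rw [← map_id (f := 𝓝 w.2)]
    rw [prod_map_map_eq]; rfl
  rw [this, eventually_map]

theorem One.map_N {w : ℂ × ℝ} {s : ℝ} (h : D.One w s) : map D.N (𝓝 (s, 0)) = 𝓝 w.1 := by
  rw [D.N_map s (Metric.mem_ball_self D.δ_pos), D.N_zero, h.1]

theorem conv_half (f : (ℝ × ℝ) × ℝ →ₗ[ℝ] ℝ) : Convex ℝ {y | 0 < f y} :=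
  convex_halfSpace_gt f.isLinear 0

theorem One.const {w : ℂ × ℝ} {s : ℝ} (h : D.One w s) {F : ℂ × ℝ → G}
    (hF : ∀ᶠ v in 𝓝 w, D.Zero v → ∀ᶠ u in 𝓝 v, F u = F v) :
    ∃ j k, ∀ᶠ v in 𝓝 w, D.Zero v → F v = pw (D.L s v.1) j * k := by
  have hc : Continuous fun y : (ℝ × ℝ) × ℝ => (D.N y.1, y.2) := by
    have := D.cont_N
    fun_prop
  have hb : ∀ᶠ y in 𝓝 ((s, (0 : ℝ)), w.2), y.1 ∈ Metric.ball (s, (0 : ℝ)) D.δ :=
    continuous_fst.continuousAt.eventually (Metric.ball_mem_nhds _ D.δ_pos)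
  have h1 : ∀ᶠ y in 𝓝 ((s, (0 : ℝ)), w.2), y.1.2 ≠ 0 →
      ∀ᶠ y' in 𝓝 y, F (D.N y'.1, y'.2) = F (D.N y.1, y.2) := by
    filter_upwards [(ev_chart h.map_N).1 (hF.and h.zero_iff), hb] with y hy hy' h2
    exact hc.continuousAt.eventually (hy.1 (hy.2.2 (by rw [D.On_N hy']; exact h2)))
  obtain ⟨kp, hp⟩ := const_on_convex (F := fun y : (ℝ × ℝ) × ℝ => F (D.N y.1, y.2))
    (conv_half ((LinearMap.snd ℝ ℝ ℝ).comp (LinearMap.fst ℝ _ ℝ)))
    (h1.mono fun y hy h2 => hy (ne_of_gt h2))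
  obtain ⟨km, hm⟩ := const_on_convex (F := fun y : (ℝ × ℝ) × ℝ => F (D.N y.1, y.2))
    (conv_half (-(LinearMap.snd ℝ ℝ ℝ).comp (LinearMap.fst ℝ _ ℝ)))
    (h1.mono fun y hy h2 => hy (by intro h3; simp [h3] at h2))
  refine ⟨kp * km⁻¹, km, (ev_chart h.map_N).2 ?_⟩
  filter_upwards [hp, hm, hb, (ev_chart h.map_N).1 h.zero_iff] with y h2 h3 h4 h5 h6
  have h7 : y.1.2 ≠ 0 := by rw [Ne, ← D.On_N h4]; exact h5.1 h6
  rcases lt_or_gt_of_ne h7 with h8 | h8
  · rw [h3 (by simpa using h8), pw_neg (by rw [D.L_N h4]; linarith), one_mul]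
  · rw [h2 (by simpa using h8), pw_pos ((D.L_N h4).2 h8)]; group

theorem One.freq {w : ℂ × ℝ} {s : ℝ} (h : D.One w s) :
    (∃ᶠ v in 𝓝 w, D.Zero v ∧ D.L s v.1) ∧ ∃ᶠ v in 𝓝 w, D.Zero v ∧ ¬ D.L s v.1 := by
  have hT : Tendsto (fun r : ℝ => (D.N (s, r), w.2)) (𝓝 0) (𝓝 w) := by
    have := D.cont_N
    refine Continuous.tendsto' (by fun_prop) _ _ ?_
    rw [D.N_zero, h.1]
  have hb : ∀ᶠ r in 𝓝 (0 : ℝ), (s, r) ∈ Metric.ball (s, (0 : ℝ)) D.δ :=
    (Continuous.tendsto' (by fun_prop) _ _ rfl :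
      Tendsto (fun r : ℝ => (s, r)) (𝓝 0) (𝓝 (s, 0))).eventually (Metric.ball_mem_nhds _ D.δ_pos)
  constructor
  · refine hT.frequently (((frequently_gt_nhds 0).and_eventually
      (hb.and (hT.eventually h.zero_iff))).mono fun r ⟨h1, h2, h3⟩ => ⟨h3.2 ?_, (D.L_N h2).2 h1⟩)
    rw [D.On_N h2]; exact h1.ne'
  · refine hT.frequently (((frequently_lt_nhds 0).and_eventually
      (hb.and (hT.eventually h.zero_iff))).mono fun r ⟨h1, h2, h3⟩ => ⟨h3.2 ?_, ?_⟩)
    · rw [D.On_N h2]; exact h1.ne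
    · rw [D.L_N h2]; exact not_lt.2 h1.le

theorem Two.const {w : ℂ × ℝ} {i : ι} (h : D.Two w i) {F : ℂ × ℝ → G}
    (hF : ∀ᶠ v in 𝓝 w, D.Zero v → ∀ᶠ u in 𝓝 v, F u = F v) :
    ∃ g : Prop → Prop → G, ∀ᶠ v in 𝓝 w, D.Zero v → F v = g (D.L (D.o i) v.1) (D.L (D.u i) v.1) := by
  classical
  have hc : Continuous fun y : (ℝ × ℝ) × ℝ => (D.Q (D.o i) (D.u i) y.1, y.2) := by
    have := D.cont_Q (D.o i) (D.u i)
    fun_prop
  have hm : map (D.Q (D.o i) (D.u i)) (𝓝 0) = 𝓝 w.1 := by rw [D.Q_map (D.ou i) (D.tr i), h.1]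
  have hs := (continuous_fst.continuousAt (x := ((0 : ℝ × ℝ), w.2))).eventually
    (D.Q_sides (D.ou i) (D.tr i))
  have hκ := D.tr i
  generalize cr (deriv D.γ (D.o i)) (deriv D.γ (D.u i)) = κ at hs hκ
  have h1 : ∀ᶠ y in 𝓝 ((0 : ℝ × ℝ), w.2), y.1.1 ≠ 0 → y.1.2 ≠ 0 → ∀ᶠ y' in 𝓝 y,
      F (D.Q (D.o i) (D.u i) y'.1, y'.2) = F (D.Q (D.o i) (D.u i) y.1, y.2) := by
    filter_upwards [(ev_chart hm).1 (hF.and h.zero_iff), hs] with y hy hy' h2 h3
    exact hc.continuousAt.eventually (hy.1 (hy.2.2 ⟨by rw [hy'.1.2.2]; exact h3,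
      by rw [hy'.2.2.2]; exact h2⟩))
  have h2 : ∀ a b : ℝ, ∃ k, ∀ᶠ y in 𝓝 ((0 : ℝ × ℝ), w.2), 0 < a * y.1.2 → 0 < b * y.1.1 →
      F (D.Q (D.o i) (D.u i) y.1, y.2) = k := by
    intro a b
    obtain ⟨k, hk⟩ := const_on_convex
      (F := fun y : (ℝ × ℝ) × ℝ => F (D.Q (D.o i) (D.u i) y.1, y.2))
      ((conv_half (a • (LinearMap.snd ℝ ℝ ℝ).comp (LinearMap.fst ℝ _ ℝ))).inter
        (conv_half (b • (LinearMap.fst ℝ ℝ ℝ).comp (LinearMap.fst ℝ _ ℝ))))
      (h1.mono fun y hy h2 => hy (by intro h3; simp [h3] at h2) (by intro h3; simp [h3] at h2))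
    exact ⟨k, hk.mono fun y hy h3 h4 => hy ⟨by simpa using h3, by simpa using h4⟩⟩
  choose k hk using h2
  refine ⟨fun A B => k (if A then κ else -κ) (if B then -κ else κ), (ev_chart hm).2 ?_⟩
  filter_upwards [hs, (ev_chart hm).1 h.zero_iff, hk κ κ, hk κ (-κ), hk (-κ) κ, hk (-κ) (-κ)]
    with y h3 h4 e1 e2 e3 e4 h5
  have h6 := h4.1 h5
  rw [h3.1.2.2, h3.2.2.2] at h6
  have a1 : κ * y.1.2 ≠ 0 := mul_ne_zero hκ h6.1
  have a2 : κ * y.1.1 ≠ 0 := mul_ne_zero hκ h6.2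
  simp only [h3.1.1, h3.2.1]
  rcases lt_or_gt_of_ne a1 with b1 | b1 <;> rcases lt_or_gt_of_ne a2 with b2 | b2
  · rw [if_neg (by linarith), if_pos b2]; exact e4 (by linarith) (by linarith)
  · rw [if_neg (by linarith), if_neg (by linarith)]; exact e3 (by linarith) b2
  · rw [if_pos b1, if_pos b2]; exact e2 b1 (by linarith)
  · rw [if_pos b1, if_neg (by linarith)]; exact e1 b1 b2

theorem tendsto_along {w : ℂ × ℝ} {s : ℝ} (h : D.γ s = w.1) :
    Tendsto (fun s' => (D.γ s', w.2)) (𝓝 s) (𝓝 w) := by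
  have := D.cont
  exact Continuous.tendsto' (by fun_prop) _ _ (by rw [h])

theorem ev_δ (s : ℝ) : ∀ᶠ s' in 𝓝 s, |s' - s| < D.δ := Metric.ball_mem_nhds s D.δ_pos

theorem One.along {w : ℂ × ℝ} {s : ℝ} (h : D.One w s) : ∀ᶠ s' in 𝓝 s, D.One (D.γ s', w.2) s' := by
  filter_upwards [(tendsto_along h.1).eventually (h.ev one_pos), ev_δ (D := D) s] with s' h1 h2
  rcases h1 with ⟨-, h3⟩ | ⟨t, -, h3, h4⟩
  · exact absurd ⟨s', h2, rfl⟩ h3
  · rwa [D.γ_inj_near h3 h2 h4.1] at h4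

theorem Two.along_o {w : ℂ × ℝ} {i : ι} (h : D.Two w i) : ∀ᶠ s' in 𝓝 (D.o i), s' ≠ D.o i →
    D.One (D.γ s', w.2) s' ∧ ¬ D.On (D.u i) (D.γ s') := by
  filter_upwards [(tendsto_along h.1).eventually (h.ev one_pos), ev_δ (D := D) (D.o i)]
    with s' h1 h2 hne
  rcases h1 with ⟨-, h3, -⟩ | ⟨t, -, h3, h4, h5⟩ | ⟨t, -, -, -, h3⟩ | h3
  · exact absurd ⟨s', h2, rfl⟩ h3
  · rw [D.γ_inj_near h3 h2 h4.1] at h4; exact ⟨h4, h5⟩
  · exact absurd ⟨s', h2, rfl⟩ h3
  · exact absurd (D.γ_inj_near h2 (by simp [D.δ_pos]) h3.1.symm) hne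

theorem Two.along_u {w : ℂ × ℝ} {i : ι} (h : D.Two w i) : ∀ᶠ s' in 𝓝 (D.u i), s' ≠ D.u i →
    D.One (D.γ s', w.2) s' ∧ ¬ D.On (D.o i) (D.γ s') := by
  filter_upwards [(tendsto_along ((D.ou i).symm.trans h.1)).eventually (h.ev one_pos),
    ev_δ (D := D) (D.u i)] with s' h1 h2 hne
  rcases h1 with ⟨-, -, h3⟩ | ⟨t, -, -, -, h3⟩ | ⟨t, -, h3, h4, h5⟩ | h3
  · exact absurd ⟨s', h2, rfl⟩ h3
  · exact absurd ⟨s', h2, rfl⟩ h3
  · rw [D.γ_inj_near h3 h2 h4.1] at h4; exact ⟨h4, h5⟩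
  · exact absurd (D.γ_inj_near h2 (by simp [D.δ_pos]) (h3.1.symm.trans (D.ou i))) hne

theorem exists_one {s : ℝ} (hs : ∀ i, ¬ Zq (D.u i) s) : ∃ z, D.One (D.γ s, z) s := by
  by_cases h : ∃ i, Zq (D.o i) s
  · obtain ⟨i, hi⟩ := h
    refine ⟨(D.h (D.u i) + D.h (D.o i)) / 2, rfl, ?_, fun t h1 h2 => ?_⟩
    · simp only [hi.per D.hper]; linarith [D.lt i]
    · rcases D.at_cross (h1.trans (hi.per D.per)) with h3 | h3
      · exact hi.symm.trans h3
      · simp only [h3.per D.hper] at h2; linarith [D.lt i]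
  · refine ⟨D.h s - 1, rfl, by simp, fun t h1 _ => ?_⟩
    rcases D.dbl' h1.symm with h3 | ⟨i, ⟨h3, -⟩ | ⟨h3, -⟩⟩
    · exact h3
    · exact absurd ⟨i, h3⟩ h
    · exact absurd h3 (hs i)

/-- The jump of `c w` across the strand `s` is `j`. -/
def J (D : Dg ι) (c : ℂ × ℝ → ℂ × ℝ → G) (w : ℂ × ℝ) (s : ℝ) (j : G) : Prop :=
  ∃ k, ∀ᶠ v in 𝓝 w, D.Zero v → c w v = pw (D.L s v.1) j * k

theorem J.uniq {c : ℂ × ℝ → ℂ × ℝ → G} {w : ℂ × ℝ} {s : ℝ} {j j' : G} (h : D.One w s)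
    (h1 : D.J c w s j) (h2 : D.J c w s j') : j = j' := by
  obtain ⟨k, hk⟩ := h1
  obtain ⟨k', hk'⟩ := h2
  obtain ⟨v, ⟨a1, a2⟩, a3, a4⟩ := (h.freq.1.and_eventually (hk.and hk')).exists
  obtain ⟨v', ⟨b1, b2⟩, b3, b4⟩ := (h.freq.2.and_eventually (hk.and hk')).exists
  have e1 := (a3 a1).symm.trans (a4 a1)
  have e2 := (b3 b1).symm.trans (b4 b1)
  rw [pw_pos a2, pw_pos a2] at e1
  rw [pw_neg b2, pw_neg b2, one_mul, one_mul] at e2
  rw [e2] at e1
  exact mul_right_cancel e1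

theorem J.persist {c : ℂ × ℝ → ℂ × ℝ → G} {w : ℂ × ℝ} {s : ℝ} {j : G} (hf : FlatAt c w)
    (h1 : D.J c w s j) : ∀ᶠ v in 𝓝 w, ∀ s', |s' - s| < D.δ → D.γ s' = v.1 → D.J c v s' j := by
  obtain ⟨k, hk⟩ := h1
  filter_upwards [hf, hk.eventually_nhds] with v h2 h3 s' h4 h5
  refine ⟨k * (c w v)⁻¹, ?_⟩
  filter_upwards [h2, h3, ev_fst h5 (D.L_near h4)] with u e1 e2 e3 e4
  rw [pw_congr e3, ← mul_assoc, ← e2 e4, e1]; group

/-- Gauge equivalence on the knot complement. -/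
def Gauge (D : Dg ι) (c c' : ℂ × ℝ → ℂ × ℝ → G) : Prop :=
  ∃ b : ℂ × ℝ → G, ∀ w ∉ D.K, ∀ᶠ u in 𝓝 w, c' w u = b u * c w u * (b w)⁻¹

theorem exists_col0 {c : ℂ × ℝ → ℂ × ℝ → G} (hf : ∀ w ∉ D.K, FlatAt c w)
    (h0 : ∀ w, D.Zero w → ∀ᶠ u in 𝓝 w, c w u = 1) :
    ∃ col : ℝ → G, ∀ w s, D.One w s → D.J c w s (col s) := by
  have hloc : ∀ w ∉ D.K, ∀ᶠ v in 𝓝 w, D.Zero v → ∀ᶠ u in 𝓝 v, c w u = c w v := by
    intro w hw
    filter_upwards [hf w hw] with v h1 h2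
    filter_upwards [h1, h0 v h2] with u h3 h4
    rw [h3, h4, one_mul]
  have h1 : ∀ s z, ∃ j, D.One (D.γ s, z) s → D.J c (D.γ s, z) s j := by
    intro s z
    by_cases h : D.One (D.γ s, z) s
    · obtain ⟨j, k, hk⟩ := h.const (hloc _ h.notMem)
      exact ⟨j, fun _ => ⟨k, hk⟩⟩
    · exact ⟨1, fun h' => absurd h' h⟩
  choose j hj using h1
  have h2 : ∀ s z z', D.One (D.γ s, z) s → D.One (D.γ s, z') s → j s z = j s z' := by
    intro s z z' hz hz'
    have hoc : OrdConnected {z | D.One (D.γ s, z) s} :=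
      ⟨fun x hx y hy r hr => ⟨rfl, hr.2.trans_lt hy.2.1, fun t h3 h4 => hx.2.2 t h3 (hr.1.trans h4)⟩⟩
    refine const_of_loc (F := j s) hoc.isPreconnected (fun x hx => ?_) hz hz'
    have hT : Tendsto (fun z => (D.γ s, z)) (𝓝 x) (𝓝 (D.γ s, x)) :=
      Continuous.tendsto' (by fun_prop) _ _ rfl
    filter_upwards [nhdsWithin_le_nhds (hT.eventually ((hj s x hx).persist (hf _ hx.notMem))),
      self_mem_nhdsWithin] with y h3 h4
    exact J.uniq h4 (hj s y h4) (h3 s (by simp [D.δ_pos]) rfl)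
  classical
  refine ⟨fun s => if h : ∃ z, D.One (D.γ s, z) s then j s h.choose else 1, fun w s h => ?_⟩
  obtain ⟨p, z⟩ := w
  have h3 : D.γ s = p := h.1
  subst h3
  have h4 : ∃ z, D.One (D.γ s, z) s := ⟨z, h⟩
  simp only [dif_pos h4]
  rw [h2 s _ z h4.choose_spec h]
  exact hj s z h

theorem col0_loc {c : ℂ × ℝ → ℂ × ℝ → G} (hf : ∀ w ∉ D.K, FlatAt c w) {col : ℝ → G}
    (hcol : ∀ w s, D.One w s → D.J c w s (col s)) {s : ℝ} (hs : ∀ i, ¬ Zq (D.u i) s) :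
    ∀ᶠ s' in 𝓝 s, (∀ i, ¬ Zq (D.u i) s') ∧ col s' = col s := by
  obtain ⟨z, hz⟩ := exists_one hs
  filter_upwards [hz.along, (tendsto_along hz.1).eventually
    ((hcol _ _ hz).persist (hf _ hz.notMem)), ev_δ (D := D) s] with s' h1 h2 h3
  exact ⟨h1.not_under, J.uniq h1 (hcol _ _ h1) (h2 s' h3 rfl)⟩

theorem two_struct {c : ℂ × ℝ → ℂ × ℝ → G} (hf : ∀ w ∉ D.K, FlatAt c w)
    (h0 : ∀ w, D.Zero w → ∀ᶠ u in 𝓝 w, c w u = 1) {col : ℝ → G}
    (hcol : ∀ w s, D.One w s → D.J c w s (col s)) {w : ℂ × ℝ} {i : ι} (h : D.Two w i) :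
    ∃ b k, (∀ᶠ v in 𝓝 w, D.Zero v →
      c w v = pw (D.L (D.o i) v.1) (col (D.o i)) * pw (D.L (D.u i) v.1) b * k) ∧
      ∀ᶠ s in 𝓝 (D.u i), s ≠ D.u i → col s = pw (0 < D.κ i * (s - D.u i)) (col (D.o i)) * b *
        (pw (0 < D.κ i * (s - D.u i)) (col (D.o i)))⁻¹ := by
  have hloc : ∀ᶠ v in 𝓝 w, D.Zero v → ∀ᶠ u in 𝓝 v, c w u = c w v := by
    filter_upwards [hf w h.notMem] with v h1 h2
    filter_upwards [h1, h0 v h2] with u h3 h4
    rw [h3, h4, one_mul]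
  obtain ⟨g, hg⟩ := h.const hloc
  have hgp : ∀ (A : Prop) (f : Prop → G), f A = pw A (f True * (f False)⁻¹) * f False := by
    intro A f
    by_cases hA : A
    · rw [pw_pos hA, eq_true hA]; group
    · rw [pw_neg hA, eq_false hA]; group
  have ho : ∀ᶠ s in 𝓝 (D.o i), s ≠ D.o i →
      col (D.o i) = g True (D.L (D.u i) (D.γ s)) * (g False (D.L (D.u i) (D.γ s)))⁻¹ := by
    filter_upwards [h.along_o, (tendsto_along h.1).eventually ((hf w h.notMem).and
      (hg.eventually_nhds.and (ev_fst ((D.ou i).symm.trans h.1) (D.L_loc _)))),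
      ev_δ (D := D) (D.o i), col0_loc hf hcol (D.o_not_under i)] with s h1 ⟨h2, h3, h4⟩ h5 h6 hne
    rw [← h6.2]
    refine J.uniq (h1 hne).1 (hcol _ _ (h1 hne).1)
      ⟨g False (D.L (D.u i) (D.γ s)) * (c w (D.γ s, w.2))⁻¹, ?_⟩
    filter_upwards [h2, h3, ev_fst rfl (h4 (h1 hne).2), ev_fst (w := (D.γ s, w.2)) rfl (D.L_near h5)]
      with u e1 e2 e3 e4 e5
    rw [pw_congr e4, ← mul_assoc, ← hgp _ (fun A => g A (D.L (D.u i) (D.γ s))), ← propext e3,
      ← e2 e5, e1]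
    group
  have hu : ∀ᶠ s in 𝓝 (D.u i), s ≠ D.u i →
      col s = g (D.L (D.o i) (D.γ s)) True * (g (D.L (D.o i) (D.γ s)) False)⁻¹ := by
    filter_upwards [h.along_u, (tendsto_along ((D.ou i).symm.trans h.1)).eventually
      ((hf w h.notMem).and (hg.eventually_nhds.and (ev_fst h.1 (D.L_loc _)))),
      ev_δ (D := D) (D.u i)] with s h1 ⟨h2, h3, h4⟩ h5 hne
    refine J.uniq (h1 hne).1 (hcol _ _ (h1 hne).1)
      ⟨g (D.L (D.o i) (D.γ s)) False * (c w (D.γ s, w.2))⁻¹, ?_⟩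
    filter_upwards [h2, h3, ev_fst rfl (h4 (h1 hne).2), ev_fst (w := (D.γ s, w.2)) rfl (D.L_near h5)]
      with u e1 e2 e3 e4 e5
    rw [pw_congr e4, ← mul_assoc, ← hgp _ (fun B => g (D.L (D.o i) (D.γ s)) B), ← propext e3,
      ← e2 e5, e1]
    group
  have hκ' : cr (deriv D.γ (D.u i)) (deriv D.γ (D.o i)) ≠ 0 := by
    rw [cr_swap]; exact neg_ne_zero.2 (D.tr i)
  have hso := D.side_curve (D.hasDeriv (D.o i)) (D.ou i) hκ'
  have eT : col (D.o i) = g True True * (g False True)⁻¹ := by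
    obtain ⟨s, a1, a2, a3⟩ := ((freq_pos hκ' (D.o i)).and_eventually (ho.and hso)).exists
    rw [a2 (by rintro rfl; simp at a1), eq_true (a3.1.2 a1)]
  have eF : col (D.o i) = g True False * (g False False)⁻¹ := by
    obtain ⟨s, a1, a2, a3⟩ := ((freq_neg hκ' (D.o i)).and_eventually (ho.and hso)).exists
    have a5 : ¬ D.L (D.u i) (D.γ s) := fun a4 => by linarith [a3.1.1 a4]
    rw [a2 (by rintro rfl; simp at a1), eq_false a5]
  have e10 : g True False = col (D.o i) * g False False := by rw [eF]; group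
  have e11 : g True True = col (D.o i) * g False True := by rw [eT]; group
  refine ⟨g False True * (g False False)⁻¹, g False False, ?_, ?_⟩
  · filter_upwards [hg] with v h1 h2
    rw [h1 h2]
    by_cases hA : D.L (D.o i) v.1 <;> by_cases hB : D.L (D.u i) v.1
    · rw [pw_pos hA, pw_pos hB, eq_true hA, eq_true hB, e11]; group
    · rw [pw_pos hA, pw_neg hB, eq_true hA, eq_false hB, e10]; group
    · rw [pw_neg hA, pw_pos hB, eq_false hA, eq_true hB]; group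
    · rw [pw_neg hA, pw_neg hB, eq_false hA, eq_false hB]; group
  · filter_upwards [hu, side_under (D := D) i] with s h1 h2 hne
    rw [h1 hne, ← pw_congr h2]
    by_cases hA : D.L (D.o i) (D.γ s)
    · rw [pw_pos hA, eq_true hA, e10, e11]; group
    · rw [pw_neg hA, eq_false hA]; group

theorem under_uniq {i j : ι} {s : ℝ} (hi : Zq (D.u i) s) (hj : Zq (D.u j) s) : i = j :=
  D.inj (by simp only [D.ou, ← hi.per D.per, ← hj.per D.per])

theorem exists_col1 {c : ℂ × ℝ → ℂ × ℝ → G} (hf : ∀ w ∉ D.K, FlatAt c w)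
    (h0 : ∀ w, D.Zero w → ∀ᶠ u in 𝓝 w, c w u = 1) :
    ∃ col : ℝ → G, D.IsCol col ∧ D.Gauge c (D.cc col) := by
  classical
  obtain ⟨col0, hcol⟩ := exists_col0 hf h0
  have h2 : ∀ i, D.Two (D.γ (D.o i), D.h (D.u i) - 1) i := fun i => ⟨rfl, by simp⟩
  choose b k hb using fun i => two_struct hf h0 hcol (h2 i)
  obtain ⟨col, hc⟩ : ∃ col : ℝ → G, col = fun s =>
    if h : ∃ i, Zq (D.u i) s then b h.choose else col0 s := ⟨_, rfl⟩
  have hcu : ∀ i s, Zq (D.u i) s → col s = b i := by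
    intro i s hs
    have h3 : ∃ i, Zq (D.u i) s := ⟨i, hs⟩
    simp only [hc, dif_pos h3]
    rw [under_uniq h3.choose_spec hs]
  have hcn : ∀ s, (∀ i, ¬ Zq (D.u i) s) → col s = col0 s := by
    intro s hs
    simp only [hc, dif_neg (not_exists.2 hs)]
  have hper : Function.Periodic col 1 := by
    intro s
    have h1 : Zq s (s + 1) := ⟨1, by simp⟩
    by_cases h3 : ∃ i, Zq (D.u i) s
    · obtain ⟨i, hi⟩ := h3
      rw [hcu i s hi, hcu i _ (hi.trans h1)]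
    · push Not at h3
      have h4 : ∀ i, ¬ Zq (D.u i) (s + 1) := fun i hi => h3 i (hi.trans h1.symm)
      rw [hcn s h3, hcn _ h4]
      obtain ⟨z, hz⟩ := exists_one h3
      have h5 : D.One (D.γ s, z) (s + 1) :=
        ⟨D.per s, by rw [D.hper s]; exact hz.2.1, fun t a1 a2 => h1.symm.trans (hz.2.2 t a1 a2)⟩
      refine J.uniq hz ?_ (hcol _ _ hz)
      have h6 := hcol _ _ h5
      have h7 : D.L (s + 1) = D.L s := by simpa using D.L_int s 1
      unfold J at h6 ⊢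
      rwa [h7] at h6
  have hIs : D.IsCol col := by
    refine ⟨hper, fun s hs => ?_, fun i => ?_⟩
    · filter_upwards [col0_loc hf hcol hs] with s' h3
      rw [hcn s hs, hcn s' h3.1, h3.2]
    · filter_upwards [(hb i).2, (h2 i).along_u] with s h3 h4
      by_cases hne : s = D.u i
      · rw [hne, pw_neg (by simp)]; simp
      · rw [hcn s (h4 hne).1.not_under, hcn _ (D.o_not_under i), hcu i _ (Zq.refl _), h3 hne]
  refine ⟨col, hIs, ?_⟩
  have h3 : ∀ w, ∃ k, w ∉ D.K → ∀ᶠ v in 𝓝 w, D.Zero v → c w v = D.cc col w v * k := by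
    intro w
    by_cases hw : w ∈ D.K
    · exact ⟨1, fun h => absurd hw h⟩
    rcases cases_of_notMem hw with h | ⟨s, h⟩ | ⟨i, h⟩
    · refine ⟨1, fun _ => ?_⟩
      filter_upwards [h0 w h] with v h1 _
      rw [h1, cc_zero col h, one_mul]
    · obtain ⟨k, hk⟩ := hcol w s h
      refine ⟨k, fun _ => ?_⟩
      filter_upwards [hk] with v h1 h4
      rw [h1 h4, cc_one hper h, hcn s h.not_under]
    · obtain ⟨b', k', a1, a2⟩ := two_struct hf h0 hcol h
      have : b' = b i := by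
        obtain ⟨s, a3, a4, a5⟩ := ((freq_neg (D.tr i) (D.u i)).and_eventually
          (a2.and (hb i).2)).exists
        have hne : s ≠ D.u i := by rintro rfl; simp at a3
        have a6 := (a4 hne).symm.trans (a5 hne)
        simpa using a6
      refine ⟨k', fun _ => ?_⟩
      filter_upwards [a1] with v h1 h4
      rw [h1 h4, cc_two col h, hcn _ (D.o_not_under i), hcu i _ (Zq.refl _), this]
  choose k hk using h3
  refine ⟨k, fun w hw => ?_⟩
  filter_upwards [hf w hw, hIs.flat hw, (hk w hw).eventually_nhds, ev_notMem hw]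
    with v h1 h4 h5 h6
  obtain ⟨u, a1, a2, a3, a4, a5⟩ := ((freq_zero (D := D) v).and_eventually
    (h1.and (h4.and (h5.and (hk v h6))))).exists
  have a6 := a4 a1
  rw [a2, a3, a5 a1, mul_assoc, mul_assoc] at a6
  rw [mul_left_cancel a6]; group

theorem exists_triv_zero {c : ℂ × ℝ → ℂ × ℝ → G} (hf : ∀ w ∉ D.K, FlatAt c w) :
    ∃ b : ℂ × ℝ → G, ∀ w, D.Zero w → ∀ᶠ u in 𝓝 w, c w u = b u * (b w)⁻¹ := by
  classical
  obtain ⟨M, hM⟩ := exists_M (D := D)
  have hMz : ∀ p : ℂ, D.Zero (p, M) := fun p s _ => (le_abs_self _).trans_lt (hM s)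
  obtain ⟨b0, hb0⟩ := triv_complex (c := fun p q => c (p, M) (q, M)) fun p =>
    (hf _ (hMz p).notMem).comp (f := fun p : ℂ => (p, M)) (Eventually.of_forall fun _ => by fun_prop)
  obtain ⟨b, hb⟩ := triv_homotopy (Y := {w // D.Zero w}) (c := c)
    (H := fun y => (y.1.1.1, (1 - max 0 (min 1 y.2)) * M + max 0 (min 1 y.2) * y.1.1.2))
    (by fun_prop) (fun y => hf _ (Zero.notMem fun s hs => by
      have a1 : D.h s < M := (le_abs_self _).trans_lt (hM s)
      have a2 : D.h s < y.1.1.2 := y.1.2 s hs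
      have a3 : 0 ≤ max 0 (min 1 y.2) := le_max_left _ _
      have a4 : max 0 (min 1 y.2) ≤ 1 := max_le zero_le_one (min_le_left _ _)
      rcases eq_or_lt_of_le a3 with a5 | a5
      · simp only [← a5]; linarith
      · simp only; nlinarith)) (b0 := fun y => b0 y.1.1) (fun y => by
      have a1 : ContinuousAt (fun y : {w // D.Zero w} => y.1.1) y := by fun_prop
      simpa using a1.eventually (hb0 y.1.1))
  refine ⟨fun w => if h : D.Zero w then b ⟨w, h⟩ else 1, fun w hw => ?_⟩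
  have h1 := hb ⟨w, hw⟩
  rw [nhds_subtype_eq_comap, eventually_comap] at h1
  filter_upwards [h1, hw.ev] with u h2 h3
  simpa [hw, h3] using h2 ⟨u, h3⟩ rfl

theorem Gauge.trans {c c' c'' : ℂ × ℝ → ℂ × ℝ → G} (h : D.Gauge c c') (h' : D.Gauge c' c'') :
    D.Gauge c c'' := by
  obtain ⟨b, hb⟩ := h
  obtain ⟨b', hb'⟩ := h'
  refine ⟨fun w => b' w * b w, fun w hw => ?_⟩
  filter_upwards [hb w hw, hb' w hw] with u h1 h2
  rw [h2, h1]; group

theorem Gauge.symm {c c' : ℂ × ℝ → ℂ × ℝ → G} (h : D.Gauge c c') : D.Gauge c' c := by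
  obtain ⟨b, hb⟩ := h
  refine ⟨fun w => (b w)⁻¹, fun w hw => ?_⟩
  filter_upwards [hb w hw] with u h1
  rw [h1]; group

theorem Gauge.map {G' : Type*} [Group G'] {c c' : ℂ × ℝ → ℂ × ℝ → G} (h : D.Gauge c c')
    (φ : G →* G') : D.Gauge (fun w u => φ (c w u)) (fun w u => φ (c' w u)) := by
  obtain ⟨b, hb⟩ := h
  refine ⟨fun w => φ (b w), fun w hw => ?_⟩
  filter_upwards [hb w hw] with u h1
  rw [h1]; simp

/-- Every flat cocycle on the knot complement comes from a colouring. -/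
theorem exists_col {c : ℂ × ℝ → ℂ × ℝ → G} (hf : ∀ w ∉ D.K, FlatAt c w) :
    ∃ col : ℝ → G, D.IsCol col ∧ D.Gauge c (D.cc col) := by
  obtain ⟨b, hb⟩ := exists_triv_zero hf
  obtain ⟨col, h1, h2⟩ := exists_col1 (D := D) (c := fun w u => (b u)⁻¹ * c w u * ((b w)⁻¹)⁻¹)
    (fun w hw => (hf w hw).gauge fun w => (b w)⁻¹)
    (fun w hw => (hb w hw).mono fun u hu => by rw [hu]; group)
  exact ⟨col, h1, Gauge.trans ⟨fun w => (b w)⁻¹, fun w _ => Eventually.of_forall fun _ => rfl⟩ h2⟩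

theorem preconn_zero : IsPreconnected {w | D.Zero w} := by
  obtain ⟨M, hM⟩ := exists_M (D := D)
  have hMz : ∀ p : ℂ, D.Zero (p, M) := fun p s _ => (le_abs_self _).trans_lt (hM s)
  refine isPreconnected_of_forall (0, M) fun y hy => ⟨(univ ×ˢ {M}) ∪ ({y.1} ×ˢ uIcc y.2 M), ?_,
    by simp, by simp, ?_⟩
  · rintro ⟨p, z⟩ (⟨-, h⟩ | ⟨h1, h2⟩)
    · obtain rfl : z = M := h
      exact hMz p
    · intro s hs
      obtain rfl : p = y.1 := h1
      exact (lt_min (hy s hs) (hMz y.1 s hs)).trans_le h2.1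
  · exact IsPreconnected.union (y.1, M) (by simp) (by simp)
      (isPreconnected_univ.prod isPreconnected_singleton)
      (isPreconnected_singleton.prod isPreconnected_uIcc)

/-- Gauge equivalent colourings are conjugate. -/
theorem conj_of_gauge {col col' : ℝ → G} (hp : Function.Periodic col 1)
    (hp' : Function.Periodic col' 1) (h : D.Gauge (D.cc col) (D.cc col')) :
    ∃ g, ∀ s, (∀ i, ¬ Zq (D.u i) s) → col' s = g * col s * g⁻¹ := by
  obtain ⟨b, hb⟩ := h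
  obtain ⟨w0, hw0⟩ := (freq_zero (D := D) 0).exists
  have h1 : ∀ w, D.Zero w → b w = b w0 := fun w hw =>
    const_of_loc (F := b) preconn_zero (fun v hv => by
      filter_upwards [nhdsWithin_le_nhds (hb v hv.notMem)] with u hu
      rw [cc_zero col hv, cc_zero col' hv] at hu
      have : b u = (b u * 1 * (b v)⁻¹) * b v := by group
      rw [this, ← hu, one_mul]) hw hw0
  refine ⟨b w0, fun s hs => ?_⟩
  obtain ⟨z, hz⟩ := exists_one hs
  obtain ⟨v, ⟨a1, a2⟩, a3⟩ := (hz.freq.1.and_eventually (hb _ hz.notMem)).exists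
  obtain ⟨v', ⟨b1, b2⟩, b3⟩ := (hz.freq.2.and_eventually (hb _ hz.notMem)).exists
  rw [cc_one hp hz, cc_one hp' hz, pw_pos a2, pw_pos a2, h1 v a1] at a3
  rw [cc_one hp hz, cc_one hp' hz, pw_neg b2, pw_neg b2, h1 v' b1] at b3
  have : b (D.γ s, z) = b w0 := by
    have : b w0 = (b w0 * 1 * (b (D.γ s, z))⁻¹) * b (D.γ s, z) := by group
    rw [this, ← b3, one_mul]
  rw [a3, this]

/-- A colouring of the long diagram closes up (one Wirtinger relation is redundant). -/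
theorem IsLong.closes {col : ℝ → G} (hc : D.IsLong col) :
    ∃ j, ∀ᶠ s in 𝓝 (0 : ℝ), s ≠ 0 → col s = j := by
  obtain ⟨M, hM⟩ := exists_M (D := D)
  obtain ⟨R, hR⟩ := exists_R (D := D)
  have hK : ∀ p : ℂ, (p, -M) ∉ D.K := by
    rintro p ⟨s, hs⟩
    have : D.h s = -M := congrArg Prod.snd hs
    linarith [hM s, neg_abs_le (D.h s)]
  obtain ⟨β, hβ⟩ := triv_punct (c := fun p q => D.cc col (p, -M) (q, -M)) (q := D.γ 0)
    (fun p hp => (hc.flat (hK p) hp).comp (f := fun p : ℂ => (p, -M))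
      (Eventually.of_forall fun _ => by fun_prop)) (R := R + R) (fun p hp =>
      Eventually.of_forall fun u => cc_zero col (fun s hs => by
        exfalso
        have h1 : ‖p - D.γ 0‖ ≤ ‖p‖ + ‖D.γ 0‖ := norm_sub_le _ _
        have h2 : D.γ s = p := hs
        linarith [hR 0, h2 ▸ hR s]) _)
  have h1 : D.One (D.γ 0, -M) 0 :=
    ⟨rfl, by linarith [hM 0, neg_abs_le (D.h 0)], fun t ht _ => D.zero_simple ht⟩
  obtain ⟨j, k, hjk⟩ := h1.const (F := fun v => β v.1) (by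
    filter_upwards [h1.zero_iff, D.near (D.γ 0, -M) D.δ_pos,
      (continuous_fst.continuousAt (x := (D.γ 0, -M))).eventually
        ((Continuous.tendsto' (by fun_prop) _ _ rfl :
        Tendsto (fun p : ℂ => (p, -M)) (𝓝 (D.γ 0)) (𝓝 (D.γ 0, -M))).eventually h1.zero_iff)]
      with v a1 a2 a3 a4
    have a5 := a1.1 a4
    have a6 : v.1 ≠ D.γ 0 := fun h => a5 (h ▸ D.On_self 0)
    filter_upwards [ev_fst rfl (hβ _ a6)] with u hu
    rw [cc_zero col (a3.2 a5)] at hu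
    have : β u.1 = (β u.1 * (β v.1)⁻¹) * β v.1 := by group
    rw [this, ← hu, one_mul])
  refine ⟨j, ?_⟩
  filter_upwards [h1.along, (tendsto_along h1.1).eventually hjk.eventually_nhds,
    ev_δ (D := D) 0] with s a1 a2 a3 hne
  have a4 : D.γ s ≠ D.γ 0 := fun h => hne (D.γ_inj_near a3 (by simp [D.δ_pos]) h)
  refine J.uniq (c := fun _ v => β v.1) a1 ⟨β (D.γ s), ?_⟩ ⟨k, ?_⟩
  · filter_upwards [ev_fst (w := (D.γ s, -M)) rfl (hβ _ a4)] with u hu _
    rw [cc_one hc.per a1] at hu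
    rw [hu]; group
  · filter_upwards [a2, ev_fst (w := (D.γ s, -M)) rfl (D.L_near a3)] with u b1 b2 b3
    rw [b1 b3, pw_congr b2]

end Dg

end Pool.Agent.MP_a5f24b_gt

end

-- part MP_a5f24b_gt.Alg
section

/-! Algebra: cokernels of square matrices over Laurent polynomials and the second logarithmic
derivative of the determinant. -/

namespace Pool.Agent.MP_a5f24b_gt
open Matrix LaurentPolynomial

/-- Cokernel of a square matrix (quotient by the span of the rows). -/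
abbrev Cok {R ι : Type} [CommRing R] [Fintype ι] (M : Matrix ι ι R) : Type :=
  (ι → R) ⧸ LinearMap.range M.vecMulLinear

theorem fitting {R ι ι' : Type} [CommRing R] [Fintype ι] [Fintype ι'] [DecidableEq ι]
    [DecidableEq ι'] (M : Matrix ι ι R) (M' : Matrix ι' ι' R) (F : Cok M →ₗ[R] Cok M')
    (hF : Function.Surjective F) : M'.det ∣ M.det := by
  have h1 : ∀ i : ι, ∃ v : ι' → R, Submodule.Quotient.mk v =
      F (Submodule.Quotient.mk (Pi.single i 1)) := fun i => Submodule.Quotient.mk_surjective _ _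
  choose P hP using h1
  have h2 : ∀ j : ι', ∃ v : ι → R, F (Submodule.Quotient.mk v) =
      Submodule.Quotient.mk (Pi.single j 1) := by
    intro j
    obtain ⟨y, hy⟩ := hF (Submodule.Quotient.mk (Pi.single j 1))
    obtain ⟨v, rfl⟩ := Submodule.Quotient.mk_surjective _ y
    exact ⟨v, hy⟩
  choose Q hQ using h2
  have h3 : ∀ v : ι → R, F (Submodule.Quotient.mk v) =
      Submodule.Quotient.mk (v ᵥ* (Matrix.of P)) := by
    intro v
    have : F.comp (Submodule.mkQ _) = (Submodule.mkQ _).comp (Matrix.of P).vecMulLinear := by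
      refine (Pi.basisFun R ι).ext fun i => ?_
      simp [← hP]
    exact LinearMap.congr_fun this v
  have h4 : ∀ i, ∃ x, x ᵥ* M' = (M * Matrix.of P) i := by
    intro i
    have : (Submodule.Quotient.mk (M i) : Cok M) = 0 :=
      (Submodule.Quotient.mk_eq_zero _).2 ⟨Pi.single i 1, by simp; rfl⟩
    have h5 := h3 (M i)
    rw [this, map_zero] at h5
    exact (Submodule.Quotient.mk_eq_zero _).1 h5.symm
  have h5 : ∀ j, ∃ y, y ᵥ* M' = (Matrix.of Q * Matrix.of P - 1 : Matrix ι' ι' R) j := by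
    intro j
    have h6 := (Submodule.Quotient.eq _).1 ((h3 (Q j)).symm.trans (hQ j))
    obtain ⟨y, hy⟩ := h6
    refine ⟨y, ?_⟩
    rw [Matrix.vecMulLinear_apply] at hy
    rw [hy]
    funext k
    simp [Matrix.mul_apply, Matrix.vecMul, dotProduct, Matrix.one_apply, Pi.single_apply, eq_comm]
  choose X hX using h4
  choose Y hY using h5
  have e1 : Matrix.of X * M' = M * Matrix.of P := by ext i k; exact congrFun (hX i) k
  have e2 : Matrix.of Y * M' = Matrix.of Q * Matrix.of P - 1 := by ext i k; exact congrFun (hY i) k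
  have e3 : fromBlocks M 0 (Matrix.of Q) (1 : Matrix ι' ι' R) =
      fromBlocks M (-Matrix.of X) (Matrix.of Q) (-Matrix.of Y) * fromBlocks 1 (Matrix.of P) 0 M' := by
    rw [fromBlocks_multiply]
    simp only [Matrix.neg_mul, e1, e2]
    simp
  have e4 := congrArg det e3
  rw [det_mul, det_fromBlocks_zero₁₂, det_fromBlocks_zero₂₁, det_one, det_one, mul_one, one_mul] at e4
  rw [e4]
  exact Dvd.intro_left _ rfl

/-- Laurent polynomials. -/
abbrev Λ : Type := LaurentPolynomial ℚ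

theorem unit_form {u v : Λ} (h : u * v = 1) :
    ∃ (a i : ℕ) (c : ℚ), u * T a = LaurentPolynomial.C c * T i := by
  obtain ⟨a, p, hp⟩ := u.exists_T_pow
  obtain ⟨b, q, hq⟩ := v.exists_T_pow
  have h1 : p * q = Polynomial.X ^ (a + b) := by
    apply Polynomial.toLaurent_injective
    rw [map_mul, hp, hq, Polynomial.toLaurent_X_pow, mul_mul_mul_comm, h, one_mul, ← T_add]
    push_cast; rfl
  obtain ⟨i, -, hi⟩ := (dvd_prime_pow Polynomial.prime_X _).1 (Dvd.intro _ h1)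
  obtain ⟨w, hw⟩ := hi.symm
  obtain ⟨c, -, hc⟩ := Polynomial.isUnit_iff.1 w.isUnit
  refine ⟨a, i, c, ?_⟩
  rw [← hp, ← hw, ← hc, map_mul, Polynomial.toLaurent_X_pow, Polynomial.toLaurent_C, mul_comm]

theorem det_card_two {n : Type} [Fintype n] [DecidableEq n] (h : Fintype.card n = 2)
    (A : Matrix n n ℚ) : 2 * A.det = ∑ i, ∑ k, (A i i * A k k - A i k * A k i) := by
  obtain ⟨e⟩ : Nonempty (Fin 2 ≃ n) := ⟨(Fintype.equivFinOfCardEq h).symm⟩
  rw [← det_submatrix_equiv_self e, det_fin_two, ← e.sum_comp]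
  simp only [← e.sum_comp, Fin.sum_univ_two, submatrix_apply]
  ring

theorem coeff_two {n : Type} [Fintype n] [DecidableEq n] (A : Matrix n n ℚ) :
    2 * (det (1 + (Polynomial.X : Polynomial ℚ) • A.map Polynomial.C)).coeff 2 =
      ∑ i, ∑ k, (A i i * A k k - A i k * A k i) := by
  rw [coeff_det_one_add_X_smul_eq_sum_minors, Finset.mul_sum]
  have h1 : ∀ s ∈ (Finset.univ : Finset n).powersetCard 2,
      2 * (A.submatrix (Subtype.val : s → n) (Subtype.val : s → n)).det =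
      ∑ i, ∑ k, if i ∈ s ∧ k ∈ s then (A i i * A k k - A i k * A k i) else 0 := by
    intro s hs
    rw [det_card_two (by simpa using (Finset.mem_powersetCard.1 hs).2)]
    simp only [submatrix_apply]
    rw [Finset.sum_coe_sort s (fun i => ∑ k : s, (A i i * A k k - A i k * A k i))]
    simp only [ite_and, Finset.sum_ite_irrel, Finset.sum_const_zero]
    rw [← Finset.sum_filter, Finset.filter_mem_eq_inter, Finset.univ_inter]
    refine Finset.sum_congr rfl fun i _ => ?_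
    rw [Finset.sum_coe_sort s (fun k => (A i i * A k k - A i k * A k i)), ← Finset.sum_filter,
      Finset.filter_mem_eq_inter, Finset.univ_inter]
  rw [Finset.sum_congr rfl h1, Finset.sum_comm]
  refine Finset.sum_congr rfl fun i _ => ?_
  rw [Finset.sum_comm]
  refine Finset.sum_congr rfl fun k _ => ?_
  by_cases hik : i = k
  · subst hik; simp
  · rw [Finset.sum_eq_single {i, k}]
    · simp
    · intro s hs hne
      rw [if_neg]
      rintro ⟨h2, h3⟩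
      refine hne (Finset.eq_of_subset_of_card_le ?_ ?_).symm
      · intro x hx; simp at hx; rcases hx with rfl | rfl <;> assumption
      · rw [(Finset.mem_powersetCard.1 hs).2, Finset.card_pair hik]
    · intro h; exact absurd (Finset.mem_powersetCard.2 ⟨by simp, Finset.card_pair hik⟩) h

open PowerSeries in
/-- Twice the second coefficient of the logarithm. -/
noncomputable def Lf (F : ℚ⟦X⟧) : ℚ := 2 * coeff 2 F - (coeff 1 F) ^ 2

open PowerSeries in
theorem Lf_mul {F G : ℚ⟦X⟧} (hF : constantCoeff F = 1) (hG : constantCoeff G = 1) :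
    Lf (F * G) = Lf F + Lf G := by
  simp [Lf, coeff_mul, Finset.Nat.antidiagonal_succ, hF, hG]
  ring

open PowerSeries in
theorem Lf_exp_pow (i : ℕ) : Lf (exp ℚ ^ i) = 0 := by
  induction i with
  | zero => simp [Lf, coeff_one]
  | succ i ih =>
    rw [pow_succ, Lf_mul (by simp) (by simp), ih]
    simp [Lf, coeff_exp]

open PowerSeries in
theorem Lf_aeval (p : Polynomial ℚ) (hp : p.coeff 0 = 1) (y : ℚ⟦X⟧) (h0 : constantCoeff y = 0)
    (h1 : (coeff 1 y) ^ 2 = 1) (h2 : coeff 2 y = -1 / 2) :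
    constantCoeff (Polynomial.aeval y p) = 1 ∧
      Lf (Polynomial.aeval y p) = 2 * p.coeff 2 - p.coeff 1 - (p.coeff 1) ^ 2 := by
  obtain ⟨r, hr⟩ : Polynomial.X ^ 3 ∣ p - (1 + Polynomial.C (p.coeff 1) * Polynomial.X +
      Polynomial.C (p.coeff 2) * Polynomial.X ^ 2) := by
    rw [Polynomial.X_pow_dvd_iff]
    intro d hd
    interval_cases d <;> simp [hp, Polynomial.coeff_one, Polynomial.coeff_X]
  have h3 : Polynomial.aeval y p = 1 + PowerSeries.C (p.coeff 1) * y +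
      PowerSeries.C (p.coeff 2) * (y * y) +
      y ^ 3 * Polynomial.aeval y r := by
    conv_lhs => rw [eq_add_of_sub_eq hr]
    simp [pow_two]
    ring
  have h4 : X ^ 3 ∣ y ^ 3 * Polynomial.aeval y r :=
    Dvd.dvd.mul_right (pow_dvd_pow_of_dvd (X_dvd_iff.2 h0) 3) _
  rw [X_pow_dvd_iff] at h4
  have h5 := h4 0 (by norm_num)
  rw [coeff_zero_eq_constantCoeff] at h5
  rw [h3]
  refine ⟨by simp only [map_add, h5]; simp [h0], ?_⟩
  simp only [Lf, map_add, h4 1 (by norm_num), h4 2 (by norm_num), coeff_C_mul]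
  simp [coeff_mul, Finset.Nat.antidiagonal_succ, h0, h2, coeff_one]
  linear_combination (2 * p.coeff 2 - p.coeff 1 ^ 2) * h1

/-- The Alexander-type matrix `1 - (1 - T^m) N`. -/
noncomputable def Mat {ι : Type} [DecidableEq ι] (N : Matrix ι ι ℤ) (m : ℤ) : Matrix ι ι Λ :=
  1 - (1 - T m : Λ) • N.map (Int.cast)

/-- The invariant `tr N - tr N²`. -/
def tInv {ι : Type} [Fintype ι] (N : Matrix ι ι ℤ) : ℤ := ∑ i, N i i - ∑ i, ∑ k, N i k * N k i

open PowerSeries in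
theorem inv_eq {ι ι' : Type} [Fintype ι] [Fintype ι'] [DecidableEq ι] [DecidableEq ι']
    (N : Matrix ι ι ℤ) (N' : Matrix ι' ι' ℤ) {m : ℤ} (hm : m * m = 1)
    (h1 : (Mat N' 1).det ∣ (Mat N m).det) (h2 : (Mat N m).det ∣ (Mat N' 1).det) :
    tInv N = tInv N' := by
  obtain ⟨x, hx⟩ : ∃ x : (ℚ⟦X⟧)ˣ, x = ⟨exp ℚ, evalNegHom (exp ℚ), exp_mul_exp_neg_eq_one,
    by rw [mul_comm, exp_mul_exp_neg_eq_one]⟩ := ⟨_, rfl⟩
  obtain ⟨ev, hev⟩ : ∃ ev : Λ →+* ℚ⟦X⟧, ev = LaurentPolynomial.eval₂ (PowerSeries.C) x := ⟨_, rfl⟩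
  have hc0 : constantCoeff (evalNegHom (exp ℚ)) = 1 := by
    rw [← coeff_zero_eq_constantCoeff_apply, evalNegHom, coeff_rescale]; simp
  have key : ∀ {κ : Type} [Fintype κ] [DecidableEq κ] (N : Matrix κ κ ℤ) (m : ℤ), m * m = 1 →
      constantCoeff (ev (Mat N m).det) = 1 ∧ Lf (ev (Mat N m).det) = tInv N := by
    intro κ _ _ N m hm
    obtain ⟨A, hA⟩ : ∃ A : Matrix κ κ ℚ, A = -N.map Int.cast := ⟨_, rfl⟩
    have e1 : ev (Mat N m).det = Polynomial.aeval (1 - ev (T m))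
        (det (1 + (Polynomial.X : Polynomial ℚ) • A.map Polynomial.C)) := by
      rw [RingHom.map_det, AlgHom.map_det]
      congr 1
      ext i k : 2
      simp [Mat, hA, Matrix.one_apply, apply_ite]
      split_ifs <;> ring
    have e2 := Lf_aeval (det (1 + (Polynomial.X : Polynomial ℚ) • A.map Polynomial.C))
      (by rw [coeff_det_one_add_X_smul_eq_sum_minors]; simp) (1 - ev (T m))
      (by rcases Int.eq_one_or_neg_one_of_mul_eq_one hm with rfl | rfl <;>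
        simp [hev, eval₂_T, hx, hc0])
      (by rcases Int.eq_one_or_neg_one_of_mul_eq_one hm with rfl | rfl <;>
        simp [hev, eval₂_T, hx, coeff_one, evalNegHom])
      (by rcases Int.eq_one_or_neg_one_of_mul_eq_one hm with rfl | rfl <;>
        simp [hev, eval₂_T, hx, coeff_one, evalNegHom] <;> norm_num)
    rw [e1]
    refine ⟨e2.1, ?_⟩
    rw [e2.2, coeff_two, coeff_det_one_add_X_smul_one]
    simp only [tInv, hA, Matrix.trace, Matrix.diag, Matrix.neg_apply, Matrix.map_apply,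
      Finset.sum_sub_distrib, neg_mul_neg, ← Finset.mul_sum, ← Finset.sum_mul, Finset.sum_neg_distrib]
    push_cast
    ring
  obtain ⟨a1, a2⟩ := key N m hm
  obtain ⟨b1, b2⟩ := key N' 1 rfl
  obtain ⟨u, hu⟩ := (associated_of_dvd_dvd h1 h2)
  obtain ⟨a, i, c, hc⟩ := unit_form u.mul_inv
  have e3 : (Mat N m).det * T a = (Mat N' 1).det * (LaurentPolynomial.C c * T i) := by
    rw [← hc, ← hu, mul_assoc]
  have e4 := congrArg ev e3
  have e5 : ∀ n : ℕ, ev (T n) = exp ℚ ^ n := by intro n; rw [hev, eval₂_T_n, hx]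
  have e6 : ev (LaurentPolynomial.C c) = PowerSeries.C c := by rw [hev, LaurentPolynomial.eval₂_C]
  rw [map_mul, map_mul, map_mul, e5, e5, e6] at e4
  have e7 := congrArg constantCoeff e4
  simp [a1, b1] at e7
  rw [← e7, map_one, one_mul] at e4
  have e8 := congrArg Lf e4
  rw [Lf_mul a1 (by simp), Lf_mul b1 (by simp), Lf_exp_pow, Lf_exp_pow, a2, b2] at e8
  exact_mod_cast (by simpa using e8 : (tInv N : ℚ) = tInv N')

/-- The group `A ⋊ ℤ`. -/
@[ext] structure Aff (A : Type) where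
  a : A
  m : ℤ

namespace Aff
variable {A : Type} [AddCommGroup A] [Module Λ A]

theorem TT (m n : ℤ) (a : A) : (T m : Λ) • (T n : Λ) • a = (T (m + n) : Λ) • a := by
  rw [smul_smul, ← T_add]

noncomputable instance : Mul (Aff A) := ⟨fun x y => ⟨x.a + (T x.m : Λ) • y.a, x.m + y.m⟩⟩
instance : One (Aff A) := ⟨⟨0, 0⟩⟩
noncomputable instance : Inv (Aff A) := ⟨fun x => ⟨-((T (-x.m) : Λ) • x.a), -x.m⟩⟩

@[simp] theorem mul_a (x y : Aff A) : (x * y).a = x.a + (T x.m : Λ) • y.a := rfl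
@[simp] theorem mul_m (x y : Aff A) : (x * y).m = x.m + y.m := rfl
omit [Module Λ A] in
@[simp] theorem one_a : (1 : Aff A).a = 0 := rfl
omit [Module Λ A] in
@[simp] theorem one_m : (1 : Aff A).m = 0 := rfl
@[simp] theorem inv_a (x : Aff A) : x⁻¹.a = -((T (-x.m) : Λ) • x.a) := rfl
@[simp] theorem inv_m (x : Aff A) : x⁻¹.m = -x.m := rfl

noncomputable instance : Group (Aff A) where
  mul_assoc x y z := by ext <;> simp [TT, add_assoc]
  one_mul x := by ext <;> simp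
  mul_one x := by ext <;> simp
  inv_mul_cancel x := by ext <;> simp

/-- The projection to `ℤ`. -/
noncomputable def deg : Aff A →* Multiplicative ℤ where
  toFun x := Multiplicative.ofAdd x.m
  map_one' := rfl
  map_mul' _ _ := rfl

theorem zpow_m (x : Aff A) (n : ℤ) : (x ^ n).m = n * x.m := by
  have := map_zpow deg x n
  simpa [deg] using congrArg Multiplicative.toAdd this

theorem conj_a {x y : Aff A} (h : x.m = y.m) :
    x * y * x⁻¹ = ⟨y.a + (1 - T y.m : Λ) • (x.a - y.a), y.m⟩ := by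
  ext
  · simp only [mul_a, mul_m, inv_a, h, smul_neg, smul_smul, ← T_add, add_neg_cancel_right]
    module
  · simp [h]

theorem div_a {x y : Aff A} (h : x.m = y.m) : x * y⁻¹ = ⟨x.a - y.a, 0⟩ := by
  ext
  · simp [h, TT, sub_eq_add_neg]
  · simp [h]

theorem conj_zero (g : Aff A) (a : A) : g * ⟨a, 0⟩ * g⁻¹ = ⟨(T g.m : Λ) • a, 0⟩ := by
  ext
  · simp [TT]
  · simp

/-- The homomorphism determined by a linear map and the image of a meridian. -/
noncomputable def lift {B : Type} [AddCommGroup B] [Module Λ B] (F : A →ₗ[Λ] B) (g : Aff B)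
    (hg : g.m * g.m = 1) : Aff A →* Aff B where
  toFun x := ⟨F x.a, 0⟩ * g ^ (g.m * x.m)
  map_one' := by ext <;> simp
  map_mul' x y := by
    have h1 : (g ^ (g.m * x.m)).m = x.m := by
      rw [zpow_m, mul_right_comm, hg, one_mul]
    have h2 := conj_zero (g ^ (g.m * x.m)) (F y.a)
    rw [h1, mul_inv_eq_iff_eq_mul] at h2
    rw [mul_m, mul_add, _root_.zpow_add, mul_assoc, ← mul_assoc (g ^ (g.m * x.m)), h2, ← mul_assoc,
      ← mul_assoc, ← mul_assoc]
    congr 2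
    ext <;> simp

end Aff

end Pool.Agent.MP_a5f24b_gt

end

-- part MP_a5f24b_gt.Inv
section

/-! The Casson invariant, computed from a diagram, is invariant under homeomorphisms of space. -/

namespace Pool.Agent.MP_a5f24b_gt
open Set Filter Topology Complex LaurentPolynomial Matrix

namespace Dg
variable {ι : Type} {D : Dg ι} {G : Type*} [Group G]

theorem ev_shift {α : Type*} {col : ℝ → α} (hp : Function.Periodic col 1) {s t : ℝ} (h : Zq s t)
    (h1 : ∀ᶠ s' in 𝓝 s, col s' = col s) : ∀ᶠ s' in 𝓝 t, col s' = col t := by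
  obtain ⟨n, rfl⟩ := h
  have hT : Tendsto (fun x : ℝ => x - n) (𝓝 (s + n)) (𝓝 s) :=
    Continuous.tendsto' (by fun_prop) _ _ (by simp)
  filter_upwards [hT.eventually h1] with x hx
  rw [Zq.per hp ⟨n, rfl⟩, ← hx]
  exact Zq.per hp ⟨n, by ring⟩

theorem isCol_const (g : G) : D.IsCol fun _ => g where
  per := fun _ => rfl
  c1 := fun _ _ => Eventually.of_forall fun _ => rfl
  c2 := fun i => Eventually.of_forall fun s => by
    unfold pw; split_ifs <;> simp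

theorem under_or {s : ℝ} (hs : s ∈ Ico (0 : ℝ) 1) : (∃ i, s = D.u i) ∨ ∀ i, ¬ Zq (D.u i) s := by
  by_cases h : ∃ i, Zq (D.u i) s
  · obtain ⟨i, hi⟩ := h
    exact Or.inl ⟨i, (hi.eq (Ioo_subset_Ico_self (D.u_mem i)) hs).symm⟩
  · exact Or.inr (not_exists.1 h)

theorem IsCol.comm_const {G : Type*} [CommGroup G] {col : ℝ → G} (hc : D.IsCol col) (s : ℝ) :
    col s = col 0 := by
  rw [(Zq.fract s).per hc.per]
  refine const_of_loc (F := col) isPreconnected_Ico (fun w hw => nhdsWithin_le_nhds ?_)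
    (fract_mem s) ⟨le_rfl, one_pos⟩
  rcases under_or (D := D) hw with ⟨i, rfl⟩ | h
  · filter_upwards [hc.c2 i] with s hs
    rw [hs, mul_right_comm, mul_inv_cancel, one_mul]
  · exact hc.c1 w h

theorem conj_all {col col' : ℝ → G} (hc : D.IsCol col) (hc' : D.IsCol col')
    (h : D.Gauge (D.cc col) (D.cc col')) : ∃ g, ∀ s, col' s = g * col s * g⁻¹ := by
  obtain ⟨g, hg⟩ := conj_of_gauge hc.per hc'.per h
  refine ⟨g, fun s => ?_⟩
  rw [(Zq.fract s).per hc.per, (Zq.fract s).per hc'.per]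
  rcases under_or (D := D) (fract_mem s) with ⟨i, hi⟩ | h
  · rw [hi]
    have h2 : D.Two (D.γ (D.o i), D.h (D.u i) - 1) i := ⟨rfl, by simp⟩
    obtain ⟨t, a1, a2, a3, a4⟩ := ((freq_neg (D.tr i) (D.u i)).and_eventually
      ((hc.c2 i).and ((hc'.c2 i).and h2.along_u))).exists
    have hne : t ≠ D.u i := by rintro rfl; simp at a1
    have a5 : ¬ 0 < D.κ i * (t - D.u i) := not_lt.2 a1.le
    rw [pw_neg a5, one_mul, inv_one, mul_one] at a2 a3
    rw [← a2, ← a3, hg t (a4 hne).1.not_under]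
  · exact hg _ h

variable (D)

open Classical in
/-- The sign of a crossing. -/
noncomputable def ε (i : ι) : ℤ := if 0 < D.κ i then 1 else -1

open Classical in
/-- Whether the under-crossing `i` has been passed at time `s`. -/
noncomputable def step (i : ι) (s : ℝ) : ℤ :=
  if 0 < D.κ i then (if D.u i < s then 1 else 0) else (if D.u i ≤ s then 1 else 0)

/-- The integer matrix of the diagram. -/
noncomputable def Nm : Matrix ι ι ℤ :=
  Matrix.of fun i k => D.ε i * (D.step k (D.o i) - D.step k (D.u i))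

variable {D}

theorem step_loc {i : ι} {s : ℝ} (h : s ≠ D.u i) : ∀ᶠ s' in 𝓝 s, D.step i s' = D.step i s := by
  rcases lt_or_gt_of_ne h with h | h
  · filter_upwards [gt_mem_nhds h] with s' h'
    simp [step, not_lt.2 h.le, not_le.2 h, not_lt.2 h'.le, not_le.2 h']
  · filter_upwards [lt_mem_nhds h] with s' h'
    simp [step, h, h.le, h', h'.le]

theorem step_zero (i : ι) : D.step i 0 = 0 := by
  simp [step, not_lt.2 (D.u_mem i).1.le, not_le.2 (D.u_mem i).1]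

open Classical in
theorem step_at (i : ι) (s : ℝ) :
    D.step i s = D.step i (D.u i) + if 0 < D.κ i * (s - D.u i) then D.ε i else 0 := by
  unfold step ε
  rcases lt_or_gt_of_ne (D.tr i) with h | h
  · have h' : D.κ i < 0 := h
    have : 0 < D.κ i * (s - D.u i) ↔ s < D.u i := by
      rw [pos_iff_neg_of_mul_pos_aux h']
    simp only [if_neg (not_lt.2 h'.le), this, le_refl, if_true]
    split_ifs <;> first | rfl | linarith
  · have h' : 0 < D.κ i := h
    simp only [if_pos h', mul_pos_iff_of_pos_left h', sub_pos, lt_irrefl, if_false, zero_add]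
where
  pos_iff_neg_of_mul_pos_aux {a s u : ℝ} (h : a < 0) : 0 < a * (s - u) ↔ s < u :=
    ⟨fun h1 => by nlinarith, fun h1 => mul_pos_of_neg_of_neg h (by linarith)⟩

theorem ε_sq (i : ι) : D.ε i * D.ε i = 1 := by
  unfold ε; split_ifs <;> rfl

theorem u_inj : Function.Injective D.u := fun i j h =>
  under_uniq (Zq.refl (D.u i)) (by rw [h]; exact Zq.refl _)

variable [Fintype ι] [DecidableEq ι]

/-- The jump at the crossing `i`. -/
noncomputable def jump {A : Type} [AddCommGroup A] [Module Λ A] (D : Dg ι) (m : ℤ) (α : ℝ → A)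
    (i : ι) : A := D.ε i • ((1 - T m : Λ) • (α (D.o i) - α (D.u i)))

theorem sum_step_near {A : Type} [AddCommGroup A] (d : ι → A) (i : ι) :
    ∀ᶠ s in 𝓝 (D.u i), ∑ k, D.step k s • d k = ∑ k, D.step k (D.u i) • d k +
      if 0 < D.κ i * (s - D.u i) then D.ε i • d i else 0 := by
  have : ∀ᶠ s in 𝓝 (D.u i), ∀ k, k ≠ i → D.step k s = D.step k (D.u i) := by
    refine eventually_all.2 fun k => ?_
    by_cases h : k = i
    · simp [h]
    · exact (step_loc (fun h' => h (u_inj h').symm)).mono fun _ h _ => h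
  filter_upwards [this] with s hs
  rw [← Finset.add_sum_erase _ _ (Finset.mem_univ i), ← Finset.add_sum_erase _ _ (Finset.mem_univ i),
    Finset.sum_congr rfl (fun k hk => by rw [hs k (Finset.ne_of_mem_erase hk)]), step_at i s]
  split_ifs <;> module

omit [DecidableEq ι] in
theorem sum_step_loc {A : Type} [AddCommGroup A] (d : ι → A) {s : ℝ} (h : ∀ i, s ≠ D.u i) :
    ∀ᶠ s' in 𝓝 s, ∑ k, D.step k s' • d k = ∑ k, D.step k s • d k := by
  filter_upwards [eventually_all.2 fun k => step_loc (h k)] with s' hs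
  simp only [hs]

theorem col_formula {A : Type} [AddCommGroup A] [Module Λ A] {col : ℝ → Aff A} (hc : D.IsCol col)
    {m : ℤ} (hm : ∀ s, (col s).m = m) {s : ℝ} (hs : s ∈ Ico (0 : ℝ) 1) :
    (col s).a = (col 0).a + ∑ k, D.step k s • D.jump m (fun s => (col s).a) k := by
  have := const_of_loc (F := fun s => (col s).a - ∑ k, D.step k s • D.jump m (fun s => (col s).a) k)
    isPreconnected_Ico (fun w hw => nhdsWithin_le_nhds ?_) hs ⟨le_rfl, one_pos⟩
  · simp only [step_zero, zero_smul, Finset.sum_const_zero, sub_zero] at this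
    rw [← this]; abel
  rcases under_or (D := D) hw with ⟨i, rfl⟩ | h
  · filter_upwards [hc.c2 i, sum_step_near (D.jump m (fun s => (col s).a)) i] with s h1 h2
    rw [h1, h2]
    split_ifs with h3
    · rw [pw_pos h3, Aff.conj_a (by rw [hm, hm]), hm, jump, smul_smul, ε_sq, one_smul]
      simp only
      abel
    · rw [pw_neg h3]; simp
  · filter_upwards [hc.c1 w h, sum_step_loc (D.jump m (fun s => (col s).a))
      (fun i hi => h i (hi ▸ Zq.refl _))] with s h1 h2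
    rw [h1, h2]

theorem row_sum {A : Type} [AddCommGroup A] [Module Λ A] (m : ℤ) (d : ι → A) (i : ι) :
    ∑ k, (Mat D.Nm m) i k • d k = d i - D.ε i • ((1 - T m : Λ) •
      (∑ k, D.step k (D.o i) • d k - ∑ k, D.step k (D.u i) • d k)) := by
  simp only [Mat, Matrix.sub_apply, Matrix.smul_apply, Matrix.map_apply, sub_smul,
    Finset.sum_sub_distrib, Matrix.one_apply, ite_smul, one_smul, zero_smul, Finset.sum_ite_eq,
    Finset.mem_univ, if_true, Nm, Matrix.of_apply]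
  congr 1
  rw [← Finset.sum_sub_distrib, ← Finset.sum_sub_distrib, Finset.smul_sum, ← Finset.sum_sub_distrib,
    Finset.smul_sum]
  refine Finset.sum_congr rfl fun k _ => ?_
  simp only [smul_eq_mul, mul_smul, Int.cast_smul_eq_zsmul]
  module

/-- The Alexander module. -/
abbrev Al (D : Dg ι) (m : ℤ) : Type := Cok (Mat D.Nm m)

/-- The generators of the Alexander module. -/
noncomputable def gen (D : Dg ι) (m : ℤ) (k : ι) : D.Al m := Submodule.Quotient.mk (Pi.single k 1)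

theorem mk_eq (m : ℤ) (v : ι → Λ) :
    (Submodule.Quotient.mk v : D.Al m) = ∑ k, v k • D.gen m k := by
  conv_lhs => rw [pi_eq_sum_univ' v]
  rw [← Submodule.mkQ_apply, map_sum]
  simp [gen]

theorem gen_rel (m : ℤ) (i : ι) : D.gen m i = D.ε i • ((1 - T m : Λ) •
      (∑ k, D.step k (D.o i) • D.gen m k - ∑ k, D.step k (D.u i) • D.gen m k)) := by
  rw [← sub_eq_zero, ← row_sum, ← mk_eq]
  exact (Submodule.Quotient.mk_eq_zero _).2 ⟨Pi.single i 1, by simp; rfl⟩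

/-- The universal colouring. -/
noncomputable def colU (D : Dg ι) (m : ℤ) (s : ℝ) : Aff (D.Al m) :=
  ⟨∑ k, D.step k (Int.fract s) • D.gen m k, m⟩

theorem fract_ev {s : ℝ} (hs : s ∈ Ioo (0 : ℝ) 1) : ∀ᶠ s' in 𝓝 s, Int.fract s' = s' := by
  filter_upwards [isOpen_Ioo.mem_nhds hs] with s' h
  exact Int.fract_eq_self.2 ⟨h.1.le, h.2⟩

theorem colU_long (m : ℤ) : D.IsLong (D.colU m) := by
  have hper : Function.Periodic (D.colU m) 1 := fun s => by simp [colU]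
  refine ⟨hper, fun s h0 hs => ?_, fun i => ?_⟩
  · refine ev_shift hper (Zq.fract s) ?_
    have h1 : Int.fract s ∈ Ioo (0 : ℝ) 1 :=
      ⟨lt_of_le_of_ne (Int.fract_nonneg s) fun h => h0 (h ▸ Zq.fract s), Int.fract_lt_one s⟩
    filter_upwards [fract_ev h1, sum_step_loc (D.gen m) (s := Int.fract s)
      (fun i hi => hs i (hi ▸ Zq.fract s))] with s' h2 h3
    simp only [colU, h2, h3, Int.fract_fract]
  · filter_upwards [fract_ev (D.u_mem i), sum_step_near (D.gen m) i] with s h1 h2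
    have e1 := (fract_ev (D.u_mem i)).self_of_nhds
    have e2 := (fract_ev (D.o_mem i)).self_of_nhds
    by_cases h3 : 0 < D.κ i * (s - D.u i)
    · rw [pw_pos h3, Aff.conj_a (x := D.colU m (D.o i)) (y := D.colU m (D.u i)) rfl]
      simp only [colU, h1, h2, e1, e2, if_pos h3]
      congr 2
      conv_lhs => rw [gen_rel, smul_smul, ε_sq, one_smul]
    · rw [pw_neg h3]
      simp [colU, h1, h2, e1, h3]

theorem colU_col (m : ℤ) : D.IsCol (D.colU m) := by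
  have hl := colU_long (D := D) m
  refine ⟨hl.per, fun s hs => ?_, hl.c2⟩
  by_cases h0 : Zq 0 s
  · refine ev_shift hl.per h0 ?_
    obtain ⟨j, hj⟩ := hl.closes
    have h1 : j = D.colU m 0 := by
      obtain ⟨t, a1, a2, a3, a4⟩ := ((frequently_gt_nhds (0 : ℝ)).and_eventually (hj.and
        ((sum_step_loc (D.gen m) (s := 0) (fun i => (D.u_mem i).1.ne)).and
        (gt_mem_nhds one_pos)))).exists
      rw [← a2 a1.ne']
      simp only [colU, Int.fract_eq_self.2 ⟨a1.le, a4⟩, a3, Int.fract_zero]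
    filter_upwards [hj] with t ht
    by_cases h : t = 0
    · rw [h]
    · rw [ht h, h1]
  · exact hl.c1 s h0 hs

theorem univ_prop {A : Type} [AddCommGroup A] [Module Λ A] {col : ℝ → Aff A} (hc : D.IsCol col)
    {m : ℤ} (hm : ∀ s, (col s).m = m) (hm2 : m * m = 1) :
    ∃ (F : D.Al m →ₗ[Λ] A) (Φ : Aff (D.Al m) →* Aff A), (∀ a, Φ ⟨a, 0⟩ = ⟨F a, 0⟩) ∧
      ∀ s, Φ (D.colU m s) = col s := by
  obtain ⟨d, hd⟩ : ∃ d, d = D.jump m (fun s => (col s).a) := ⟨_, rfl⟩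
  have h1 : ∀ i, ∑ k, (Mat D.Nm m) i k • d k = 0 := by
    intro i
    rw [row_sum, sub_eq_zero]
    have a1 := col_formula hc hm (Ioo_subset_Ico_self (D.o_mem i))
    have a2 := col_formula hc hm (Ioo_subset_Ico_self (D.u_mem i))
    rw [← hd] at a1 a2
    conv_lhs => rw [hd, jump, a1, a2]
    congr 2
    abel
  have h2 : LinearMap.range (Mat D.Nm m).vecMulLinear ≤
      LinearMap.ker (Fintype.linearCombination Λ d) := by
    rintro _ ⟨x, rfl⟩
    simp only [LinearMap.mem_ker, Fintype.linearCombination_apply, vecMulLinear_apply, vecMul,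
      dotProduct, Finset.sum_smul, mul_smul]
    rw [Finset.sum_comm]
    simp only [← Finset.smul_sum, h1, smul_zero, Finset.sum_const_zero]
  refine ⟨Submodule.liftQ _ _ h2, Aff.lift (Submodule.liftQ _ _ h2) (col 0) (by rw [hm, hm2]),
    fun a => by simp [Aff.lift], fun s => ?_⟩
  have h3 : ∀ k, Submodule.liftQ _ _ h2 (D.gen m k) = d k := by
    intro k; simp [gen, Fintype.linearCombination_apply, Pi.single_apply]
  rw [(Zq.fract s).per hc.per]
  ext
  · simp only [Aff.lift, colU, MonoidHom.coe_mk, OneHom.coe_mk, hm, hm2, zpow_one, Aff.mul_a,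
      map_sum, map_zsmul, h3, T_zero, one_smul]
    rw [col_formula hc hm (fract_mem s), hd, add_comm]
  · simp [Aff.lift, colU, hm, hm2]

theorem scalar_of_conj {m : ℤ} {F : D.Al m →ₗ[Λ] D.Al m} {Φ : Aff (D.Al m) →* Aff (D.Al m)}
    (h1 : ∀ a, Φ ⟨a, 0⟩ = ⟨F a, 0⟩) {g : Aff (D.Al m)}
    (h2 : ∀ s, Φ (D.colU m s) = g * D.colU m s * g⁻¹) : Function.Surjective F := by
  have h3 : ∀ i, F (D.gen m i) = (T g.m : Λ) • D.gen m i := by
    intro i
    have e1 := (fract_ev (D.u_mem i)).self_of_nhds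
    have e2 := (fract_ev (D.o_mem i)).self_of_nhds
    have a1 : Φ (D.colU m (D.o i) * (D.colU m (D.u i))⁻¹) =
        g * (D.colU m (D.o i) * (D.colU m (D.u i))⁻¹) * g⁻¹ := by
      rw [map_mul, map_inv, h2, h2]; group
    rw [Aff.div_a (x := D.colU m (D.o i)) (y := D.colU m (D.u i)) rfl, h1, Aff.conj_zero] at a1
    have a2 := congrArg Aff.a a1
    simp only [colU, e1, e2] at a2
    rw [gen_rel, map_zsmul, map_smul, a2]
    module
  intro y
  obtain ⟨v, rfl⟩ := Submodule.Quotient.mk_surjective _ y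
  refine ⟨(T (-g.m) : Λ) • Submodule.Quotient.mk v, ?_⟩
  rw [mk_eq, map_smul, map_sum, Finset.smul_sum]
  refine Finset.sum_congr rfl fun k _ => ?_
  rw [map_smul, h3, smul_comm (v k), Aff.TT]; simp

end Dg

section
variable {ι ι' : Type} {G : Type*} [Group G]

/-- Two colourings correspond under the homeomorphism `f`. -/
def Rel (D : Dg ι) (D' : Dg ι') (f : ℂ × ℝ → ℂ × ℝ) (col col' : ℝ → G) : Prop :=
  D.Gauge (fun w u => D'.cc col' (f w) (f u)) (D.cc col)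

variable {D : Dg ι} {D' : Dg ι'} {f : (ℂ × ℝ) ≃ₜ (ℂ × ℝ)}

theorem Rel.symm (hf : ∀ w, f w ∈ D'.K ↔ w ∈ D.K) {col col' : ℝ → G} (h : Rel D D' f col col') :
    Rel D' D f.symm col' col := by
  obtain ⟨b, hb⟩ := Dg.Gauge.symm h
  refine ⟨fun w => b (f.symm w), fun w hw => ?_⟩
  have := hb (f.symm w) (by rw [← hf]; simpa using hw)
  filter_upwards [f.symm.continuous.continuousAt.eventually this] with u hu
  simpa using hu

theorem exists_rel (hf : ∀ w, f w ∈ D'.K ↔ w ∈ D.K) {col' : ℝ → G} (h : D'.IsCol col') :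
    ∃ col, D.IsCol col ∧ Rel D D' f col col' :=
  Dg.exists_col fun w hw => (h.flat (by rwa [hf])).comp
    (Eventually.of_forall fun _ => f.continuous.continuousAt)

theorem Rel.map {G' : Type*} [Group G'] {f : ℂ × ℝ → ℂ × ℝ} {col col' : ℝ → G}
    (h : Rel D D' f col col') (φ : G →* G') :
    Rel D D' f (fun s => φ (col s)) (fun s => φ (col' s)) := by
  have := Dg.Gauge.map h φ
  simp only [Dg.map_cc] at this
  exact this

theorem Rel.uniq {f : ℂ × ℝ → ℂ × ℝ} {col col₁ col' : ℝ → G} (h : Rel D D' f col col')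
    (h₁ : Rel D D' f col₁ col') (hc : D.IsCol col) (hc₁ : D.IsCol col₁) :
    ∃ g, ∀ s, col₁ s = g * col s * g⁻¹ :=
  Dg.conj_all hc hc₁ ((Dg.Gauge.symm h).trans h₁)

theorem exists_deg (hf : ∀ w, f w ∈ D'.K ↔ w ∈ D.K) : ∃ m : ℤ,
    Rel D D' f (fun _ => Multiplicative.ofAdd m) (fun _ => Multiplicative.ofAdd (1 : ℤ)) := by
  obtain ⟨col, h1, h2⟩ := exists_rel hf (Dg.isCol_const (D := D') (Multiplicative.ofAdd (1 : ℤ)))
  refine ⟨(col 0).toAdd, ?_⟩
  have : col = fun _ => Multiplicative.ofAdd (col 0).toAdd := funext fun s => h1.comm_const s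
  rwa [this] at h2

/-- Invariance of the Casson invariant. -/
theorem inv_homeo [Fintype ι] [Fintype ι'] (hf : ∀ w, f w ∈ D'.K ↔ w ∈ D.K) :
    tInv D.Nm = tInv D'.Nm := by
  classical
  have hf' : ∀ w, f.symm w ∈ D.K ↔ w ∈ D'.K := fun w => by rw [← hf]; simp
  obtain ⟨m, hm⟩ := exists_deg hf
  obtain ⟨m', hm'⟩ := exists_deg hf'
  have hmm : m * m' = 1 := by
    have a1 := hm.map (zpowGroupHom m')
    have a2 := hm'.symm hf'
    simp only [zpowGroupHom_apply, ← ofAdd_zsmul, smul_eq_mul, mul_one] at a1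
    obtain ⟨g, hg⟩ := a1.uniq a2 (Dg.isCol_const _) (Dg.isCol_const _)
    have := hg 0
    rw [mul_right_comm, mul_inv_cancel, one_mul] at this
    have := Multiplicative.ofAdd.injective this
    linarith
  have hm2 : m * m = 1 := by
    rcases Int.eq_one_or_neg_one_of_mul_eq_one hmm with rfl | rfl <;> rfl
  obtain ⟨col, c1, c2⟩ := exists_rel hf (Dg.colU_col (D := D') 1)
  obtain ⟨col', c1', c2'⟩ := exists_rel hf' (Dg.colU_col (D := D) m)
  have d1 : ∀ s, (col s).m = m := by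
    obtain ⟨g, hg⟩ := hm.uniq (c2.map Aff.deg) (Dg.isCol_const _) (c1.map _)
    intro s
    have := hg s
    rw [mul_right_comm, mul_inv_cancel, one_mul] at this
    exact Multiplicative.ofAdd.injective this
  have d2 : ∀ s, (col' s).m = 1 := by
    obtain ⟨g, hg⟩ := (hm.symm hf).uniq (c2'.map Aff.deg) (Dg.isCol_const _) (c1'.map _)
    intro s
    have := hg s
    rw [mul_right_comm, mul_inv_cancel, one_mul] at this
    exact Multiplicative.ofAdd.injective this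
  obtain ⟨F, Φ, e1, e2⟩ := Dg.univ_prop c1 d1 hm2
  obtain ⟨F', Φ', e1', e2'⟩ := Dg.univ_prop c1' d2 rfl
  have s1 : Function.Surjective (F'.comp F) := by
    have a1 := c2.map Φ'
    simp only [e2'] at a1
    obtain ⟨g, hg⟩ := Rel.uniq (c2'.symm hf') a1 (Dg.colU_col m) (c1.map Φ')
    exact Dg.scalar_of_conj (Φ := Φ'.comp Φ) (g := g) (fun a => by simp [e1, e1'])
      (fun s => by simp [e2, hg])
  have s2 : Function.Surjective (F.comp F') := by
    have a1 := c2'.map Φ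
    simp only [e2] at a1
    obtain ⟨g, hg⟩ := Rel.uniq (c2.symm hf) a1 (Dg.colU_col 1) (c1'.map Φ)
    exact Dg.scalar_of_conj (Φ := Φ.comp Φ') (g := g) (fun a => by simp [e1, e1'])
      (fun s => by simp [e2', hg])
  exact inv_eq _ _ hm2 (fitting _ _ F (Function.Surjective.of_comp s2))
    (fitting _ _ F' (Function.Surjective.of_comp s1))

end

end Pool.Agent.MP_a5f24b_gt

end

-- part MP_a5f24b_gt.Comb
section

/-! The Ising energy of a graph without isolated vertices takes more than `n / 3` values. -/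

namespace Pool.Agent.MP_a5f24b_gt
open Finset

variable {ι : Type} [Fintype ι] [DecidableEq ι]

theorem quad_update {α : Type} (w : ι → ι → ℤ) (hw : ∀ i k, w i k = w k i) (h0 : ∀ i, w i i = 0)
    (φ : α → α → ℤ) (hφ : ∀ a b, φ a b = φ b a) (f : ι → α) (x : ι) (v : α) :
    ∑ i, ∑ k, w i k * φ (Function.update f x v i) (Function.update f x v k) =
      ∑ i, ∑ k, w i k * φ (f i) (f k) + 2 * ∑ k, w x k * (φ v (f k) - φ (f x) (f k)) := by
  have key : ∀ g : ι → α, ∑ i, ∑ k, w i k * φ (g i) (g k) =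
      2 * ∑ k ∈ univ.erase x, w x k * φ (g x) (g k) +
        ∑ i ∈ univ.erase x, ∑ k ∈ univ.erase x, w i k * φ (g i) (g k) := by
    intro g
    rw [← add_sum_erase _ _ (mem_univ x), ← add_sum_erase _ _ (mem_univ x), h0, zero_mul, zero_add]
    simp only [← add_sum_erase _ (fun k => w _ k * φ (g _) (g k)) (mem_univ x), sum_add_distrib]
    have : ∑ i ∈ univ.erase x, w i x * φ (g i) (g x) = ∑ k ∈ univ.erase x, w x k * φ (g x) (g k) :=
      sum_congr rfl (fun i _ => by rw [hw i x, hφ (g i) (g x)])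
    rw [this]
    ring
  rw [key, key f, ← add_sum_erase _ (fun k => w x k * (φ v (f k) - φ (f x) (f k))) (mem_univ x),
    h0, zero_mul, zero_add]
  have e1 : ∑ k ∈ univ.erase x, w x k * φ (Function.update f x v x) (Function.update f x v k) =
      ∑ k ∈ univ.erase x, w x k * φ v (f k) :=
    sum_congr rfl fun k hk => by
      rw [Function.update_self, Function.update_of_ne (ne_of_mem_erase hk)]
  have e2 : ∑ i ∈ univ.erase x, ∑ k ∈ univ.erase x,
      w i k * φ (Function.update f x v i) (Function.update f x v k) =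
      ∑ i ∈ univ.erase x, ∑ k ∈ univ.erase x, w i k * φ (f i) (f k) :=
    sum_congr rfl fun i hi => sum_congr rfl fun k hk => by
      rw [Function.update_of_ne (ne_of_mem_erase hi), Function.update_of_ne (ne_of_mem_erase hk)]
  rw [e1, e2]
  simp only [mul_sub, sum_sub_distrib]
  ring

theorem exists_sparse (w : ι → ι → ℤ) (hw : ∀ i k, w i k = w k i) (h0 : ∀ i, w i i = 0)
    (hpos : ∀ i, 0 < ∑ k, w i k) : ∃ T : Finset ι, Fintype.card ι ≤ 3 * T.card ∧
      ∀ x ∈ T, 2 * ∑ k ∈ T, w x k < ∑ k, w x k := by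
  obtain ⟨c, hc⟩ := Finite.exists_min (fun c : ι → Fin 3 =>
    ∑ i, ∑ k, w i k * (if c i = c k then (1 : ℤ) else 0))
  have h1 : ∀ x j, ∑ k ∈ univ.filter (fun k => c k = c x), w x k ≤
      ∑ k ∈ univ.filter (fun k => c k = j), w x k := by
    intro x j
    have h2 := hc (Function.update c x j)
    rw [quad_update w hw h0 (fun a b : Fin 3 => if a = b then (1 : ℤ) else 0)
      (fun a b => by simp [eq_comm])] at h2
    simp only [mul_sub, sum_sub_distrib, mul_ite, mul_one, mul_zero] at h2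
    simp only [sum_filter, eq_comm (a := c _) (b := j), eq_comm (a := c _) (b := c x)]
    linarith
  have h2 : ∀ x, 3 * ∑ k ∈ univ.filter (fun k => c k = c x), w x k ≤ ∑ k, w x k := by
    intro x
    rw [← sum_fiberwise univ c (fun k => w x k), Fin.sum_univ_three]
    linarith [h1 x 0, h1 x 1, h1 x 2]
  have h3 : ∃ j, Fintype.card ι ≤ 3 * (univ.filter (fun k => c k = j)).card := by
    by_contra h
    push Not at h
    have := card_eq_sum_card_fiberwise (f := c) (s := univ) (t := univ) (fun _ _ => mem_univ _)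
    rw [Fin.sum_univ_three, card_univ] at this
    linarith [h 0, h 1, h 2]
  obtain ⟨j, hj⟩ := h3
  refine ⟨_, hj, fun x hx => ?_⟩
  rw [← (mem_filter.1 hx).2]
  linarith [h2 x, hpos x]

/-- The Ising energy. -/
def En (w : ι → ι → ℤ) (ε : ι → ℤ) : ℤ := ∑ i, ∑ k, w i k * (ε i * ε k)

theorem many_values (w : ι → ι → ℤ) (hw : ∀ i k, w i k = w k i) (h0 : ∀ i, w i i = 0)
    (hnn : ∀ i k, 0 ≤ w i k) (hpos : ∀ i, 0 < ∑ k, w i k) :
    ∃ V : Finset ℤ, Fintype.card ι < 3 * V.card ∧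
      ∀ v ∈ V, ∃ ε : ι → ℤ, (∀ i, ε i = 1 ∨ ε i = -1) ∧ En w ε = v := by
  obtain ⟨T, hT, hT'⟩ := exists_sparse w hw h0 hpos
  have key : ∀ S : Finset ι, S ⊆ T → ∃ V : Finset ℤ, V.card = S.card + 1 ∧
      ∀ v ∈ V, En w (fun i => if i ∈ S then -1 else 1) ≤ v ∧
        ∃ ε : ι → ℤ, (∀ i, ε i = 1 ∨ ε i = -1) ∧ En w ε = v := by
    intro S
    induction S using Finset.induction_on with
    | empty =>
      intro _
      exact ⟨{En w (fun i => if i ∈ (∅ : Finset ι) then -1 else 1)}, by simp, fun v hv => by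
        rw [mem_singleton.1 hv]; exact ⟨le_rfl, _, fun i => by simp, rfl⟩⟩
    | insert x S hx ih =>
      intro hS
      obtain ⟨V, h1, h2⟩ := ih ((subset_insert _ _).trans hS)
      have e1 : (fun i => if i ∈ insert x S then (-1 : ℤ) else 1) =
          Function.update (fun i => if i ∈ S then (-1 : ℤ) else 1) x (-1) := by
        funext i
        by_cases h : i = x
        · subst h; simp
        · simp [h]
      have e2 : En w (fun i => if i ∈ insert x S then -1 else 1) <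
          En w (fun i => if i ∈ S then -1 else 1) := by
        rw [e1, En, quad_update w hw h0 (fun a b : ℤ => a * b) mul_comm, En]
        have e3 : ∑ k, w x k * (-1 * (if k ∈ S then (-1 : ℤ) else 1) -
            (if x ∈ S then -1 else 1) * (if k ∈ S then -1 else 1)) =
            4 * ∑ k ∈ S, w x k - 2 * ∑ k, w x k := by
          rw [if_neg hx, ← univ_inter S, ← sum_ite_mem, mul_sum, mul_sum, ← sum_sub_distrib]
          refine sum_congr rfl fun k _ => ?_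
          simp only [univ_inter]
          split_ifs <;> ring
        have e4 : ∑ k ∈ S, w x k ≤ ∑ k ∈ T, w x k :=
          sum_le_sum_of_subset_of_nonneg ((subset_insert _ _).trans hS) fun k _ _ => hnn x k
        rw [e3]
        linarith [hT' x (hS (mem_insert_self _ _))]
      refine ⟨insert (En w (fun i => if i ∈ insert x S then -1 else 1)) V, ?_, fun v hv => ?_⟩
      · rw [card_insert_of_notMem (fun h => by linarith [(h2 _ h).1]), h1, card_insert_of_notMem hx]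
      · rcases mem_insert.1 hv with rfl | hv
        · exact ⟨le_rfl, _, fun i => by split_ifs <;> simp, rfl⟩
        · exact ⟨by linarith [(h2 v hv).1], (h2 v hv).2⟩
  obtain ⟨V, h1, h2⟩ := key T subset_rfl
  exact ⟨V, by omega, fun v hv => (h2 v hv).2⟩

end Pool.Agent.MP_a5f24b_gt

end
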