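import Pool.Agent.MP_a5f24b_gt.Mg.Comb
import Pool.Agent.MP_a5f24b_gt.Defs

-- part MP_a5f24b_gt.Plane
section

/-! Plane topology: Janiszewski's theorem, arcs, and a separation lemma. -/

namespace Pool.Agent.MP_a5f24b_gt
open Set Filter Topology Complex

theorem g_ne : (Multiplicative.ofAdd (1 : ℤ)) ≠ 1 := by decide

theorem janiszewski {A B : Set ℂ} (hA : IsCompact A) (hB : IsClosed B) {x p q : ℂ} (hxA : x ∈ A)
    (hxB : x ∈ B) (hAB : A ∩ B ⊆ {x}) {SA SB : Set ℂ} (h1 : IsPreconnected SA) (h2 : SA ⊆ Aᶜ)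
    (h3 : IsPreconnected SB) (h4 : SB ⊆ Bᶜ) (hp : p ∈ SA ∩ SB) (hq : q ∈ SA ∩ SB) :
    q ∈ connectedComponentIn (A ∪ B)ᶜ p := by
  classical
  obtain ⟨Cp, hCp⟩ : ∃ Cp, Cp = connectedComponentIn (A ∪ B)ᶜ p := ⟨_, rfl⟩
  obtain ⟨g, hg⟩ : ∃ g, g = Multiplicative.ofAdd (1 : ℤ) := ⟨_, rfl⟩
  have hO : IsOpen (A ∪ B)ᶜ := (hA.isClosed.union hB).isOpen_compl
  have hnA : ∀ v ∈ A, v ∉ Cp := fun v hv h =>
    (show v ∉ A ∪ B from connectedComponentIn_subset (A ∪ B)ᶜ p (hCp ▸ h)) (Or.inl hv)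
  have hloc : ∀ v, v ∉ A → v ∉ B → ∀ᶠ u in 𝓝 v, (u ∈ Cp ↔ v ∈ Cp) := by
    intro v h5 h6
    filter_upwards [connectedComponentIn_mem_nhds (hO.mem_nhds (show v ∈ (A ∪ B)ᶜ by simp [h5, h6]))]
      with u hu
    have e := connectedComponentIn_eq hu
    rw [hCp]
    constructor
    · intro h7
      rw [connectedComponentIn_eq h7, ← e]
      exact mem_connectedComponentIn (by simp [h5, h6])
    · intro h7
      rwa [connectedComponentIn_eq h7]
  obtain ⟨R, hR⟩ := hA.isBounded.subset_closedBall x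
  obtain ⟨b, hb⟩ := triv_punct (c := fun w u => if w ∈ A then pw (u ∈ Cp) g else 1) (q := x)
    (fun w hw => by
      by_cases hwA : w ∈ A
      · have hwB : w ∉ B := fun h => hw (hAB ⟨hwA, h⟩)
        filter_upwards [hB.isOpen_compl.mem_nhds hwB] with v hv
        by_cases hvA : v ∈ A
        · exact Eventually.of_forall fun u => by simp [hwA, hvA, pw_neg (hnA v hvA)]
        · filter_upwards [hloc v hvA hv] with u hu
          simp [hwA, hvA, pw_congr hu]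
      · filter_upwards [hA.isClosed.isOpen_compl.mem_nhds hwA] with v hv
        have : v ∉ A := hv
        exact Eventually.of_forall fun u => by simp [hwA, this]) (R := R)
    (fun w hw => Eventually.of_forall fun u => if_neg fun h => by
      have := hR h
      rw [Metric.mem_closedBall, dist_eq_norm] at this
      linarith)
  have hb0 : ∀ w, w ∉ A → ∀ᶠ u in 𝓝 w, b u = b w := by
    intro w hw
    filter_upwards [hb w (fun h => hw (h ▸ hxA))] with u hu
    rw [if_neg hw] at hu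
    exact (mul_inv_eq_one.1 hu.symm)
  have e1 : b p = b q := const_of_loc h1 (fun w hw => nhdsWithin_le_nhds (hb0 w (h2 hw))) hp.1 hq.1
  have e2 : (pw (p ∈ Cp) g)⁻¹ * b p = (pw (q ∈ Cp) g)⁻¹ * b q := by
    refine const_of_loc (F := fun u => (pw (u ∈ Cp) g)⁻¹ * b u) h3
      (fun w hw => nhdsWithin_le_nhds ?_) hp.2 hq.2
    by_cases hwA : w ∈ A
    · filter_upwards [hb w (fun h => h4 hw (h ▸ hxB))] with u hu
      rw [if_pos hwA] at hu
      rw [hu, pw_neg (hnA w hwA)]; group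
    · filter_upwards [hb0 w hwA, hloc w hwA (h4 hw)] with u e1 e2
      rw [e1, pw_congr e2]
  have hpC : p ∈ Cp := hCp ▸ mem_connectedComponentIn (by
    simp only [mem_compl_iff, mem_union, not_or]; exact ⟨h2 hp.1, h4 hp.2⟩)
  rw [e1, mul_left_inj, inv_inj, pw_pos hpC] at e2
  by_contra h5
  rw [pw_neg (hCp ▸ h5), hg] at e2
  exact g_ne e2

/-- Concatenation of two paths. -/
noncomputable def cat (α β : ℝ → ℂ) (τ : ℝ) : ℂ := α (min (2 * τ) 1) + β (max (2 * τ - 1) 0) - β 0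

theorem cat_cont {α β : ℝ → ℂ} (h1 : Continuous α) (h2 : Continuous β) : Continuous (cat α β) := by
  unfold cat; fun_prop

theorem cat_le {α β : ℝ → ℂ} {τ : ℝ} (h : τ ≤ 1 / 2) : cat α β τ = α (2 * τ) := by
  rw [cat, min_eq_left (by linarith), max_eq_right (by linarith)]; ring

theorem cat_ge {α β : ℝ → ℂ} (e : α 1 = β 0) {τ : ℝ} (h : 1 / 2 ≤ τ) :
    cat α β τ = β (2 * τ - 1) := by
  rw [cat, min_eq_right (by linarith), max_eq_left (by linarith), e]; ring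

theorem cat_image {α β : ℝ → ℂ} (e : α 1 = β 0) :
    cat α β '' Icc 0 1 = α '' Icc 0 1 ∪ β '' Icc 0 1 := by
  ext z
  constructor
  · rintro ⟨τ, hτ, rfl⟩
    rcases le_total τ (1 / 2) with h | h
    · exact Or.inl ⟨2 * τ, ⟨by linarith [hτ.1], by linarith⟩, (cat_le h).symm⟩
    · exact Or.inr ⟨2 * τ - 1, ⟨by linarith, by linarith [hτ.2]⟩, (cat_ge e h).symm⟩
  · rintro (⟨τ, hτ, rfl⟩ | ⟨τ, hτ, rfl⟩)
    · exact ⟨τ / 2, ⟨by linarith [hτ.1], by linarith [hτ.2]⟩, by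
        rw [cat_le (by linarith [hτ.2])]; congr 1; ring⟩
    · exact ⟨(τ + 1) / 2, ⟨by linarith [hτ.1], by linarith [hτ.2]⟩, by
        rw [cat_ge e (by linarith [hτ.1])]; congr 1; ring⟩

theorem cat_inj {α β : ℝ → ℂ} (e : α 1 = β 0) (h1 : InjOn α (Icc 0 1)) (h2 : InjOn β (Icc 0 1))
    {S : Set ℝ} (hS : S ⊆ Icc 0 1)
    (h3 : ∀ x ∈ Icc (0 : ℝ) 1, ∀ y ∈ Icc (0 : ℝ) 1, (y + 1) / 2 ∈ S → α x = β y → y = 0) :
    InjOn (cat α β) S := by
  have key : ∀ x ∈ S, ∀ y ∈ S, x ≤ 1 / 2 → 1 / 2 ≤ y → cat α β x = cat α β y → x = y := by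
    intro x hx y hy a1 a2 a3
    rw [cat_le a1, cat_ge e a2] at a3
    have b1 : 2 * x ∈ Icc (0 : ℝ) 1 := ⟨by linarith [(hS hx).1], by linarith⟩
    have b2 := h3 _ b1 (2 * y - 1) ⟨by linarith, by linarith [(hS hy).2]⟩
      (by convert hy using 1; ring) a3
    rw [b2, ← e] at a3
    linarith [h1 b1 ⟨zero_le_one, le_rfl⟩ a3]
  intro x hx y hy h
  rcases le_total x (1 / 2) with a1 | a1 <;> rcases le_total y (1 / 2) with a2 | a2
  · rw [cat_le a1, cat_le a2] at h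
    linarith [h1 ⟨by linarith [(hS hx).1], by linarith⟩ ⟨by linarith [(hS hy).1], by linarith⟩ h]
  · exact key x hx y hy a1 a2 h
  · exact (key y hy x hx a2 a1 h.symm).symm
  · rw [cat_ge e a1, cat_ge e a2] at h
    linarith [h2 ⟨by linarith, by linarith [(hS hx).2]⟩ ⟨by linarith, by linarith [(hS hy).2]⟩ h]

/-- An arc in `U` from `p` to `q`. -/
def Arc (U : Set ℂ) (p q : ℂ) : Prop :=
  ∃ α : ℝ → ℂ, Continuous α ∧ InjOn α (Icc 0 1) ∧ α 0 = p ∧ α 1 = q ∧ ∀ τ ∈ Icc (0 : ℝ) 1, α τ ∈ U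

theorem arc_segment {U : Set ℂ} {p q : ℂ} (h : p ≠ q) (hU : segment ℝ p q ⊆ U) : Arc U p q := by
  refine ⟨fun τ => p + τ * (q - p), by fun_prop, fun x _ y _ hxy => ?_, by simp, by simp,
    fun τ hτ => hU ?_⟩
  · have := mul_right_cancel₀ (sub_ne_zero.2 h.symm) (add_left_cancel hxy)
    exact_mod_cast this
  · rw [segment_eq_image']
    exact ⟨τ, hτ, by simp⟩

theorem first_hit {α : ℝ → ℂ} (hα : Continuous α) {F : Set ℂ} (hF : IsClosed F) {a b : ℝ}
    (hab : a ≤ b) (hb : α b ∈ F) : ∃ t ∈ Icc a b, α t ∈ F ∧ ∀ r ∈ Icc a b, α r ∈ F → t ≤ r := by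
  obtain ⟨t, ht, h⟩ := (isCompact_Icc.inter_right (hF.preimage hα)).exists_isLeast
    ⟨b, ⟨hab, le_rfl⟩, hb⟩
  exact ⟨t, ht.1, ht.2, fun r h1 h2 => h ⟨h1, h2⟩⟩

theorem last_hit {α : ℝ → ℂ} (hα : Continuous α) {F : Set ℂ} (hF : IsClosed F) {a b : ℝ}
    (hab : a ≤ b) (ha : α a ∈ F) : ∃ t ∈ Icc a b, α t ∈ F ∧ ∀ r ∈ Icc a b, α r ∈ F → r ≤ t := by
  obtain ⟨t, ht, h⟩ := (isCompact_Icc.inter_right (hF.preimage hα)).exists_isGreatest
    ⟨a, ⟨le_rfl, hab⟩, ha⟩
  exact ⟨t, ht.1, ht.2, fun r h1 h2 => h ⟨h1, h2⟩⟩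

theorem Arc.extend {U : Set ℂ} {p y z : ℂ} (h : p = y ∨ Arc U p y) (hU : segment ℝ z y ⊆ U) :
    p = z ∨ Arc U p z := by
  by_cases hpz : p = z
  · exact Or.inl hpz
  right
  rcases h with rfl | ⟨α, h1, h2, h3, h4, h5⟩
  · exact arc_segment hpz (by rwa [segment_symm])
  have hcl : IsClosed (segment ℝ z y) := by
    rw [segment_eq_image']
    exact (isCompact_Icc.image (by fun_prop)).isClosed
  obtain ⟨t, ht, h6, h7⟩ := first_hit h1 hcl zero_le_one (h4 ▸ right_mem_segment ℝ z y)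
  have hsub : segment ℝ (α t) z ⊆ segment ℝ z y :=
    (convex_segment z y).segment_subset h6 (left_mem_segment ℝ z y)
  rcases eq_or_lt_of_le ht.1 with h8 | h8
  · rw [← h8, h3] at hsub
    exact arc_segment hpz (hsub.trans hU)
  have hm : ∀ τ ∈ Icc (0 : ℝ) 1, τ * t ∈ Icc (0 : ℝ) 1 := fun τ hτ =>
    ⟨mul_nonneg hτ.1 ht.1, mul_le_one₀ hτ.2 ht.1 ht.2⟩
  have hinj : InjOn (fun τ => α (τ * t)) (Icc 0 1) := fun x hx y hy hxy =>
    mul_right_cancel₀ h8.ne' (h2 (hm x hx) (hm y hy) hxy)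
  by_cases h9 : α t = z
  · exact ⟨fun τ => α (τ * t), by fun_prop, hinj, by simpa using h3, by simpa using h9,
      fun τ hτ => h5 _ (hm τ hτ)⟩
  obtain ⟨β, b1, b2, b3, b4, b5⟩ := arc_segment h9 (subset_refl _)
  have e : (fun τ => α (τ * t)) 1 = β 0 := by simp [b3]
  refine ⟨cat (fun τ => α (τ * t)) β, cat_cont (by fun_prop) b1, cat_inj e hinj b2 subset_rfl ?_,
    by rw [cat_le (by norm_num)]; simpa using h3, by rw [cat_ge e (by norm_num)]; norm_num [b4],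
    fun τ hτ => ?_⟩
  · intro x hx y hy _ hxy
    have a1 := h7 _ (hm x hx) (by rw [hxy]; exact hsub (b5 y hy))
    have a2 : x * t = t := le_antisymm (by nlinarith [hx.2]) a1
    rw [a2, ← b3] at hxy
    exact (b2 ⟨le_rfl, zero_le_one⟩ hy hxy).symm
  · have : cat (fun τ => α (τ * t)) β τ ∈ cat (fun τ => α (τ * t)) β '' Icc 0 1 := ⟨τ, hτ, rfl⟩
    rw [cat_image e] at this
    rcases this with ⟨x, hx, h⟩ | ⟨x, hx, h⟩
    · rw [← h]; exact h5 _ (hm x hx)
    · rw [← h]; exact hU (hsub (b5 x hx))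

theorem exists_arc {U : Set ℂ} (hU : IsOpen U) {p q : ℂ} (hq : q ∈ connectedComponentIn U p)
    (hne : p ≠ q) : Arc U p q := by
  have hp : p ∈ connectedComponentIn U p :=
    mem_connectedComponentIn (connectedComponentIn_nonempty_iff.1 ⟨q, hq⟩)
  have := const_of_loc (F := fun y => p = y ∨ Arc U p y) isPreconnected_connectedComponentIn
    (fun w hw => nhdsWithin_le_nhds ?_) hp hq
  · exact (this ▸ Or.inl rfl : p = q ∨ Arc U p q).resolve_left hne
  obtain ⟨ε, hε, hb⟩ := Metric.isOpen_iff.1 hU w (connectedComponentIn_subset _ _ hw)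
  filter_upwards [Metric.ball_mem_nhds w hε] with u hu
  have h1 : segment ℝ w u ⊆ U :=
    ((convex_ball w ε).segment_subset (Metric.mem_ball_self hε) hu).trans hb
  exact propext ⟨fun h => Arc.extend h h1, fun h => Arc.extend h (by rwa [segment_symm])⟩

theorem flat_neg {G : Type*} [Group G] (g : G) {w : ℂ} (hw : w ≠ 0) :
    FlatAt (fun w u : ℂ => pw (w.im = 0 ∧ w.re < 0 ∧ 0 < u.im) g) w := by
  by_cases h : w.im = 0 ∧ w.re < 0
  · filter_upwards [continuous_re.continuousAt.eventually (gt_mem_nhds h.2)] with v hv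
    rcases lt_trichotomy v.im 0 with h1 | h1 | h1
    · filter_upwards [continuous_im.continuousAt.eventually (gt_mem_nhds h1)] with u hu
      simp [pw, h1.ne, not_lt.2 h1.le, not_lt.2 hu.le]
    · exact Eventually.of_forall fun u => by simp [pw, h.1, h.2, h1, hv]
    · filter_upwards [continuous_im.continuousAt.eventually (lt_mem_nhds h1)] with u hu
      simp [pw, h1.ne', h1, hu]
  · have h1 : ∀ᶠ v in 𝓝 w, ¬ (v.im = 0 ∧ v.re < 0) := by
      by_cases h2 : w.im = 0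
      · have h3 : 0 < w.re := lt_of_le_of_ne (not_lt.1 fun h4 => h ⟨h2, h4⟩)
          fun h4 => hw (Complex.ext h4.symm h2)
        filter_upwards [continuous_re.continuousAt.eventually (lt_mem_nhds h3)] with v hv h5
        linarith [h5.2]
      · filter_upwards [continuous_im.continuousAt.eventually_ne h2] with v hv h5
        exact hv h5.1
    filter_upwards [h1] with v hv
    refine Eventually.of_forall fun u => ?_
    rw [pw_neg (by tauto), pw_neg (by tauto), pw_neg (by tauto), one_mul]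

/-- A closed curve made of a segment and of a path that avoids the segment separates the two sides
of the segment. -/
theorem separates {α : ℝ → ℂ} (hα : Continuous α) {x ν : ℂ} (hν : ν ≠ 0) {r₁ r₂ : ℝ} (h1 : 0 < r₁)
    (h2 : r₂ < 0) (e0 : α 0 = x + r₁ * ν) (e1 : α 1 = x + r₂ * ν) (hx : x ∉ α '' Icc 0 1)
    {C : Set ℂ} (hC1 : α '' Icc 0 1 ⊆ C) (hC2 : ∀ r ∈ Icc r₂ r₁, x + r * ν ∈ C) :
    ∀ᶠ p in 𝓝 x, ∀ᶠ q in 𝓝 x, 0 < cr ν (p - x) → cr ν (q - x) < 0 →
      q ∉ connectedComponentIn Cᶜ p := by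
  classical
  obtain ⟨g, hg⟩ : ∃ g, g = Multiplicative.ofAdd (1 : ℤ) := ⟨_, rfl⟩
  have hO : IsOpen (α '' Icc 0 1)ᶜ := (isCompact_Icc.image hα).isClosed.isOpen_compl
  obtain ⟨b, hb⟩ := triv_homotopy (Y := ↥(α '' Icc 0 1)ᶜ)
    (c := fun w u : ℂ => pw (w.im = 0 ∧ w.re < 0 ∧ 0 < u.im) g)
    (H := fun y => (y.1.1 - α 0) * (starRingEnd ℂ) (y.1.1 - α (max 0 (min 1 y.2))))
    (by fun_prop) (fun y => flat_neg g (mul_ne_zero
      (sub_ne_zero.2 fun h => y.1.2 ⟨0, ⟨le_rfl, zero_le_one⟩, h.symm⟩)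
      ((map_ne_zero _).2 (sub_ne_zero.2 fun h => y.1.2 ⟨_, ⟨le_max_left _ _,
        max_le zero_le_one (min_le_left _ _)⟩, h.symm⟩)))) (b0 := fun _ => 1)
    (fun y => Eventually.of_forall fun y' => by
      rw [pw_neg]
      · simp
      · rintro ⟨-, h3, -⟩
        simp only [min_eq_right (zero_le_one' ℝ), max_self, mul_conj, ofReal_re] at h3
        linarith [normSq_nonneg (y.1 - α 0)])
  simp only [min_self, max_eq_right (zero_le_one' ℝ), e0, e1] at hb
  obtain ⟨F, hF⟩ : ∃ F : ℂ → ℂ, F = fun z =>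
    (z - (x + r₁ * ν)) * (starRingEnd ℂ) (z - (x + r₂ * ν)) := ⟨_, rfl⟩
  obtain ⟨β, hβ⟩ : ∃ β : ℂ → Multiplicative ℤ, ∀ w ∉ α '' Icc 0 1, ∀ᶠ u in 𝓝 w,
      pw ((F w).im = 0 ∧ (F w).re < 0 ∧ 0 < (F u).im) g = β u * (β w)⁻¹ := by
    refine ⟨fun w => if h : w ∈ (α '' Icc 0 1)ᶜ then b ⟨w, h⟩ else 1, fun w hw => ?_⟩
    have h3 := hb ⟨w, hw⟩
    rw [nhds_subtype_eq_comap, eventually_comap] at h3
    filter_upwards [h3, hO.mem_nhds hw] with u h4 h5
    have hw' : w ∈ (α '' Icc 0 1)ᶜ := hw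
    rw [dif_pos hw', dif_pos h5, hF]
    exact h4 ⟨u, h5⟩ rfl
  have him : ∀ z, (F z).im = (r₁ - r₂) * cr ν (z - x) := by
    intro z; simp [hF, cr]; ring
  have hn : 0 < ν.re * ν.re + ν.im * ν.im := by
    have := normSq_pos.2 hν
    rwa [normSq_apply] at this
  have hseg : ∀ z, (F z).im = 0 → (F z).re < 0 → z ∈ C := by
    intro z a1 a2
    rw [him] at a1
    have a3 : cr ν (z - x) = 0 := (mul_eq_zero.1 a1).resolve_left (by linarith)
    obtain ⟨l, hl⟩ : ∃ l : ℝ, z = x + l * ν := by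
      refine ⟨(ν.re * (z - x).re + ν.im * (z - x).im) / (ν.re * ν.re + ν.im * ν.im), ?_⟩
      unfold cr at a3
      obtain ⟨m, hm⟩ : ∃ m, m = ν.re * ν.re + ν.im * ν.im := ⟨_, rfl⟩
      rw [← hm] at hn ⊢
      apply Complex.ext
      · simp only [add_re, mul_re, ofReal_re, ofReal_im, sub_re, sub_im] at a3 ⊢
        field_simp; rw [hm]; linear_combination (-ν.im) * a3
      · simp only [add_im, mul_im, ofReal_re, ofReal_im, sub_re, sub_im] at a3 ⊢
        field_simp; rw [hm]; linear_combination ν.re * a3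
    have a4 : (F z).re = (l - r₁) * (l - r₂) * (ν.re * ν.re + ν.im * ν.im) := by
      simp [hF, hl]; ring
    rw [a4] at a2
    have a5 : (l - r₁) * (l - r₂) < 0 := by
      by_contra a6
      linarith [mul_nonneg (not_lt.1 a6) hn.le]
    rw [hl]
    exact hC2 l ⟨by nlinarith, by nlinarith⟩
  have hx1 : (F x).im = 0 := by rw [him]; simp [cr]
  have hx2 : (F x).re < 0 := by
    have : (F x).re = r₁ * r₂ * (ν.re * ν.re + ν.im * ν.im) := by simp [hF]; ring
    rw [this]; exact mul_neg_of_neg_of_pos (mul_neg_of_pos_of_neg h1 h2) hn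
  filter_upwards [hβ x hx] with p hp
  filter_upwards [hβ x hx] with q hq a1 a2 a3
  have hpC : p ∈ connectedComponentIn Cᶜ p :=
    mem_connectedComponentIn (connectedComponentIn_nonempty_iff.1 ⟨q, a3⟩)
  have a4 : β p = β q := const_of_loc isPreconnected_connectedComponentIn (fun w hw => by
    have b1 : w ∉ C := connectedComponentIn_subset _ _ hw
    filter_upwards [nhdsWithin_le_nhds (hβ w fun h => b1 (hC1 h))] with u hu
    rw [pw_neg (fun h => b1 (hseg w h.1 h.2.1))] at hu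
    exact mul_inv_eq_one.1 hu.symm) hpC a3
  rw [pw_pos ⟨hx1, hx2, by rw [him]; exact mul_pos (by linarith) a1⟩] at hp
  rw [pw_neg (fun h => by
    have := h.2.2
    rw [him] at this
    nlinarith), ← a4, ← hp, hg] at hq
  exact g_ne hq.symm

end Pool.Agent.MP_a5f24b_gt

end

-- part MP_a5f24b_gt.Nug
section

/-! A double point whose two loops meet only at that point is nugatory. -/

namespace Pool.Agent.MP_a5f24b_gt
open Set Filter Topology Complex

theorem jordan_of_arc {U : Set ℂ} {x ν : ℂ} (hν : ν ≠ 0) {r : ℝ} (hr : 0 < r) (hx : x ∉ U)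
    (h : Arc U (x + r * ν) (x + (-r : ℝ) * ν)) :
    ∃ (α : ℝ → ℂ) (r₁ r₂ : ℝ), Continuous α ∧ r₁ ∈ Ioc 0 r ∧ r₂ ∈ Ico (-r) 0 ∧
      α 0 = x + r₁ * ν ∧ α 1 = x + r₂ * ν ∧ α '' Icc 0 1 ⊆ U ∧
      IsJordan (α '' Icc 0 1 ∪ (fun l : ℝ => x + l * ν) '' Icc r₂ r₁) := by
  obtain ⟨α, h1, h2, h3, h4, h5⟩ := h
  have hc : Continuous fun l : ℝ => x + l * ν := by fun_prop
  have hinj : Function.Injective fun l : ℝ => x + l * ν := fun a b hab => by
    exact_mod_cast mul_right_cancel₀ hν (add_left_cancel hab)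
  obtain ⟨t₁, a1, ⟨r₁, a2, a3⟩, a4⟩ := last_hit h1 (isCompact_Icc.image hc).isClosed zero_le_one
    (F := (fun l : ℝ => x + l * ν) '' Icc 0 r) ⟨r, ⟨hr.le, le_rfl⟩, h3.symm⟩
  obtain ⟨t₂, b1, ⟨r₂, b2, b3⟩, b4⟩ := first_hit h1 (isCompact_Icc.image hc).isClosed a1.2
    (F := (fun l : ℝ => x + l * ν) '' Icc (-r) 0) ⟨-r, ⟨le_rfl, by linarith⟩, h4.symm⟩
  have b1' : t₂ ∈ Icc (0 : ℝ) 1 := ⟨a1.1.trans b1.1, b1.2⟩
  have c1 : 0 < r₁ := lt_of_le_of_ne a2.1 fun h => hx (by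
    have := h5 _ a1
    rw [← a3, ← h] at this
    simpa using this)
  have c2 : r₂ < 0 := lt_of_le_of_ne b2.2 fun h => hx (by
    have := h5 _ b1'
    rw [← b3, h] at this
    simpa using this)
  have c3 : t₁ < t₂ := lt_of_le_of_ne b1.1 fun h => by
    have := hinj (a3.trans (h ▸ b3.symm))
    linarith
  have hm : ∀ τ ∈ Icc (0 : ℝ) 1, t₁ + τ * (t₂ - t₁) ∈ Icc t₁ t₂ := fun τ hτ =>
    ⟨by nlinarith [hτ.1], by nlinarith [hτ.2]⟩
  have hm' : ∀ τ ∈ Icc (0 : ℝ) 1, t₁ + τ * (t₂ - t₁) ∈ Icc (0 : ℝ) 1 := fun τ hτ =>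
    ⟨a1.1.trans (hm τ hτ).1, (hm τ hτ).2.trans b1.2⟩
  have hn : ∀ τ ∈ Icc (0 : ℝ) 1, r₂ + τ * (r₁ - r₂) ∈ Icc r₂ r₁ := fun τ hτ =>
    ⟨by nlinarith [hτ.1], by nlinarith [hτ.2]⟩
  obtain ⟨A, hA⟩ : ∃ A : ℝ → ℂ, A = fun τ => α (t₁ + τ * (t₂ - t₁)) := ⟨_, rfl⟩
  obtain ⟨B, hB⟩ : ∃ B : ℝ → ℂ, B = fun τ => x + (r₂ + τ * (r₁ - r₂) : ℝ) * ν := ⟨_, rfl⟩
  have A0 : A 0 = x + r₁ * ν := by simp [hA, ← a3]
  have A1 : A 1 = x + r₂ * ν := by simp [hA, ← b3]
  have e : A 1 = B 0 := by simp [A1, hB]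
  have hAc : Continuous A := by rw [hA]; fun_prop
  have hBc : Continuous B := by rw [hB]; fun_prop
  have hBi : B '' Icc 0 1 = (fun l : ℝ => x + l * ν) '' Icc r₂ r₁ := by
    ext z
    constructor
    · rintro ⟨τ, hτ, rfl⟩
      exact ⟨_, hn τ hτ, by rw [hB]⟩
    · rintro ⟨l, hl, rfl⟩
      have : 0 < r₁ - r₂ := by linarith
      refine ⟨(l - r₂) / (r₁ - r₂), ⟨div_nonneg (by linarith [hl.1]) this.le,
        (div_le_one this).2 (by linarith [hl.2])⟩, ?_⟩
      rw [hB]; simp only [div_mul_cancel₀ _ this.ne', add_sub_cancel]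
  refine ⟨A, r₁, r₂, hAc, ⟨c1, a2.2⟩, ⟨b2.1, c2⟩, A0, A1, ?_, cat A B, (cat_cont hAc hBc).continuousOn,
    ?_, cat_inj e ?_ ?_ Ico_subset_Icc_self ?_, by rw [cat_image e, hBi]⟩
  · rintro _ ⟨τ, hτ, rfl⟩
    rw [hA]; exact h5 _ (hm' τ hτ)
  · rw [cat_le (by norm_num), cat_ge e (by norm_num)]
    norm_num [A0, hB]
  · intro a ha b hb hab
    rw [hA] at hab
    have := h2 (hm' a ha) (hm' b hb) hab
    exact mul_right_cancel₀ (by linarith : t₂ - t₁ ≠ 0) (add_left_cancel this)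
  · intro a _ b _ hab
    rw [hB] at hab
    have := hinj hab
    exact mul_right_cancel₀ (by linarith : r₁ - r₂ ≠ 0) (add_left_cancel this)
  · intro a ha b hb hb' hab
    rw [hA, hB] at hab
    simp only at hab
    have d0 := hn b hb
    rcases le_total 0 (r₂ + b * (r₁ - r₂)) with d | d
    · have d1 := a4 _ (hm' a ha) ⟨_, ⟨d, d0.2.trans a2.2⟩, hab.symm⟩
      rw [le_antisymm d1 (hm a ha).1, ← a3] at hab
      have := hinj hab
      nlinarith [hb'.2]
    · have d1 := b4 _ ⟨(hm a ha).1, (hm' a ha).2⟩ ⟨_, ⟨b2.1.trans d0.1, d⟩, hab.symm⟩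
      rw [le_antisymm (hm a ha).2 d1, ← b3] at hab
      have := hinj hab
      exact (mul_eq_zero.1 (by linarith : b * (r₁ - r₂) = 0)).resolve_right (by linarith)

namespace Imm
variable (c : Imm)

theorem near_set {A : Set ℝ} (hA : IsCompact A) (x : ℂ) {ε : ℝ} (hε : 0 < ε) :
    ∀ᶠ p in 𝓝 x, ∀ r ∈ A, c.γ r = p → ∃ r₀ ∈ A, c.γ r₀ = x ∧ |r - r₀| < ε := by
  refine hA.eventually_forall_of_forall_eventually fun t ht => ?_
  by_cases h : c.γ t = x
  · have : ∀ᶠ z : ℂ × ℝ in 𝓝 (x, t), |z.2 - t| < ε := by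
      have h2 : Continuous fun z : ℂ × ℝ => |z.2 - t| := by fun_prop
      exact h2.continuousAt.eventually (gt_mem_nhds (by simpa using hε))
    filter_upwards [this] with z hz _
    exact ⟨t, ht, h, hz⟩
  · have h2 : IsClosed {z : ℂ × ℝ | c.γ z.2 = z.1} := by
      have := c.cont
      exact isClosed_eq (by fun_prop) (by fun_prop)
    filter_upwards [h2.isOpen_compl.mem_nhds (show (x, t) ∈ _ from h)] with z hz h3
    exact absurd h3 hz

theorem range_eq {s t : ℝ} : range c.γ = c.γ '' Icc s t ∪ c.γ '' Icc t (s + 1) := by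
  refine subset_antisymm ?_ (union_subset (image_subset_range _ _) (image_subset_range _ _))
  rintro _ ⟨r, rfl⟩
  have h1 : c.γ (s + Int.fract (r - s)) = c.γ r := by
    refine (Zq.per c.per ⟨⌊r - s⌋, ?_⟩).symm
    rw [Int.fract]; ring
  have h2 := fract_mem (r - s)
  rcases le_total (s + Int.fract (r - s)) t with h | h
  · exact Or.inl ⟨_, ⟨by linarith [h2.1], h⟩, h1⟩
  · exact Or.inr ⟨_, ⟨h, by linarith [h2.2]⟩, h1⟩

theorem nug {s t : ℝ} (hst : s < t) (hts : t < s + 1) (h : c.γ s = c.γ t)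
    (hκ : cr (deriv c.γ s) (deriv c.γ t) ≠ 0)
    (h1 : ∀ r ∈ Icc s t, c.γ r = c.γ s → r = s ∨ r = t)
    (h2 : ∀ r ∈ Icc t (s + 1), c.γ r = c.γ s → r = t ∨ r = s + 1)
    (hL : c.γ '' Icc s t ∩ c.γ '' Icc t (s + 1) ⊆ {c.γ s}) : Nugatory c.γ (c.γ s) := by
  obtain ⟨⟨W, hWo, hW0, hWi, -⟩, hζ⟩ := chart_exists (c.strict_Q s t) hκ
  obtain ⟨ε, hε, hb⟩ := Metric.isOpen_iff.1 hWo _ hW0
  have hQ0 : c.Q s t (0, 0) = c.γ s := by rw [c.Q_fst h, add_zero]
  have hT : Tendsto (c.Q s t) (𝓝 (0, 0)) (𝓝 (c.γ s)) := hQ0 ▸ (c.cont_Q s t).continuousAt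
  have m1 : ∀ a : ℝ, |a| < ε → (a, (0 : ℝ)) ∈ W := fun a ha => hb (by simpa [Prod.dist_eq, hε])
  have m2 : ∀ a : ℝ, |a| < ε → ((0 : ℝ), a) ∈ W := fun a ha => hb (by simpa [Prod.dist_eq, hε])
  have F1 : ∀ᶠ y in 𝓝 ((0 : ℝ), (0 : ℝ)),
      (c.Q s t y ∈ c.γ '' Icc s t → 0 ≤ y.1 ∧ y.2 ≤ 0) ∧
      (c.Q s t y ∈ c.γ '' Icc t (s + 1) → y.1 ≤ 0 ∧ 0 ≤ y.2) := by
    filter_upwards [hT.eventually (c.near_set (isCompact_Icc (a := s) (b := t)) _ hε),
      hT.eventually (c.near_set (isCompact_Icc (a := t) (b := s + 1)) _ hε), hWo.mem_nhds hW0]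
      with y a1 a2 a3
    constructor
    · rintro ⟨r, hr, e⟩
      obtain ⟨r₀, b1, b2, b3⟩ := a1 r hr e
      rcases h1 r₀ b1 b2 with rfl | rfl
      · rw [← hWi (m1 _ b3) a3 (by rw [c.Q_fst h, ← e]; congr 1; ring)]
        exact ⟨by linarith [hr.1], le_rfl⟩
      · rw [← hWi (m2 _ b3) a3 (by rw [c.Q_snd, ← e]; congr 1; ring)]
        exact ⟨le_rfl, by linarith [hr.2]⟩
    · rintro ⟨r, hr, e⟩
      obtain ⟨r₀, b1, b2, b3⟩ := a2 r hr e
      rcases h2 r₀ b1 b2 with rfl | rfl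
      · rw [← hWi (m2 _ b3) a3 (by rw [c.Q_snd, ← e]; congr 1; ring)]
        exact ⟨le_rfl, by linarith [hr.1]⟩
      · rw [← hWi (m1 _ b3) a3 (by rw [c.Q_fst h, ← e, ← c.per]; congr 1; ring)]
        exact ⟨by linarith [hr.2], le_rfl⟩
  obtain ⟨ε₀, hε₀, hb₀⟩ := Metric.eventually_nhds_iff_ball.1 F1
  obtain ⟨ν, hν⟩ : ∃ ν, ν = deriv c.γ s + deriv c.γ t := ⟨_, rfl⟩
  have hκν : cr ν (deriv c.γ s) ≠ 0 := by
    have : cr ν (deriv c.γ s) = - cr (deriv c.γ s) (deriv c.γ t) := by simp [hν, cr]; ring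
    rw [this]; exact neg_ne_zero.2 hκ
  have hν0 : ν ≠ 0 := by rintro rfl; simp [cr] at hκν
  obtain ⟨ζ, z1, z2, z3⟩ := hζ (fun r : ℝ => c.γ s + r * ν) 1 1 0 (by
    have := ((hasDerivAt_id (0 : ℝ)).ofReal_comp.mul_const ν).const_add (c.γ s)
    simpa [hν] using this) (by simp [hQ0])
  have z4 := sign_of_deriv ((ContinuousLinearMap.fst ℝ ℝ ℝ).hasFDerivAt.comp_hasDerivAt 0 z1)
    (by simp [z2]) one_ne_zero
  have z5 := sign_of_deriv ((ContinuousLinearMap.snd ℝ ℝ ℝ).hasFDerivAt.comp_hasDerivAt 0 z1)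
    (by simp [z2]) one_ne_zero
  have z6 : ∀ᶠ r in 𝓝 (0 : ℝ), ζ r ∈ Metric.ball ((0 : ℝ), (0 : ℝ)) ε₀ :=
    z1.continuousAt.eventually (by rw [z2]; exact Metric.ball_mem_nhds _ hε₀)
  obtain ⟨ρ, hρ, hbρ⟩ := Metric.eventually_nhds_iff.1 (z3.and (z4.and (z5.and z6)))
  simp only [Function.comp, ContinuousLinearMap.coe_fst', ContinuousLinearMap.coe_snd', one_mul,
    sub_zero, Real.dist_eq] at hbρ
  have hoff : ∀ r : ℝ, |r| < ρ → r ≠ 0 → c.γ s + r * ν ∉ range c.γ := by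
    intro r a1 a2 a3
    obtain ⟨b1, b2, b3, b4⟩ := hbρ a1
    rw [c.range_eq (s := s) (t := t), ← b1] at a3
    rcases lt_or_gt_of_ne a2 with a4 | a4 <;> rcases a3 with a3 | a3
    · linarith [((hb₀ _ b4).1 a3).1, b2.2.2 a4]
    · linarith [((hb₀ _ b4).2 a3).2, b3.2.2 a4]
    · linarith [((hb₀ _ b4).1 a3).2, b3.1.2 a4]
    · linarith [((hb₀ _ b4).2 a3).1, b2.1.2 a4]
  obtain ⟨p1, p2, p3, p4⟩ := hbρ (y := ρ / 2) (by rw [abs_of_pos (by linarith)]; linarith)
  obtain ⟨q1, q2, q3, q4⟩ := hbρ (y := -(ρ / 2)) (by rw [abs_of_neg (by linarith)]; linarith)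
  have hcv : ∀ f g : ℝ × ℝ →ₗ[ℝ] ℝ, ∀ z ∈ Metric.ball ((0 : ℝ), (0 : ℝ)) ε₀, 0 < f z → 0 < g z →
      IsPreconnected (c.Q s t '' ((Metric.ball ((0 : ℝ), (0 : ℝ)) ε₀ ∩ {y | 0 < f y}) ∪
        (Metric.ball ((0 : ℝ), (0 : ℝ)) ε₀ ∩ {y | 0 < g y}))) := fun f g z a1 a2 a3 =>
    (IsPreconnected.union z (mem_inter a1 a2) (mem_inter a1 a3)
      ((convex_ball _ _).inter (convex_halfSpace_gt f.isLinear 0)).isPreconnected
      ((convex_ball _ _).inter (convex_halfSpace_gt g.isLinear 0)).isPreconnected).image _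
      (c.cont_Q s t).continuousOn
  have hJ := janiszewski (A := c.γ '' Icc s t) (B := c.γ '' Icc t (s + 1))
    (isCompact_Icc.image c.cont) (isCompact_Icc.image c.cont).isClosed (x := c.γ s)
    (p := c.γ s + (ρ / 2 : ℝ) * ν) (q := c.γ s + (-(ρ / 2) : ℝ) * ν)
    ⟨s, ⟨le_rfl, hst.le⟩, rfl⟩ ⟨t, ⟨le_rfl, hts.le⟩, h.symm⟩ hL
    (hcv (-LinearMap.fst ℝ ℝ ℝ) (LinearMap.snd ℝ ℝ ℝ) (-(ε₀ / 2), ε₀ / 2)
      (by simp [Prod.dist_eq, abs_of_pos hε₀, hε₀]) (by simpa) (by simpa))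
    (by
      rintro _ ⟨y, (⟨a1, a2⟩ | ⟨a1, a2⟩), rfl⟩ a3
      · simp at a2; linarith [((hb₀ _ a1).1 a3).1]
      · simp at a2; linarith [((hb₀ _ a1).1 a3).2])
    (hcv (LinearMap.fst ℝ ℝ ℝ) (-LinearMap.snd ℝ ℝ ℝ) (ε₀ / 2, -(ε₀ / 2))
      (by simp [Prod.dist_eq, abs_of_pos hε₀, hε₀]) (by simpa) (by simpa))
    (by
      rintro _ ⟨y, (⟨a1, a2⟩ | ⟨a1, a2⟩), rfl⟩ a3
      · simp at a2; linarith [((hb₀ _ a1).2 a3).1]
      · simp at a2; linarith [((hb₀ _ a1).2 a3).2])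
    ⟨⟨_, Or.inr ⟨p4, p3.1.2 (by linarith)⟩, p1⟩, ⟨_, Or.inl ⟨p4, p2.1.2 (by linarith)⟩, p1⟩⟩
    ⟨⟨_, Or.inl ⟨q4, by simpa using q2.2.2 (by linarith)⟩, q1⟩,
      ⟨_, Or.inr ⟨q4, by simpa using q3.2.2 (by linarith)⟩, q1⟩⟩
  rw [← c.range_eq] at hJ
  have hO : IsOpen (range c.γ)ᶜ := (c.per.compact_of_continuous one_ne_zero c.cont).isClosed.isOpen_compl
  have harc := exists_arc hO hJ (fun e => by
    have : (ρ / 2 : ℝ) = -(ρ / 2) := by exact_mod_cast mul_right_cancel₀ hν0 (add_left_cancel e)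
    linarith)
  obtain ⟨α, r₁, r₂, a1, a2, a3, a4, a5, a6, a7⟩ := jordan_of_arc hν0 (by linarith)
    (show c.γ s ∉ (range c.γ)ᶜ from fun h => h ⟨s, rfl⟩) harc
  refine ⟨_, a7, ?_, ?_⟩
  · ext z
    constructor
    · rintro ⟨h3 | ⟨l, hl, rfl⟩, h4⟩
      · exact absurd h4 (a6 h3)
      · by_cases h5 : l = 0
        · simp [h5]
        · exact absurd h4 (hoff l (abs_lt.2 ⟨by linarith [hl.1, a3.1], by linarith [hl.2, a2.2]⟩) h5)
    · rintro rfl
      exact ⟨Or.inr ⟨0, ⟨a3.2.le, a2.1.le⟩, by simp⟩, s, rfl⟩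
  · have hsep := separates a1 hν0 a2.1 a3.2 a4 a5 (fun h => a6 h ⟨s, rfl⟩) subset_union_left
      (C := α '' Icc 0 1 ∪ (fun l : ℝ => c.γ s + l * ν) '' Icc r₂ r₁)
      (fun r hr => Or.inr ⟨r, hr, rfl⟩)
    have d1 : HasDerivAt (fun r => cr ν (c.γ r - c.γ s)) (cr ν (deriv c.γ s)) s := by
      have e1 := reCLM.hasFDerivAt.comp_hasDerivAt s ((c.hasDeriv s).sub_const (c.γ s))
      have e2 := imCLM.hasFDerivAt.comp_hasDerivAt s ((c.hasDeriv s).sub_const (c.γ s))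
      exact (e2.const_mul ν.re).sub (e1.const_mul ν.im)
    have d2 := sign_of_deriv d1 (by simp [cr]) hκν
    obtain ⟨r, b1, b2, b3⟩ := ((freq_pos hκν s).and_eventually
      (d2.and (c.cont.continuousAt.eventually hsep))).exists
    obtain ⟨r', b4, b5, b6⟩ := ((freq_neg hκν s).and_eventually
      (d2.and (c.cont.continuousAt.eventually b3))).exists
    refine ⟨c.γ r, ⟨⟨r, rfl⟩, fun e => ?_⟩, c.γ r', ⟨⟨r', rfl⟩, fun e => ?_⟩,
      b6 (b2.1.2 b1) (b5.2.2 b4)⟩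
    · have := b2.1.2 b1
      rw [show c.γ r = c.γ s from e] at this
      simp [cr] at this
    · have := b5.2.2 b4
      rw [show c.γ r' = c.γ s from e] at this
      simp [cr] at this

end Imm

end Pool.Agent.MP_a5f24b_gt

end

-- part MP_a5f24b_gt.Shadow
section

/-! The Casson invariant of a resolution of a shadow is the Ising energy of the chord graph. -/

namespace Pool.Agent.MP_a5f24b_gt
open Set Filter Topology Complex

/-- The mirror image of a diagram. -/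
def Dg.mirror {ι : Type} (D : Dg ι) : Dg ι where
  toImm := D.toImm
  h := fun s => - D.h s
  o := D.u
  u := D.o
  hc := D.hc.neg
  hper := fun s => by simp only [D.hper s]
  o_mem := D.u_mem
  u_mem := D.o_mem
  ou := fun i => (D.ou i).symm
  lt := fun i => neg_lt_neg (D.lt i)
  inj := fun i j h => D.inj (by simpa only [D.ou] using h)
  dbl := fun s hs t ht h => (D.dbl s hs t ht h).imp id fun ⟨i, hi⟩ => ⟨i, hi.symm⟩
  tr := fun i => by rw [cr_swap]; exact neg_ne_zero.2 (D.tr i)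

theorem Dg.tInv_mirror {ι : Type} [Fintype ι] (D : Dg ι) : tInv D.Nm = tInv D.mirror.Nm := by
  refine inv_homeo (f := (Homeomorph.refl ℂ).prodCongr (Homeomorph.neg ℝ)) fun w => ?_
  obtain ⟨p, z⟩ := w
  simp [Dg.K, Dg.mirror]

open Classical in
/-- Indicator of `x < y`. -/
noncomputable def χ (x y : ℝ) : ℤ := if x < y then 1 else 0

open Classical in
/-- Indicator that the chords `(a, b)` and `(a', b')` are interlaced. -/
noncomputable def Il (a b a' b' : ℝ) : ℤ :=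
  if (a < a' ∧ a' < b ∧ b < b') ∨ (a' < a ∧ a < b' ∧ b' < b) then 1 else 0

theorem pair {a b a' b' : ℝ} (h : a < b) (h' : a' < b') (h1 : a ≠ a') (h2 : a ≠ b') (h3 : b ≠ a')
    (h4 : b ≠ b') :
    (χ b' a - χ b' b) * (χ b a' - χ b b') + (χ a' b - χ a' a) * (χ a b' - χ a a') = 0 ∧
    (χ a' a - χ a' b) * (χ b b' - χ b a') + (χ b' b - χ b' a) * (χ a a' - χ a b') =
      - Il a b a' b' := by
  unfold χ Il
  rcases lt_or_gt_of_ne h1 with h1 | h1 <;> rcases lt_or_gt_of_ne h2 with h2 | h2 <;>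
    rcases lt_or_gt_of_ne h3 with h3 | h3 <;> rcases lt_or_gt_of_ne h4 with h4 | h4 <;>
    first
      | (exfalso; linarith)
      | simp [h1, h2, h3, h4, not_lt.2 h1.le, not_lt.2 h2.le, not_lt.2 h3.le, not_lt.2 h4.le]

namespace Dg
variable {ι : Type} (D : Dg ι)

theorem o_ne_u (i k : ι) : D.o i ≠ D.u k := fun h => D.o_not_under i k (h ▸ Zq.refl _)

theorem step_eq {k : ι} {s : ℝ} (h : s ≠ D.u k) : D.step k s = χ (D.u k) s := by
  unfold step χ
  split_ifs with h1 h2 h3 h4 h5 <;> first | rfl | skip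
  · exact absurd (lt_of_le_of_ne h3 h.symm) h4
  · exact absurd h5.le h3

theorem Nm_diag (i : ι) : D.Nm i i * D.Nm i i = D.Nm i i := by
  simp only [Nm, Matrix.of_apply, D.step_eq (D.o_ne_u i i)]
  unfold ε step χ
  split_ifs <;> simp_all

theorem Nm_off {i k : ι} (h : i ≠ k) :
    D.Nm i k = D.ε i * (χ (D.u k) (D.o i) - χ (D.u k) (D.u i)) := by
  simp only [Nm, Matrix.of_apply, D.step_eq (D.o_ne_u i k), D.step_eq (fun e => h (u_inj e))]

theorem ε_mirror (i : ι) : D.mirror.ε i = - D.ε i := by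
  have h1 : D.mirror.κ i = - D.κ i := cr_swap _ _
  have h2 : D.κ i ≠ 0 := D.tr i
  unfold ε
  rw [h1]
  rcases lt_or_gt_of_ne h2 with h | h
  · rw [if_pos (by linarith), if_neg (by linarith)]; rfl
  · rw [if_neg (by linarith), if_pos h]

theorem tInv_eq [Fintype ι] [DecidableEq ι] :
    tInv D.Nm = - ∑ i, ∑ k, if i = k then 0 else D.Nm i k * D.Nm k i := by
  rw [tInv, ← Finset.sum_sub_distrib, ← Finset.sum_neg_distrib]
  refine Finset.sum_congr rfl fun i _ => ?_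
  rw [← Finset.add_sum_erase _ _ (Finset.mem_univ i), ← Finset.add_sum_erase _ _ (Finset.mem_univ i),
    D.Nm_diag, if_pos rfl, Finset.sum_congr rfl
      (fun k hk => if_neg (Finset.ne_of_mem_erase hk).symm)]
  ring

end Dg

/-- A shadow whose base point `0` is not a double point. -/
structure Sh (ι : Type) extends Imm where
  a : ι → ℝ
  b : ι → ℝ
  a_pos : ∀ i, 0 < a i
  ab : ∀ i, a i < b i
  b_lt : ∀ i, b i < 1
  eq : ∀ i, γ (a i) = γ (b i)
  inj : Function.Injective fun i => γ (a i)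
  dbl : ∀ s ∈ Ico (0 : ℝ) 1, ∀ t ∈ Ico (0 : ℝ) 1, γ s = γ t →
    s = t ∨ ∃ i, (s = a i ∧ t = b i) ∨ (s = b i ∧ t = a i)
  tr : ∀ i, cr (deriv γ (a i)) (deriv γ (b i)) ≠ 0

namespace Sh
variable {ι : Type} (S : Sh ι)

open Classical in
/-- The diagram given by a height function. -/
noncomputable def dg (h : ℝ → ℝ) (hc : Continuous h) (hp : Function.Periodic h 1)
    (hne : ∀ i, h (S.a i) ≠ h (S.b i)) : Dg ι where
  toImm := S.toImm
  h := h
  o := fun i => if h (S.a i) < h (S.b i) then S.b i else S.a i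
  u := fun i => if h (S.a i) < h (S.b i) then S.a i else S.b i
  hc := hc
  hper := hp
  o_mem := fun i => by
    split_ifs <;> constructor <;> linarith [S.a_pos i, S.ab i, S.b_lt i]
  u_mem := fun i => by
    split_ifs <;> constructor <;> linarith [S.a_pos i, S.ab i, S.b_lt i]
  ou := fun i => by split_ifs <;> simp [S.eq i]
  lt := fun i => by
    split_ifs with h1
    · exact h1
    · exact lt_of_le_of_ne (not_lt.1 h1) (hne i).symm
  inj := fun i j e => S.inj (by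
    simp only at e ⊢
    split_ifs at e <;> simpa only [S.eq] using e)
  dbl := fun s hs t ht e => (S.dbl s hs t ht e).imp id fun ⟨i, hi⟩ => ⟨i, by
    split_ifs
    · exact hi.symm
    · exact hi⟩
  tr := fun i => by
    split_ifs
    · rw [cr_swap]; exact neg_ne_zero.2 (S.tr i)
    · exact S.tr i

open Classical in
/-- The sign of a crossing when the first passage is the upper one. -/
noncomputable def sg (i : ι) : ℤ := if 0 < cr (deriv S.γ (S.a i)) (deriv S.γ (S.b i)) then 1 else -1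

/-- The chord graph. -/
noncomputable def w (i k : ι) : ℤ := Il (S.a i) (S.b i) (S.a k) (S.b k)

theorem w_symm (i k : ι) : S.w i k = S.w k i := by simp only [w, Il, or_comm]
theorem w_self (i : ι) : S.w i i = 0 := by simp [w, Il]
theorem w_nonneg (i k : ι) : 0 ≤ S.w i k := by unfold w Il; split_ifs <;> simp

theorem sg_sq (i : ι) : S.sg i * S.sg i = 1 := by unfold sg; split_ifs <;> rfl

theorem ε_dg {h : ℝ → ℝ} (hc : Continuous h) (hp : Function.Periodic h 1)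
    (hne : ∀ i, h (S.a i) ≠ h (S.b i)) (i : ι) :
    (S.dg h hc hp hne).ε i = if h (S.a i) < h (S.b i) then - S.sg i else S.sg i := by
  have h2 := S.tr i
  unfold Dg.ε Dg.κ sg
  simp only [dg]
  by_cases h1 : h (S.a i) < h (S.b i)
  · simp only [if_pos h1]
    rw [cr_swap]
    rcases lt_or_gt_of_ne h2 with h | h
    · rw [if_pos (by linarith), if_neg (by linarith)]; rfl
    · rw [if_neg (by linarith), if_pos h]
  · simp only [if_neg h1]

theorem ne_params {i k : ι} (h : i ≠ k) :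
    S.a i ≠ S.a k ∧ S.a i ≠ S.b k ∧ S.b i ≠ S.a k ∧ S.b i ≠ S.b k :=
  ⟨fun e => h (S.inj (by simp only [e])), fun e => h (S.inj (by simp only [e, S.eq k])),
    fun e => h (S.inj (by simp only [S.eq i, e])), fun e => h (S.inj (by simp only [S.eq, e]))⟩

theorem energy [Fintype ι] {h : ℝ → ℝ} (hc : Continuous h) (hp : Function.Periodic h 1)
    (hne : ∀ i, h (S.a i) ≠ h (S.b i)) :
    4 * tInv (S.dg h hc hp hne).Nm = En S.w (S.dg h hc hp hne).ε - En S.w S.sg := by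
  classical
  obtain ⟨D, hD⟩ : ∃ D, D = S.dg h hc hp hne := ⟨_, rfl⟩
  have e1 : 4 * tInv D.Nm = 2 * (tInv D.Nm + tInv D.mirror.Nm) := by
    rw [← D.tInv_mirror]; ring
  rw [← hD, e1, D.tInv_eq, D.mirror.tInv_eq, En, En, ← neg_add, ← Finset.sum_add_distrib,
    ← Finset.sum_sub_distrib, ← Finset.sum_neg_distrib, Finset.mul_sum]
  refine Finset.sum_congr rfl fun i _ => ?_
  rw [← Finset.sum_add_distrib, ← Finset.sum_sub_distrib, ← Finset.sum_neg_distrib, Finset.mul_sum]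
  refine Finset.sum_congr rfl fun k _ => ?_
  by_cases hik : i = k
  · subst hik; simp [S.w_self]
  rw [if_neg hik, if_neg hik, D.Nm_off hik, D.Nm_off (Ne.symm hik), D.mirror.Nm_off hik,
    D.mirror.Nm_off (Ne.symm hik), D.ε_mirror, D.ε_mirror]
  obtain ⟨n1, n2, n3, n4⟩ := S.ne_params hik
  obtain ⟨p1, p2⟩ := pair (S.ab i) (S.ab k) n1 n2 n3 n4
  have a1 := S.ε_dg hc hp hne i
  have a2 := S.ε_dg hc hp hne k
  rw [← hD] at a1 a2
  rw [a1, a2, w]
  simp only [Dg.mirror, hD, dg]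
  split_ifs
  · linear_combination (-2 * S.sg i * S.sg k) * p1
  · linear_combination (2 * S.sg i * S.sg k) * p2
  · linear_combination (2 * S.sg i * S.sg k) * p2
  · linear_combination (-2 * S.sg i * S.sg k) * p1

theorem exists_height [Fintype ι] (v : ι → ℝ) : ∃ h : ℝ → ℝ, ContDiff ℝ ⊤ h ∧
    Function.Periodic h 1 ∧ ∀ i, h (S.a i) = v i ∧ h (S.b i) = 0 := by
  classical
  obtain ⟨e, he⟩ : ∃ e : ℝ → ℂ, e = fun s : ℝ => Complex.exp (s * (2 * Real.pi * I)) := ⟨_, rfl⟩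
  have hinj : InjOn e (Ico 0 1) := by
    intro s hs t ht hst
    rw [he] at hst
    obtain ⟨n, hn⟩ := Complex.exp_eq_exp_iff_exists_int.1 hst
    rw [← add_mul] at hn
    have := mul_right_cancel₀ Complex.two_pi_I_ne_zero hn
    exact (Zq.eq ⟨n, by exact_mod_cast this⟩ ht hs).symm
  have ma : ∀ i, S.a i ∈ Ico (0 : ℝ) 1 := fun i => ⟨(S.a_pos i).le, (S.ab i).trans (S.b_lt i)⟩
  have mb : ∀ i, S.b i ∈ Ico (0 : ℝ) 1 := fun i => ⟨((S.a_pos i).trans (S.ab i)).le, S.b_lt i⟩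
  have hn : InjOn (Sum.elim (fun i => e (S.a i)) (fun i => e (S.b i)))
      (Finset.univ : Finset (ι ⊕ ι)) := by
    rintro (i | i) - (k | k) - hik
    · by_contra h; exact (S.ne_params (fun e => h (by rw [e]))).1 (hinj (ma i) (ma k) hik)
    · have := hinj (ma i) (mb k) hik
      by_cases h : i = k
      · subst h; exact absurd this (S.ab i).ne
      · exact absurd this (S.ne_params h).2.1
    · have := hinj (mb i) (ma k) hik
      by_cases h : i = k
      · subst h; exact absurd this (S.ab i).ne'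
      · exact absurd this (S.ne_params h).2.2.1
    · by_contra h; exact (S.ne_params (fun e => h (by rw [e]))).2.2.2 (hinj (mb i) (mb k) hik)
  obtain ⟨p, hp⟩ : ∃ p : Polynomial ℂ, p = Lagrange.interpolate Finset.univ
    (Sum.elim (fun i => e (S.a i)) (fun i => e (S.b i))) (Sum.elim (fun i => (v i : ℂ)) fun _ => 0) :=
    ⟨_, rfl⟩
  refine ⟨fun s => (p.eval (e s)).re, ?_, fun s => ?_, fun i => ⟨?_, ?_⟩⟩
  · have h1 : ContDiff ℝ ⊤ e := by
      rw [he]
      exact (ofRealCLM.contDiff.mul contDiff_const).cexp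
    have h2 : ContDiff ℝ ⊤ fun z : ℂ => p.eval z := by
      have := (p.contDiff_aeval (𝕜 := ℂ) ⊤).restrict_scalars ℝ
      simpa [Polynomial.coe_aeval_eq_eval] using this
    exact reCLM.contDiff.comp (h2.comp h1)
  · simp [he, add_mul, Complex.exp_add]
  · have := Lagrange.eval_interpolate_at_node (Sum.elim (fun i => (v i : ℂ)) fun _ => 0) hn
      (Finset.mem_univ (Sum.inl i))
    rw [← hp] at this
    simp only [Sum.elim_inl] at this
    simp [this]
  · have := Lagrange.eval_interpolate_at_node (Sum.elim (fun i => (v i : ℂ)) fun _ => 0) hn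
      (Finset.mem_univ (Sum.inr i))
    rw [← hp] at this
    simp only [Sum.elim_inr] at this
    simp [this]

theorem at_a {i : ι} {r : ℝ} (hr : r ∈ Ico (0 : ℝ) 1) (h : S.γ r = S.γ (S.a i)) :
    r = S.a i ∨ r = S.b i := by
  rcases S.dbl r hr _ ⟨(S.a_pos i).le, (S.ab i).trans (S.b_lt i)⟩ h with h1 | ⟨k, h1 | h1⟩
  · exact Or.inl h1
  · by_cases e : i = k
    · subst e; exact Or.inl h1.1
    · exact absurd h1.2 (S.ne_params e).2.1
  · by_cases e : i = k
    · subst e; exact Or.inr h1.1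
    · exact absurd h1.2 (S.ne_params e).1

theorem nugatory {i : ι} (h : ∀ k, S.w i k = 0) : Nugatory S.γ (S.γ (S.a i)) := by
  have a1 := S.a_pos i
  have a2 := S.ab i
  have a3 := S.b_lt i
  have red : ∀ r ∈ Icc (S.b i) (S.a i + 1), ∃ r' ∈ Ico (0 : ℝ) 1, S.γ r' = S.γ r ∧
      ((r' = r ∧ S.b i ≤ r') ∨ (r' = r - 1 ∧ r' ≤ S.a i)) := by
    intro r hr
    rcases lt_or_ge r 1 with h1 | h1
    · exact ⟨r, ⟨by linarith [hr.1], h1⟩, rfl, Or.inl ⟨rfl, hr.1⟩⟩
    · exact ⟨r - 1, ⟨by linarith, by linarith [hr.2]⟩, S.per.sub_eq r,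
        Or.inr ⟨rfl, by linarith [hr.2]⟩⟩
  refine S.nug a2 (by linarith) (S.eq i) (S.tr i)
    (fun r hr e => S.at_a ⟨by linarith [hr.1], by linarith [hr.2]⟩ e) (fun r hr e => ?_) ?_
  · obtain ⟨r', b1, b2, b3⟩ := red r hr
    rcases S.at_a b1 (b2.trans e) with b4 | b4 <;> rcases b3 with b3 | b3
    · linarith [b3.2]
    · right; linarith [b3.1]
    · left; linarith [b3.1]
    · linarith [b3.2]
  · rintro _ ⟨⟨s, hs, rfl⟩, ⟨r, hr, e⟩⟩
    obtain ⟨r', b1, b2, b3⟩ := red r hr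
    by_contra hne
    have c1 : s ≠ S.a i := fun e => hne (by rw [e]; rfl)
    have c2 : s ≠ S.b i := fun e => hne (by rw [e, ← S.eq]; rfl)
    have c3 : r' ≠ S.a i := fun e' => hne (by rw [← e, ← b2, e']; rfl)
    have c4 : r' ≠ S.b i := fun e' => hne (by rw [← e, ← b2, e', ← S.eq]; rfl)
    have d1 := lt_of_le_of_ne hs.1 c1.symm
    have d2 := lt_of_le_of_ne hs.2 c2
    have d3 : S.b i < r' ∨ r' < S.a i :=
      b3.imp (fun h => lt_of_le_of_ne h.2 c4.symm) fun h => lt_of_le_of_ne h.2 c3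
    rcases S.dbl s ⟨by linarith, by linarith⟩ r' b1 (e.symm.trans b2.symm) with
      h1 | ⟨k, ⟨h1, h2⟩ | ⟨h1, h2⟩⟩
    · rcases d3 with d3 | d3 <;> linarith
    · have := h k
      have a4 := S.ab k
      rw [w, Il, if_pos (Or.inl ⟨h1 ▸ d1, h1 ▸ d2, by rcases d3 with d3 | d3 <;> linarith⟩)] at this
      exact one_ne_zero this
    · have := h k
      have a4 := S.ab k
      rw [w, Il, if_pos (Or.inr ⟨by rcases d3 with d3 | d3 <;> linarith, h1 ▸ d1, h1 ▸ d2⟩)] at this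
      exact one_ne_zero this

end Sh

end Pool.Agent.MP_a5f24b_gt

end

-- part MP_a5f24b_gt.Main
section

/-! From a shadow in the sense of the statement to the combinatorial data; finiteness of the set
of resolutions; the lower bound. -/

namespace Pool.Agent.MP_a5f24b_gt
open Set Filter Topology Complex
open scoped ContDiff unitInterval

theorem mem_crossings {γ : ℝ → ℂ} (hp : Function.Periodic γ 1) {x : ℂ} :
    x ∈ crossings γ ↔ ∃ s t, ¬ Zq s t ∧ γ s = x ∧ γ t = x := by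
  constructor
  · rintro ⟨s, hs, t, ht, h1, h2, h3⟩
    exact ⟨s, t, fun h => h1 (h.eq hs ht), h2, h3⟩
  · rintro ⟨s, t, h1, h2, h3⟩
    refine ⟨_, fract_mem s, _, fract_mem t, fun h => h1 ((Zq.fract s).symm.trans (h ▸ Zq.fract t)),
      by rw [← (Zq.fract s).per hp, h2], by rw [← (Zq.fract t).per hp, h3]⟩

theorem zq_of_fract {s t : ℝ} (h : Int.fract s = Int.fract t) : Zq s t :=
  (Zq.fract s).symm.trans (h ▸ Zq.fract t)

theorem IsShadow.double' {γ : ℝ → ℂ} (h : IsShadow γ) {r s t : ℝ} (h1 : γ r = γ s)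
    (h2 : γ s = γ t) : Zq r s ∨ Zq s t ∨ Zq r t := by
  have := h.double _ (fract_mem r) _ (fract_mem s) _ (fract_mem t)
    (by rw [← (Zq.fract r).per h.periodic, ← (Zq.fract s).per h.periodic, h1])
    (by rw [← (Zq.fract t).per h.periodic, ← (Zq.fract s).per h.periodic, h2])
  exact this.imp zq_of_fract (Or.imp zq_of_fract zq_of_fract)

theorem IsShadow.transverse' {γ : ℝ → ℂ} (h : IsShadow γ) {s t : ℝ} (h1 : ¬ Zq s t)
    (h2 : γ s = γ t) : cr (deriv γ s) (deriv γ t) ≠ 0 := by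
  have hp : Function.Periodic (deriv γ) 1 := fun x => by
    have : (fun x => γ (x + 1)) = γ := funext h.periodic
    rw [← deriv_comp_add_const, this]
  have h3 := h.transverse _ (fract_mem s) _ (fract_mem t) (fun e => h1 (zq_of_fract e))
    (by rw [← (Zq.fract s).per h.periodic, ← (Zq.fract t).per h.periodic, h2])
  rw [← (Zq.fract s).per hp, ← (Zq.fract t).per hp, LinearIndependent.pair_iff] at h3
  intro h4
  unfold cr at h4
  have a1 := h3 (deriv γ t).re (-(deriv γ s).re) (by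
    apply Complex.ext <;> simp <;> linarith)
  have a2 := h3 (deriv γ t).im (-(deriv γ s).im) (by
    apply Complex.ext <;> simp <;> linarith)
  exact h.immersion t (Complex.ext a1.1 a2.1)

theorem IsShadow.exists_base {γ : ℝ → ℂ} (h : IsShadow γ) : ∃ s₀, γ s₀ ∉ crossings γ := by
  by_contra h1
  push Not at h1
  have h2 : (Ico (0 : ℝ) 1).Finite := by
    refine Set.Finite.subset (h.finite.biUnion (t := fun x => {s ∈ Ico (0 : ℝ) 1 | γ s = x}) ?_)
      fun s hs => mem_biUnion (h1 s) ⟨hs, rfl⟩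
    rintro x ⟨s, hs, t, ht, h2, h3, h4⟩
    refine (toFinite {s, t}).subset fun r hr => ?_
    rcases h.double r hr.1 s hs t ht (hr.2.trans h3.symm) (h3.trans h4.symm) with e | e | e
    · exact Or.inl e
    · exact absurd e h2
    · exact Or.inr e
  exact Ico_infinite one_pos h2

theorem Zq.add {s t : ℝ} (r : ℝ) : Zq (s + r) (t + r) ↔ Zq s t :=
  ⟨fun ⟨n, h⟩ => ⟨n, by linarith⟩, fun ⟨n, h⟩ => ⟨n, by linarith⟩⟩

theorem IsShadow.exists_sh {γ : ℝ → ℂ} (h : IsShadow γ) :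
    ∃ (S : Sh (crossings γ)) (s₀ : ℝ), (∀ s, S.γ s = γ (s + s₀)) ∧ ∀ i, S.γ (S.a i) = i := by
  obtain ⟨s₀, h0⟩ := h.exists_base
  have h1 : ∀ i : crossings γ, ∃ a b : ℝ, 0 < a ∧ a < b ∧ b < 1 ∧ γ (a + s₀) = i ∧
      γ (b + s₀) = i := by
    rintro ⟨x, hx⟩
    obtain ⟨s, t, a1, a2, a3⟩ := (mem_crossings h.periodic).1 hx
    have key : ∀ s, γ s = x → 0 < Int.fract (s - s₀) ∧ γ (Int.fract (s - s₀) + s₀) = x ∧
        Zq (Int.fract (s - s₀) + s₀) s := by
      intro s hs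
      have b1 : Zq (Int.fract (s - s₀) + s₀) s := by
        simpa using (Zq.add s₀).2 (Zq.fract (s - s₀))
      have b2 : γ (Int.fract (s - s₀) + s₀) = x := by rw [← b1.per h.periodic, hs]
      refine ⟨lt_of_le_of_ne (Int.fract_nonneg _) fun e => h0 ?_, b2, b1⟩
      rw [← e, zero_add] at b2
      rwa [b2]
    obtain ⟨b1, b2, b3⟩ := key s a2
    obtain ⟨c1, c2, c3⟩ := key t a3
    rcases lt_trichotomy (Int.fract (s - s₀)) (Int.fract (t - s₀)) with e | e | e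
    · exact ⟨_, _, b1, e, Int.fract_lt_one _, b2, c2⟩
    · exact absurd (b3.symm.trans (e ▸ c3)) a1
    · exact ⟨_, _, c1, e, Int.fract_lt_one _, c2, b2⟩
  choose a b h2 h3 h4 h5 h6 using h1
  have ma : ∀ i, a i ∈ Ico (0 : ℝ) 1 := fun i => ⟨(h2 i).le, (h3 i).trans (h4 i)⟩
  have mb : ∀ i, b i ∈ Ico (0 : ℝ) 1 := fun i => ⟨((h2 i).trans (h3 i)).le, h4 i⟩
  have nab : ∀ i, ¬ Zq (a i + s₀) (b i + s₀) := fun i e =>
    (h3 i).ne (((Zq.add s₀).1 e).eq (ma i) (mb i))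
  refine ⟨{
    γ := fun s => γ (s + s₀)
    smooth := (h.smooth.of_le (WithTop.coe_le_coe.2 (le_top : ((2 : ℕ∞)) ≤ ⊤))).comp (by fun_prop)
    per := fun s => by simp only [add_right_comm s 1 s₀, h.periodic (s + s₀)]
    imm := fun s => by rw [deriv_comp_add_const]; exact h.immersion _
    a := a
    b := b
    a_pos := h2
    ab := h3
    b_lt := h4
    eq := fun i => (h5 i).trans (h6 i).symm
    inj := fun i j e => Subtype.ext (by simpa only [h5] using e)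
    dbl := fun s hs t ht e => ?_
    tr := fun i => by
      rw [deriv_comp_add_const, deriv_comp_add_const]
      exact h.transverse' (nab i) ((h5 i).trans (h6 i).symm) }, s₀, fun _ => rfl, h5⟩
  by_cases hst : s = t
  · exact Or.inl hst
  right
  have hm : γ (s + s₀) ∈ crossings γ := (mem_crossings h.periodic).2
    ⟨_, _, fun e => hst (((Zq.add s₀).1 e).eq hs ht), rfl, e.symm⟩
  have key : ∀ r ∈ Ico (0 : ℝ) 1, γ (r + s₀) = γ (s + s₀) → r = a ⟨_, hm⟩ ∨ r = b ⟨_, hm⟩ := by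
    intro r hr e
    rcases h.double' (e.trans (h5 ⟨_, hm⟩).symm) ((h5 ⟨_, hm⟩).trans (h6 ⟨_, hm⟩).symm) with
      e | e | e
    · exact Or.inl (((Zq.add s₀).1 e).eq hr (ma _))
    · exact absurd e (nab _)
    · exact Or.inr (((Zq.add s₀).1 e).eq hr (mb _))
  refine ⟨⟨_, hm⟩, ?_⟩
  rcases key s hs rfl with e1 | e1 <;> rcases key t ht e.symm with e2 | e2
  · exact absurd (e1.trans e2.symm) hst
  · exact Or.inl ⟨e1, e2⟩
  · exact Or.inr ⟨e1, e2⟩
  · exact absurd (e1.trans e2.symm) hst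

theorem IsLift.ne {γ : ℝ → ℂ} (hp : Function.Periodic γ 1) {h : ℝ → ℝ} (hl : IsLift γ h) {s t : ℝ}
    (h1 : ¬ Zq s t) (h2 : γ s = γ t) : h s ≠ h t := by
  rw [(Zq.fract s).per hl.2.1, (Zq.fract t).per hl.2.1]
  exact hl.2.2 _ (fract_mem s) _ (fract_mem t) (fun e => h1 (zq_of_fract e))
    (by rw [← (Zq.fract s).per hp, ← (Zq.fract t).per hp, h2])

theorem Isotopic.refl (K : Set (ℂ × ℝ)) : Isotopic K K :=
  ⟨fun _ => id, continuous_snd, fun _ => IsHomeomorph.id, rfl, image_id _⟩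

theorem Isotopic.trans {K K' K'' : Set (ℂ × ℝ)} (h : Isotopic K K') (h' : Isotopic K' K'') :
    Isotopic K K'' := by
  obtain ⟨H, h1, h2, h3, h4⟩ := h
  obtain ⟨G, g1, g2, g3, g4⟩ := h'
  refine ⟨fun t => G t ∘ H t, g1.comp (continuous_fst.prodMk h1), fun t => (g2 t).comp (h2 t),
    by simp [h3, g3], by rw [image_comp, h4, g4]⟩

theorem knot_shift {γ : ℝ → ℂ} {ι : Type} {S : Sh ι} {s₀ : ℝ} (hS : ∀ s, S.γ s = γ (s + s₀))
    (h : ℝ → ℝ) : range (fun s => (S.γ s, h (s + s₀))) = knot γ h := by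
  ext w
  constructor
  · rintro ⟨s, rfl⟩; exact ⟨s + s₀, by simp [hS]⟩
  · rintro ⟨s, rfl⟩; exact ⟨s - s₀, by simp [hS]⟩

namespace Sh
variable {ι : Type} (S : Sh ι)

theorem isotopic_of_same [Fintype ι] {h h' : ℝ → ℝ} (hc : Continuous h)
    (hp : Function.Periodic h 1) (hne : ∀ i, h (S.a i) ≠ h (S.b i)) (hc' : Continuous h')
    (hp' : Function.Periodic h' 1) (hne' : ∀ i, h' (S.a i) ≠ h' (S.b i))
    (hs : ∀ i, h (S.a i) < h (S.b i) ↔ h' (S.a i) < h' (S.b i)) :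
    Isotopic (range fun s => (S.γ s, h s)) (range fun s => (S.γ s, h' s)) := by
  classical
  have hρ : ∀ i, 0 < (h' (S.b i) - h' (S.a i)) / (h (S.b i) - h (S.a i)) := by
    intro i
    rcases lt_or_gt_of_ne (hne i) with e | e
    · exact div_pos (by linarith [(hs i).1 e]) (by linarith)
    · have : h' (S.b i) < h' (S.a i) :=
        lt_of_le_of_ne (not_lt.1 fun e' => by linarith [(hs i).2 e']) (hne' i).symm
      exact div_pos_of_neg_of_neg (by linarith) (by linarith)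
  obtain ⟨p, hp0⟩ : ∃ p : Polynomial ℂ, p = Lagrange.interpolate Finset.univ
    (fun i => S.γ (S.a i))
    (fun i => (Real.log ((h' (S.b i) - h' (S.a i)) / (h (S.b i) - h (S.a i))) : ℂ)) := ⟨_, rfl⟩
  obtain ⟨A, hA⟩ : ∃ A : ℂ → ℝ, A = fun z => Real.exp (p.eval z).re := ⟨_, rfl⟩
  have hAc : Continuous A := by
    rw [hA]; exact Real.continuous_exp.comp (continuous_re.comp p.continuous)
  have hAp : ∀ z, 0 < A z := fun z => by rw [hA]; exact Real.exp_pos _
  have hAi : ∀ i, A (S.γ (S.a i)) * (h (S.b i) - h (S.a i)) = h' (S.b i) - h' (S.a i) := by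
    intro i
    have := Lagrange.eval_interpolate_at_node
      (fun i => (Real.log ((h' (S.b i) - h' (S.a i)) / (h (S.b i) - h (S.a i))) : ℂ))
      (v := fun i => S.γ (S.a i)) (s := Finset.univ) S.inj.injOn (Finset.mem_univ i)
    rw [← hp0] at this
    rw [hA]
    simp only [this, ofReal_re, Real.exp_log (hρ i)]
    exact div_mul_cancel₀ _ (sub_ne_zero.2 (hne i).symm)
  obtain ⟨β, hβ⟩ : ∃ β : ℝ → ℝ, β = fun s => h' s - A (S.γ s) * h s := ⟨_, rfl⟩
  have hβc : Continuous β := by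
    have := S.cont
    rw [hβ]; fun_prop
  have hβp : Function.Periodic β 1 := fun s => by simp only [hβ, hp s, hp' s, S.per s]
  have hβw : ∀ s t, S.γ s = S.γ t → β s = β t := by
    intro s t e
    rw [(Zq.fract s).per hβp, (Zq.fract t).per hβp]
    rcases S.dbl _ (fract_mem s) _ (fract_mem t)
      (by rw [← (Zq.fract s).per S.per, ← (Zq.fract t).per S.per, e]) with
      e | ⟨i, ⟨e1, e2⟩ | ⟨e1, e2⟩⟩
    · rw [e]
    · rw [e1, e2, hβ]; simp only [← S.eq i]; linarith [hAi i]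
    · rw [e1, e2, hβ]; simp only [← S.eq i]; linarith [hAi i]
  obtain ⟨B, hB⟩ : ∃ B : C(ℂ, ℝ), ∀ s, B (S.γ s) = β s := by
    obtain ⟨q, hq⟩ : ∃ q : Icc (0 : ℝ) 1 → range S.γ, q = fun s => ⟨S.γ s, s, rfl⟩ := ⟨_, rfl⟩
    have hqc : Continuous q := by
      have := S.cont
      rw [hq]; fun_prop
    have hqs : Function.Surjective q := by
      rintro ⟨_, s, rfl⟩
      exact ⟨⟨_, Ico_subset_Icc_self (fract_mem s)⟩, by
        rw [hq]; exact Subtype.ext ((Zq.fract s).per S.per).symm⟩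
    have hqq : IsQuotientMap q := hqc.isClosedMap.isQuotientMap hqc hqs
    have e : ∀ x : range S.γ, ∀ s, S.γ s = x → β x.2.choose = β s := fun x s hs =>
      hβw _ _ (x.2.choose_spec.trans hs.symm)
    have hcont : Continuous fun x : range S.γ => β x.2.choose := by
      rw [hqq.continuous_iff]
      have : (fun x : range S.γ => β x.2.choose) ∘ q = fun s : Icc (0 : ℝ) 1 => β s := by
        funext s; exact e (q s) s (by rw [hq])
      rw [this]; fun_prop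
    obtain ⟨B, hB⟩ := ContinuousMap.exists_restrict_eq
      (S.per.compact_of_continuous one_ne_zero S.cont).isClosed ⟨_, hcont⟩
    exact ⟨B, fun s => (congrArg (fun f : C(range S.γ, ℝ) => f ⟨S.γ s, s, rfl⟩) hB).trans
      (e ⟨S.γ s, s, rfl⟩ s rfl)⟩
  have hpos : ∀ (t : I) (z : ℂ), 0 < 1 - (t : ℝ) + t * A z := by
    intro t z
    rcases eq_or_lt_of_le t.2.1 with e | e
    · rw [← e]; simp
    · linarith [mul_pos e (hAp z), t.2.2]
  refine ⟨fun t w => (w.1, (1 - (t : ℝ) + t * A w.1) * w.2 + t * B w.1), ?_, fun t => ?_, ?_, ?_⟩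
  · unfold Function.uncurry; fun_prop
  · refine isHomeomorph_iff_exists_inverse.2 ⟨by fun_prop,
      fun w => (w.1, (w.2 - t * B w.1) / (1 - (t : ℝ) + t * A w.1)), fun w => ?_, fun w => ?_, ?_⟩
    · have := (hpos t w.1).ne'
      ext
      · rfl
      · simp only; field_simp; ring
    · have := (hpos t w.1).ne'
      ext
      · rfl
      · simp only; field_simp; ring
    · exact continuous_fst.prodMk (Continuous.div (by fun_prop) (by fun_prop) fun w => (hpos t _).ne')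
  · funext w; simp
  · rw [← range_comp]
    congr 1
    funext s
    simp [hB, hβ]

end Sh

theorem finite_types {γ : ℝ → ℂ} (h : IsShadow γ) : (knotTypes γ).Finite := by
  classical
  obtain ⟨S, s₀, hS, -⟩ := h.exists_sh
  have := h.finite.fintype
  have hne : ∀ f, IsLift γ f → ∀ i, f (S.a i + s₀) ≠ f (S.b i + s₀) := fun f hf i =>
    hf.ne h.periodic (fun e => (S.ab i).ne (((Zq.add s₀).1 e).eq
      ⟨(S.a_pos i).le, (S.ab i).trans (S.b_lt i)⟩ ⟨((S.a_pos i).trans (S.ab i)).le, S.b_lt i⟩))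
      (by rw [← hS, ← hS, S.eq])
  have key : ∀ f f', IsLift γ f → IsLift γ f' →
      (∀ i, f (S.a i + s₀) < f (S.b i + s₀) ↔ f' (S.a i + s₀) < f' (S.b i + s₀)) →
      Isotopic (knot γ f) (knot γ f') := by
    intro f f' hf hf' e
    rw [← knot_shift hS, ← knot_shift hS]
    exact S.isotopic_of_same (h := fun s => f (s + s₀)) (h' := fun s => f' (s + s₀))
      (hf.1.continuous.comp (by fun_prop)) (hf.2.1.add_const s₀) (hne f hf)
      (hf'.1.continuous.comp (by fun_prop)) (hf'.2.1.add_const s₀) (hne f' hf') e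
  refine (finite_range fun P : crossings γ → Prop => {K | ∃ f, IsLift γ f ∧
    (∀ i, f (S.a i + s₀) < f (S.b i + s₀) ↔ P i) ∧ Isotopic (knot γ f) K}).subset ?_
  rintro _ ⟨f, hf, rfl⟩
  refine ⟨fun i => f (S.a i + s₀) < f (S.b i + s₀), ?_⟩
  ext K
  exact ⟨fun ⟨f', a1, a2, a3⟩ => (key f f' hf a1 fun i => (a2 i).symm).trans a3,
    fun a => ⟨f, hf, fun _ => Iff.rfl, a⟩⟩

theorem main {γ : ℝ → ℂ} (h : IsShadow γ) (hr : Reduced γ) :
    (crossings γ).ncard < 3 * (knotTypes γ).ncard := by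
  classical
  obtain ⟨S, s₀, hS, hx⟩ := h.exists_sh
  have := h.finite.fintype
  have hrange : range S.γ = range γ := by
    ext z
    exact ⟨fun ⟨s, e⟩ => ⟨s + s₀, by rw [← hS, e]⟩, fun ⟨s, e⟩ => ⟨s - s₀, by simp [hS, e]⟩⟩
  have hpos : ∀ i, 0 < ∑ k, S.w i k := by
    intro i
    refine lt_of_le_of_ne (Finset.sum_nonneg fun k _ => S.w_nonneg i k) fun e => hr i i.2 ?_
    have := S.nugatory (i := i) fun k => (Finset.sum_eq_zero_iff_of_nonneg
      (fun k _ => S.w_nonneg i k)).1 e.symm k (Finset.mem_univ k)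
    unfold Nugatory at this ⊢
    rwa [hrange, hx] at this
  obtain ⟨V, hV, hV'⟩ := many_values S.w S.w_symm S.w_self S.w_nonneg hpos
  have h1 : ∀ v ∈ V, ∃ f, IsLift γ f ∧ ∃ D : Dg (crossings γ), D.K = knot γ f ∧
      4 * tInv D.Nm = v - En S.w S.sg := by
    intro v hv
    obtain ⟨ε, e1, e2⟩ := hV' v hv
    obtain ⟨g, g1, g2, g3⟩ := S.exists_height fun i => (ε i * S.sg i : ℤ)
    have hne : ∀ i, g (S.a i) ≠ g (S.b i) := by
      intro i
      rw [(g3 i).1, (g3 i).2]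
      intro e
      have e' : ε i * S.sg i = 0 := by exact_mod_cast e
      have := S.sg_sq i
      rcases e1 i with e3 | e3 <;> simp_all
    refine ⟨fun s => g (s - s₀), ⟨(g1.of_le le_top).comp (by fun_prop), g2.sub_const s₀,
      fun s hs t ht hst e => ?_⟩, S.dg g g1.continuous g2 hne, ?_, ?_⟩
    · have := (S.dg g g1.continuous g2 hne).dbl' (s := s - s₀) (t := t - s₀)
        (by simpa [Sh.dg, hS] using e)
      have lt := (S.dg g g1.continuous g2 hne).lt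
      rcases this with e | ⟨i, ⟨a1, a2⟩ | ⟨a1, a2⟩⟩
      · exact absurd (((Zq.add (-s₀)).1 e).eq hs ht) hst
      · simp only [a1.per g2, a2.per g2]; exact (lt i).ne'
      · simp only [a1.per g2, a2.per g2]; exact (lt i).ne
    · rw [← knot_shift hS]; simp [Dg.K, Sh.dg]
    · rw [S.energy, ← e2]
      congr 2
      funext i
      rw [S.ε_dg, (g3 i).1, (g3 i).2]
      have := S.sg_sq i
      have h3 : S.sg i = 1 ∨ S.sg i = -1 := Int.eq_one_or_neg_one_of_mul_eq_one this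
      rcases e1 i with e3 | e3 <;> rcases h3 with e4 | e4 <;> simp [e3, e4]
  choose! f hf D hD hD' using h1
  have h2 : (V : Set ℤ).ncard ≤ (knotTypes γ).ncard := by
    refine ncard_le_ncard_of_injOn (fun v => {K | Isotopic (knot γ (f v)) K})
      (fun v hv => ⟨f v, hf v hv, rfl⟩) (fun v hv v' hv' e => ?_) (finite_types h)
    have a1 : knot γ (f v') ∈ {K | Isotopic (knot γ (f v)) K} := by
      simp only at e
      rw [e]; exact Isotopic.refl _
    obtain ⟨H, -, a2, -, a3⟩ := a1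
    have a4 := inv_homeo (D := D v hv) (D' := D v' hv') (f := (a2 1).homeomorph) fun w => by
      rw [hD, hD, ← a3]
      exact (a2 1).injective.mem_set_image
    linarith [hD' v hv, hD' v' hv']
  rw [ncard_coe_finset] at h2
  rw [ncard_eq_toFinset_card', toFinset_card]
  omega

end Pool.Agent.MP_a5f24b_gt

end
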